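import Pool.Agent.H95.AED.TL

/-!
# AED BT: bottom edges

`x`, `t` valid, so `t i = Tq (e i x)` for a `q` injective at the hubs. Write `lev_i s` for level `s` of chain `i`.
BT 1: strong induction on `r (e j x).1` (natural number) and `s`: if `Bot j` take `i = j`, `s' = s`. Otherwise
`lev_{j'} s₀ = e j x` for some `j'`, `1 ≤ s₀ ≤ |t j'|`, and `t j' |>.drop s₀ = t j` (TL 5), `lev_{j'} (s₀ + s) = lev_j s`
(LV 5), and `r (e j' x).1 < r (e j x).1` (LV 7); apply the induction hypothesis to `j'`, `s₀ + s`.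
BT 2: go down with `lev_child` (TL 8): by induction on `min s s'`: `lev_i s = lev_j s'` with `s, s' ≥ 1` gives
`lev_i (s-1) = lev_j (s'-1)`; if `s = 0`, `s' > 0` then `lev_j s' = e i x` contradicts `Bot i`; if `s = s' = 0` then
`e i x = e j x` gives `i = j` by `hdist`.
-/

set_option autoImplicit false

open Finset

namespace Pool.Agent.H95.AED

variable {V : Type} [Fintype V] {G : SimpleGraph V} {r : V → ℕ} {L : ℕ} (c : Cfg G r L) {K : ℕ}

/-- BT 1 -/
theorem bot_cover {x : c.X} {t : Fin c.m → List V} (hv : c.Valid K x t) (j : Fin c.m) (s : ℕ)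
    (hs : s ≤ (t j).length) : ∃ i, c.Bot x t i ∧ ∃ s', s' ≤ (t i).length ∧
      lev (c.e i x).1 (c.e i x).2 (t i) s' = lev (c.e j x).1 (c.e j x).2 (t j) s ∧
      (t i).drop s' = (t j).drop s := by
  obtain ⟨q, hq, ht, hocc⟩ := hv
  obtain ⟨m, hm⟩ : ∃ m, m = r (c.e j x).1 := ⟨_, rfl⟩
  induction m using Nat.strong_induction_on generalizing j s with
  | _ m ih =>
    by_cases hb : c.Bot x t j
    · exact ⟨j, hb, s, hs, rfl, rfl⟩
    · unfold Cfg.Bot at hb
      push Not at hb
      obtain ⟨j', s0, h1, h2, h3⟩ := hb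
      have hchn : Chn G r (c.e j' x).1 (c.e j' x).2 (t j') := by
        rw [ht j']
        exact Tq_chn G r L q (c.hup j' x)
      have h4 : t j = (t j').drop s0 := by
        have h5 := Tq_lev G r L q (c.e j' x).1 (c.e j' x).2 s0 (by rw [← ht j']; exact h2)
        rw [← ht j', h3, ← ht j] at h5
        exact h5
      have h5 : s0 + s ≤ (t j').length := by
        rw [h4, List.length_drop] at hs
        omega
      have h6 := lev_add (c.e j' x).1 (c.e j' x).2 (t j') s0 s h5
      rw [h3, ← h4] at h6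
      have h7 := (chn_above G r hchn s0 h1 h2).2
      rw [h3] at h7
      obtain ⟨i, hi, s', hs', h8, h9⟩ := ih (r (c.e j' x).1) (by omega) j' (s0 + s) h5 rfl
      refine ⟨i, hi, s', hs', h8.trans h6, ?_⟩
      rw [h9, h4, List.drop_drop]

/-- BT 2 -/
theorem bot_inj {x : c.X} {t : Fin c.m → List V} (hv : c.Valid K x t) {i j : Fin c.m}
    (hi : c.Bot x t i) (hj : c.Bot x t j) {s s' : ℕ} (hs : s ≤ (t i).length) (hs' : s' ≤ (t j).length)
    (h : lev (c.e i x).1 (c.e i x).2 (t i) s = lev (c.e j x).1 (c.e j x).2 (t j) s') :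
    i = j ∧ s = s' := by
  obtain ⟨q, hq, ht, hocc⟩ := hv
  induction s generalizing s' with
  | zero =>
    rw [lev_zero] at h
    cases s' with
    | zero =>
      rw [lev_zero] at h
      refine ⟨?_, rfl⟩
      by_contra hne
      refine c.hdist i j x hne ?_
      rw [Prod.mk.inj h |>.1, Prod.mk.inj h |>.2]
    | succ s' => exact absurd h.symm (hi j (s' + 1) (by omega) hs')
  | succ s ih =>
    cases s' with
    | zero =>
      rw [lev_zero] at h
      exact absurd h (hj i (s + 1) (by omega) hs)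
    | succ s' =>
      have h1 := lev_child G r L q hq (c.hup i x) (c.hup j x) (s := s) (s' := s')
        (by rw [← ht i]; exact hs) (by rw [← ht j]; exact hs')
        (by rw [← ht i, ← ht j]; exact h)
      rw [← ht i, ← ht j] at h1
      obtain ⟨h2, h3⟩ := ih (s' := s') (by omega) (by omega) h1
      exact ⟨h2, by omega⟩

end Pool.Agent.H95.AED
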