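import Pool.Agent.H95.AED.Def
import Pool.Agent.H95.AEC.Walk

/-!
# AED WK: closed walks through an edge

A word is a list of booleans. `wc w v y` = number of walks from `v` to `y` whose steps, from the last one to the first one, have
the types in `w` (`true`: the step `z → y` has `r z ≤ r y`, `false`: `r y < r z`).
WK 1 (rows): `∑ y, wc w v y ≤ k^(#true) * K^(#false)`; by induction, for the last step: for fixed `z` there are at most `k` (resp. `K`)
vertices `y`.
WK 2 (columns): for fixed `y` at most `K` (resp. `k`) vertices `z`: `∑ v, wc w v y ≤ K^(#true) * k^(#false)`: the set of `z` with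
`r z ≤ r y` adjacent to `y` has at most `K` elements; with `r y < r z` at most `k`.
WK 3: for `|w| = 2n+3`, `k ≤ K`: `wc w v u ≤ (k K)^(n+1)`. If `w = b :: w'` (last step `b`) then
`wc w v u ≤ ∑ z, wc w' v z ≤ k^a K^(2n+2-a)`, `a` = number of `true` in `w'`. Also `w = w'' ++ [b']` (first step `b'`), and
`wc (w'' ++ [b']) v u ≤ ∑ z, wc w'' z u ≤ K^(2n+2-b) k^b`, `b` = number of `false` in `w''` (lemma: `wc (w ++ [b']) v y =
∑ z with first step allowed, wc w z y`, by induction on `w`). As the `2n+1` middle letters are in `w'` and in `w''`, `a + b ≥ 2n+1`,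
so `a ≥ n+1` or `b ≥ n+1`, and `k ≤ K` gives the bound.
WK 4: `AEC.wk_cnt G j v y ≤ ∑ w ∈ words j, wc w v y` by induction (every neighbour is of exactly one type), `words j` has at most
`2^j` elements. So `wk_cnt G (2n+3) v u ≤ 2^(2n+3) (kK)^(n+1) = 2 (4kK)^(n+1)`.
WK 5: by rotation (`AEC.wk_rot`) `i = 0`; the map `x ↦ (j ↦ x (j+1))`, `Fin (2n+3+1)`, sends the closed walks with `x 0 = u`,
`x 1 = v` injectively into `AEC.wk_W G (2n+3) v u` (`AEC.wk_W_card`). WK 6: the same for the crude bound: `∑ y, wk_cnt G j v y ≤ K^j` and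
`wk_cnt G (j+1) v u ≤ ∑ z, wk_cnt G j v z ≤ K^j`, `j = 2n+2`.
-/

set_option autoImplicit false

open Finset

namespace Pool.Agent.H95.AED

open Pool.Agent.H95.AEC (CW wk_cnt)

variable {V : Type} [Fintype V] (G : SimpleGraph V) (r : V → ℕ)

open Classical in
/-- number of walks with given step types -/
noncomputable def wc : List Bool → V → V → ℕ
  | [], v, y => if v = y then 1 else 0
  | true :: w, v, y => ∑ z ∈ univ.filter (fun z => G.Adj z y ∧ r z ≤ r y), wc w v z
  | false :: w, v, y => ∑ z ∈ univ.filter (fun z => G.Adj z y ∧ r y < r z), wc w v z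

private theorem wk_swp (P : V → V → Prop) [∀ z y, Decidable (P z y)] (f : V → ℕ) (C : ℕ)
    (h : ∀ z, ∀ S : Finset V, (∀ y ∈ S, P z y) → S.card ≤ C) :
    ∑ y, ∑ z ∈ univ.filter (fun z => P z y), f z ≤ C * ∑ z, f z := by
  simp only [Finset.sum_filter]
  rw [Finset.sum_comm, Finset.mul_sum]
  refine Finset.sum_le_sum fun z _ => ?_
  rw [← Finset.sum_filter, Finset.sum_const, smul_eq_mul]
  exact Nat.mul_le_mul_right _ (h z _ fun y hy => (mem_filter.1 hy).2)

open Classical in
/-- WK 1 -/
theorem wc_row {k K : ℕ} (hk : ∀ v, (univ.filter (fun a => Upe G r v a)).card ≤ k)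
    (hK : ∀ v, (univ.filter (fun a => G.Adj v a)).card ≤ K) (w : List Bool) (v : V) :
    ∑ y, wc G r w v y ≤ k ^ (w.count true) * K ^ (w.count false) := by
  induction w with
  | nil => simp [wc]
  | cons b w ih =>
    cases b with
    | true =>
      rw [List.count_cons_self, List.count_cons_of_ne (by decide), pow_succ']
      simp only [wc]
      refine (wk_swp (fun z y => G.Adj z y ∧ r z ≤ r y) (wc G r w v) k (fun z S hS =>
        (Finset.card_le_card fun y hy =>
          (@mem_filter _ _ (_) _ _).2 ⟨mem_univ _, hS y hy⟩).trans (hk z))).trans ?_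
      rw [mul_assoc]
      exact Nat.mul_le_mul_left _ ih
    | false =>
      rw [List.count_cons_self, List.count_cons_of_ne (by decide), pow_succ']
      simp only [wc]
      refine (wk_swp (fun z y => G.Adj z y ∧ r y < r z) (wc G r w v) K (fun z S hS =>
        (Finset.card_le_card fun y hy => mem_filter.2 ⟨mem_univ _, (hS y hy).1⟩).trans
          (hK z))).trans ?_
      calc K * ∑ z, wc G r w v z ≤ K * (k ^ (w.count true) * K ^ (w.count false)) :=
            Nat.mul_le_mul_left _ ih
        _ = _ := by ring

open Classical in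
/-- WK 2 -/
theorem wc_col {k K : ℕ} (hk : ∀ v, (univ.filter (fun a => Upe G r v a)).card ≤ k)
    (hK : ∀ v, (univ.filter (fun a => G.Adj v a)).card ≤ K) (w : List Bool) (y : V) :
    ∑ v, wc G r w v y ≤ K ^ (w.count true) * k ^ (w.count false) := by
  induction w generalizing y with
  | nil => simp [wc]
  | cons b w ih =>
    cases b with
    | true =>
      rw [List.count_cons_self, List.count_cons_of_ne (by decide), pow_succ']
      simp only [wc]
      rw [Finset.sum_comm]
      refine (Finset.sum_le_sum fun z _ => ih z).trans ?_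
      rw [Finset.sum_const, smul_eq_mul, mul_assoc]
      refine Nat.mul_le_mul_right _ ((Finset.card_le_card fun z hz => ?_).trans (hK y))
      exact mem_filter.2 ⟨mem_univ _, (mem_filter.1 hz).2.1.symm⟩
    | false =>
      rw [List.count_cons_self, List.count_cons_of_ne (by decide), pow_succ']
      simp only [wc]
      rw [Finset.sum_comm]
      refine (Finset.sum_le_sum fun z _ => ih z).trans ?_
      rw [Finset.sum_const, smul_eq_mul]
      have h1 : (univ.filter (fun z => G.Adj z y ∧ r y < r z)).card ≤ k :=
        (Finset.card_le_card fun z hz => mem_filter.2 ⟨mem_univ _, (mem_filter.1 hz).2.1.symm,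
          (mem_filter.1 hz).2.2.le⟩).trans (hk y)
      calc (univ.filter (fun z => G.Adj z y ∧ r y < r z)).card *
            (K ^ (w.count true) * k ^ (w.count false)) ≤
            k * (K ^ (w.count true) * k ^ (w.count false)) := Nat.mul_le_mul_right _ h1
        _ = _ := by ring

open Classical in
private theorem wk_last (b : Bool) (w : List Bool) (v u : V) :
    wc G r (b :: w) v u ≤ ∑ z, wc G r w v z := by
  cases b <;> exact Finset.sum_le_sum_of_subset (Finset.filter_subset _ _)

open Classical in
private theorem wk_first (b : Bool) (w : List Bool) (v u : V) :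
    wc G r (w ++ [b]) v u ≤ ∑ z, wc G r w z u := by
  induction w generalizing u with
  | nil =>
    refine (wk_last G r b [] v u).trans (le_of_eq ?_)
    simp [wc]
  | cons b' w ih =>
    cases b' with
    | true =>
      simp only [List.cons_append, wc]
      rw [Finset.sum_comm]
      exact Finset.sum_le_sum fun z _ => ih z
    | false =>
      simp only [List.cons_append, wc]
      rw [Finset.sum_comm]
      exact Finset.sum_le_sum fun z _ => ih z

private theorem wk_pow {k K a b n : ℕ} (hkK : k ≤ K) (ha : n + 1 ≤ a) (hab : a + b = 2 * n + 2) :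
    k ^ a * K ^ b ≤ (k * K) ^ (n + 1) := by
  obtain ⟨c, rfl⟩ := Nat.exists_eq_add_of_le ha
  calc k ^ (n + 1 + c) * K ^ b = k ^ (n + 1) * (k ^ c * K ^ b) := by ring
    _ ≤ k ^ (n + 1) * (K ^ c * K ^ b) :=
        Nat.mul_le_mul_left _ (Nat.mul_le_mul_right _ (Nat.pow_le_pow_left hkK c))
    _ = (k * K) ^ (n + 1) := by
        rw [← pow_add, mul_pow]
        congr 2
        omega

open Classical in
/-- WK 3 -/
theorem wc_point {k K : ℕ} (hkK : k ≤ K) (hk : ∀ v, (univ.filter (fun a => Upe G r v a)).card ≤ k)
    (hK : ∀ v, (univ.filter (fun a => G.Adj v a)).card ≤ K) (n : ℕ) (w : List Bool)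
    (hw : w.length = 2 * n + 3) (v u : V) : wc G r w v u ≤ (k * K) ^ (n + 1) := by
  obtain ⟨b, w', rfl⟩ : ∃ b w', w = b :: w' := by
    cases w with
    | nil => simp at hw
    | cons b w' => exact ⟨b, w', rfl⟩
  have hw' : w'.length = 2 * n + 2 := by
    rw [List.length_cons] at hw
    omega
  obtain ⟨m, b', rfl⟩ : ∃ m b', w' = m ++ [b'] := by
    rcases List.eq_nil_or_concat w' with h | ⟨m, b', h⟩
    · rw [h] at hw'
      simp at hw'
    · exact ⟨m, b', by rw [h, List.concat_eq_append]⟩
  have hm : m.length = 2 * n + 1 := by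
    rw [List.length_append, List.length_singleton] at hw'
    omega
  have hc : ∀ l : List Bool, l.count true + l.count false = l.length := by
    intro l
    induction l with
    | nil => simp
    | cons b l ih =>
      cases b <;> simp <;> omega
  have h1 := hc (m ++ [b'])
  have h2 := hc (b :: m)
  have h3 := hc m
  have h4 : m.count true ≤ (m ++ [b']).count true := by
    rw [List.count_append]
    omega
  have h5 : m.count false ≤ (b :: m).count false := by
    rw [List.count_cons]
    omega
  rw [List.length_append, List.length_singleton] at h1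
  rw [List.length_cons] at h2
  by_cases ha : n + 1 ≤ (m ++ [b']).count true
  · refine ((wk_last G r b (m ++ [b']) v u).trans (wc_row G r hk hK _ v)).trans ?_
    exact wk_pow hkK ha (by omega)
  · have hb : n + 1 ≤ (b :: m).count false := by omega
    have h6 : b :: (m ++ [b']) = (b :: m) ++ [b'] := rfl
    rw [h6]
    refine ((wk_first G r b' (b :: m) v u).trans (wc_col G r hk hK _ u)).trans ?_
    rw [mul_comm]
    exact wk_pow hkK hb (by omega)

open Classical in
private theorem wk_words (j : ℕ) : ∃ W : Finset (List Bool), W.card ≤ 2 ^ j ∧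
    (∀ w ∈ W, w.length = j) ∧ ∀ v y, wk_cnt G j v y ≤ ∑ w ∈ W, wc G r w v y := by
  induction j with
  | zero =>
    refine ⟨{[]}, by simp, by simp, fun v y => ?_⟩
    simp [wc, wk_cnt]
  | succ j ih =>
    obtain ⟨W, h1, h2, h3⟩ := ih
    refine ⟨W.image (List.cons true) ∪ W.image (List.cons false), ?_, ?_, fun v y => ?_⟩
    · refine (Finset.card_union_le _ _).trans ?_
      have h4 := Finset.card_image_le (s := W) (f := List.cons true)
      have h5 := Finset.card_image_le (s := W) (f := List.cons false)
      rw [pow_succ]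
      omega
    · intro w hw
      rcases mem_union.1 hw with h | h
      · obtain ⟨w', hw', rfl⟩ := mem_image.1 h
        rw [List.length_cons, h2 w' hw']
      · obtain ⟨w', hw', rfl⟩ := mem_image.1 h
        rw [List.length_cons, h2 w' hw']
    · rw [Finset.sum_union]
      · rw [Finset.sum_image (fun a _ b _ h => (List.cons.inj h).2),
          Finset.sum_image (fun a _ b _ h => (List.cons.inj h).2)]
        have h4 : wk_cnt G (j + 1) v y = ∑ z ∈ univ.filter (fun z => G.Adj z y ∧ r z ≤ r y),
            wk_cnt G j v z + ∑ z ∈ univ.filter (fun z => G.Adj z y ∧ r y < r z), wk_cnt G j v z := by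
          rw [← Finset.sum_union]
          · show ∑ z ∈ univ.filter (fun z => G.Adj z y), wk_cnt G j v z = _
            refine Finset.sum_congr ?_ fun _ _ => rfl
            ext z
            simp only [mem_filter, mem_univ, true_and, mem_union]
            constructor
            · intro h
              rcases le_or_gt (r z) (r y) with h1 | h1
              · exact Or.inl ⟨h, h1⟩
              · exact Or.inr ⟨h, h1⟩
            · rintro (h | h)
              · exact h.1
              · exact h.1
          · rw [Finset.disjoint_left]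
            intro z hz hz'
            have h6 := (mem_filter.1 hz).2.2
            have h7 := (mem_filter.1 hz').2.2
            omega
        rw [h4]
        refine Nat.add_le_add ?_ ?_
        · simp only [wc]
          rw [Finset.sum_comm]
          exact Finset.sum_le_sum fun z _ => h3 v z
        · simp only [wc]
          rw [Finset.sum_comm]
          exact Finset.sum_le_sum fun z _ => h3 v z
      · rw [Finset.disjoint_left]
        intro w hw hw'
        obtain ⟨a, _, rfl⟩ := mem_image.1 hw
        obtain ⟨b, _, hb⟩ := mem_image.1 hw'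
        exact absurd (List.cons.inj hb).1 (by decide)

open Classical in
/-- WK 4 -/
theorem wk_cnt_le {k K : ℕ} (hkK : k ≤ K) (hk : ∀ v, (univ.filter (fun a => Upe G r v a)).card ≤ k)
    (hK : ∀ v, (univ.filter (fun a => G.Adj v a)).card ≤ K) (n : ℕ) (v u : V) :
    wk_cnt G (2 * n + 3) v u ≤ 2 * (4 * k * K) ^ (n + 1) := by
  obtain ⟨W, h1, h2, h3⟩ := wk_words G r (2 * n + 3)
  refine (h3 v u).trans ((Finset.sum_le_sum fun w hw =>
    wc_point G r hkK hk hK n w (h2 w hw) v u).trans ?_)
  rw [Finset.sum_const, smul_eq_mul]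
  refine (Nat.mul_le_mul_right _ h1).trans (le_of_eq ?_)
  have h4 : 2 ^ (2 * n + 3) = 2 * 4 ^ (n + 1) := by
    have : (4 : ℕ) = 2 ^ 2 := by norm_num
    rw [this, ← pow_mul, ← pow_succ']
    congr 1
  rw [h4, mul_assoc 4 k K, mul_pow 4 (k * K)]
  ring

open Classical in
private theorem wk_edge (n : ℕ) (i : Fin (2 * n + 4)) (u v : V) :
    (univ.filter (fun x : Fin (2 * n + 4) → V => CW G x ∧ x i = u ∧ x (i + 1) = v)).card ≤
      wk_cnt G (2 * n + 3) v u := by
  have h0 := Pool.Agent.H95.AEC.wk_rot G n i (fun x => x i = u ∧ x (i + 1) = v)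
    (fun x => x 0 = u ∧ x 1 = v) (by
      rintro x ⟨h1, h2⟩
      refine ⟨by simpa using h1, ?_⟩
      rw [← h2, add_comm i 1])
  have h1 : (univ.filter (fun x : Fin (2 * n + 4) → V => CW G x ∧ x 0 = u ∧ x 1 = v)).card ≤
      (Pool.Agent.H95.AEC.wk_W G (2 * n + 3) v u).card := by
    refine Finset.card_le_card_of_injOn
      (fun x => fun j : Fin (2 * n + 3 + 1) => x ((⟨j.val, by omega⟩ : Fin (2 * n + 4)) + 1)) ?_ ?_
    · intro x hx
      have hx' := (Finset.mem_filter.1 (Finset.mem_coe.1 hx)).2
      refine Finset.mem_coe.2 (Finset.mem_filter.2 ⟨mem_univ _, ?_, ?_, ?_⟩)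
      · rw [← hx'.2.2]
        exact congrArg x (Fin.ext rfl)
      · rw [← hx'.2.1]
        refine congrArg x (Fin.ext ?_)
        show (2 * n + 3 + 1) % (2 * n + 4) = 0
        exact Nat.mod_self _
      · intro j
        have h2 := hx'.1 ((⟨j.val, by omega⟩ : Fin (2 * n + 4)) + 1)
        have h3 : (⟨j.val, by omega⟩ : Fin (2 * n + 4)) + 1 = ⟨j.val + 1, by omega⟩ := by
          refine Fin.ext ?_
          show (j.val + 1) % (2 * n + 4) = j.val + 1
          exact Nat.mod_eq_of_lt (by omega)
        rw [h3] at h2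
        show G.Adj (x ((⟨j.val, by omega⟩ : Fin (2 * n + 4)) + 1))
          (x ((⟨j.val + 1, by omega⟩ : Fin (2 * n + 4)) + 1))
        rw [h3]
        exact h2
    · intro x _ x' _ heq
      funext j
      have h2 := congrFun heq ⟨(j - 1).val, by omega⟩
      simp only at h2
      have h3 : (⟨(j - 1).val, by omega⟩ : Fin (2 * n + 4)) + 1 = j := by
        have : (⟨(j - 1).val, by omega⟩ : Fin (2 * n + 4)) = j - 1 := rfl
        rw [this, sub_add_cancel]
      rw [h3] at h2
      exact h2
  refine le_trans ?_ ((h0.trans (le_trans ?_ h1)).trans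
    (Pool.Agent.H95.AEC.wk_W_card G (2 * n + 3) v u))
  · refine Finset.card_le_card fun x hx => ?_
    have h2 := (Finset.mem_filter.1 hx).2
    exact @Finset.mem_filter _ _ (_) _ _ |>.2 ⟨mem_univ _, h2⟩
  · refine Finset.card_le_card fun x hx => ?_
    have h2 := (@Finset.mem_filter _ _ (_) _ _ |>.1 hx).2
    exact Finset.mem_filter.2 ⟨mem_univ _, h2⟩

open Classical in
/-- WK 5 -/
theorem walks_edge {k K : ℕ} (hkK : k ≤ K) (hk : ∀ v, (univ.filter (fun a => Upe G r v a)).card ≤ k)
    (hK : ∀ v, (univ.filter (fun a => G.Adj v a)).card ≤ K) (n : ℕ) (i : Fin (2 * n + 4)) (u v : V) :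
    (univ.filter (fun x : Fin (2 * n + 4) → V => CW G x ∧ x i = u ∧ x (i + 1) = v)).card ≤
      2 * (4 * k * K) ^ (n + 1) :=
  (wk_edge G n i u v).trans (wk_cnt_le G r hkK hk hK n v u)

open Classical in
/-- WK 6 -/
theorem walks_crude {K : ℕ} (hK : ∀ v, (univ.filter (fun a => G.Adj v a)).card ≤ K) (n : ℕ)
    (i : Fin (2 * n + 4)) (u v : V) :
    (univ.filter (fun x : Fin (2 * n + 4) → V => CW G x ∧ x i = u ∧ x (i + 1) = v)).card ≤
      K ^ (2 * n + 2) := by
  have h1 : ∀ j, ∑ y, wk_cnt G j v y ≤ K ^ j := by
    intro j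
    induction j with
    | zero => simp [wk_cnt]
    | succ j ih =>
      rw [pow_succ']
      refine (wk_swp (fun z y => G.Adj z y) (wk_cnt G j v) K (fun z S hS =>
        (Finset.card_le_card fun y hy => mem_filter.2 ⟨mem_univ _, hS y hy⟩).trans (hK z))).trans ?_
      exact Nat.mul_le_mul_left _ ih
  refine (wk_edge G n i u v).trans (le_trans ?_ (h1 (2 * n + 2)))
  exact Finset.sum_le_sum_of_subset (Finset.filter_subset _ _)

end Pool.Agent.H95.AED
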