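import Pool.Agent.H95.AED.LV
import Pool.Agent.H95.AED.WK

/-!
# AED CF: closed walks as configurations

CF 1: cases. CF 2: the edge `i` of an injective closed sequence of length `2n+4 ≥ 4` is the unordered pair `s(x i, x (i+1))`; for
`i ≠ j` these pairs are different (compare `shp_share`, `shp_raw_inj` in `AEC/Shape.lean`): `x i = x j` is impossible, so `x i = x (j+1)`,
`x (i+1) = x j`, `i = j + 1`, `j = i + 1`, `i = i + 2`, impossible in `Fin (2n+4)` (`AEC/Shape.lean`, `shp_fin_two_ne`).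
CF 3, 4: `ee r x i = g` implies `(x i, x (i+1)) = g` or `(x i, x (i+1)) = g.swap`; union bound and `walks_edge`, `walks_crude`.
-/

set_option autoImplicit false

open Finset

namespace Pool.Agent.H95.AED

/-- the oriented edge `i` of the closed sequence `x` -/
def ee {V : Type} (r : V → ℕ) {n : ℕ} (x : Fin (2 * n + 4) → V) (i : Fin (2 * n + 4)) : V × V :=
  if r (x i) ≤ r (x (i + 1)) then (x i, x (i + 1)) else (x (i + 1), x i)

/-- injective closed walks -/
abbrev CX {V : Type} (G : SimpleGraph V) (n : ℕ) : Type :=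
  {x : Fin (2 * n + 4) → V // Function.Injective x ∧ ∀ i, G.Adj (x i) (x (i + 1))}

/-- chain of the edge `i` -/
noncomputable def tx {V : Type} [Fintype V] (G : SimpleGraph V) (r : V → ℕ) (L : ℕ) {K : ℕ}
    (q : Drt V → Fin K) {n : ℕ} (x : Fin (2 * n + 4) → V) (i : Fin (2 * n + 4)) : List V :=
  Tq G r L q (ee r x i).1 (ee r x i).2

/-- colour of the colour dart of the edge `i` -/
noncomputable def gx {V : Type} [Fintype V] (G : SimpleGraph V) (r : V → ℕ) (L : ℕ) {K : ℕ}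
    (q : Drt V → Fin K) {n : ℕ} (x : Fin (2 * n + 4) → V) (i : Fin (2 * n + 4)) : Fin K :=
  q (gam r (ee r x i).1 (ee r x i).2 (tx G r L q x i))

/-- CF 1 -/
theorem ee_upe {V : Type} (G : SimpleGraph V) (r : V → ℕ) {n : ℕ} (x : CX G n)
    (i : Fin (2 * n + 4)) : Upe G r (ee r x.1 i).1 (ee r x.1 i).2 := by
  unfold ee
  split_ifs with h
  · exact ⟨x.2.2 i, h⟩
  · exact ⟨(x.2.2 i).symm, (not_le.1 h).le⟩

private theorem cf_pair {V : Type} (r : V → ℕ) {n : ℕ} (x : Fin (2 * n + 4) → V)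
    (i : Fin (2 * n + 4)) : s((ee r x i).1, (ee r x i).2) = s(x i, x (i + 1)) := by
  unfold ee
  split_ifs with h
  · rfl
  · exact Sym2.eq_swap

private theorem cf_two_ne {n : ℕ} (i : Fin (2 * n + 4)) : i + 1 + 1 ≠ i := by
  intro h
  have h1 : (1 + 1 : Fin (2 * n + 4)) = 0 := by
    have h2 : i + (1 + 1) = i + 0 := by rw [← add_assoc, h, add_zero]
    exact add_left_cancel h2
  have h3 := congrArg Fin.val h1
  rw [Fin.val_add] at h3
  have h4 : ((1 : Fin (2 * n + 4)) : ℕ) = 1 := by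
    rw [Fin.val_one']
    exact Nat.mod_eq_of_lt (by omega)
  rw [h4] at h3
  have h5 : (1 + 1) % (2 * n + 4) = 2 := Nat.mod_eq_of_lt (by omega)
  rw [h5] at h3
  exact absurd h3 (by simp)

/-- CF 2 -/
theorem ee_dist {V : Type} (G : SimpleGraph V) (r : V → ℕ) {n : ℕ} (x : CX G n)
    (i j : Fin (2 * n + 4)) (hij : i ≠ j) :
    s((ee r x.1 i).1, (ee r x.1 i).2) ≠ s((ee r x.1 j).1, (ee r x.1 j).2) := by
  rw [cf_pair, cf_pair]
  intro h
  rcases Sym2.eq_iff.1 h with ⟨h1, _⟩ | ⟨h1, h2⟩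
  · exact hij (x.2.1 h1)
  · have h3 := x.2.1 h1
    have h4 := x.2.1 h2
    rw [h3] at h4
    exact cf_two_ne j h4

open Classical in
private theorem cf_cnt {V : Type} [Fintype V] (G : SimpleGraph V) (r : V → ℕ) (n : ℕ)
    (i : Fin (2 * n + 4)) (g : V × V) (B : ℕ)
    (hB : ∀ u v, (univ.filter (fun x : Fin (2 * n + 4) → V =>
      Pool.Agent.H95.AEC.CW G x ∧ x i = u ∧ x (i + 1) = v)).card ≤ B) (S : Finset (CX G n))
    (hS : ∀ x ∈ S, ee r x.1 i = g) : S.card ≤ 2 * B := by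
  have h1 : S.card ≤ ((univ.filter (fun x : Fin (2 * n + 4) → V =>
      Pool.Agent.H95.AEC.CW G x ∧ x i = g.1 ∧ x (i + 1) = g.2)) ∪
      (univ.filter (fun x : Fin (2 * n + 4) → V =>
      Pool.Agent.H95.AEC.CW G x ∧ x i = g.2 ∧ x (i + 1) = g.1))).card := by
    refine Finset.card_le_card_of_injOn (fun x => x.1) ?_ (fun a _ b _ h => Subtype.ext h)
    intro x hx
    have h2 := hS x (Finset.mem_coe.1 hx)
    refine Finset.mem_coe.2 (mem_union.2 ?_)
    unfold ee at h2
    split_ifs at h2 with h3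
    · left
      refine mem_filter.2 ⟨mem_univ _, x.2.2, ?_, ?_⟩
      · rw [← h2]
      · rw [← h2]
    · right
      refine mem_filter.2 ⟨mem_univ _, x.2.2, ?_, ?_⟩
      · rw [← h2]
      · rw [← h2]
  refine h1.trans ((Finset.card_union_le _ _).trans ?_)
  have h2 := hB g.1 g.2
  have h3 := hB g.2 g.1
  omega

open Classical in
/-- CF 3 -/
theorem ee_count {V : Type} [Fintype V] (G : SimpleGraph V) (r : V → ℕ) {k K : ℕ} (hkK : k ≤ K)
    (hk : ∀ v, (univ.filter (fun a => Upe G r v a)).card ≤ k)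
    (hK : ∀ v, (univ.filter (fun a => G.Adj v a)).card ≤ K) (n : ℕ) (i : Fin (2 * n + 4)) (g : V × V) :
    ((univ.filter (fun x : CX G n => ee r x.1 i = g)).card : ℝ) ≤ 4 * (4 * k * K) ^ (n + 1) := by
  have h1 := cf_cnt G r n i g (2 * (4 * k * K) ^ (n + 1)) (fun u v => walks_edge G r hkK hk hK n i u v)
    (univ.filter (fun x : CX G n => ee r x.1 i = g)) (fun x hx => (mem_filter.1 hx).2)
  have h2 : 2 * (2 * (4 * k * K) ^ (n + 1)) = 4 * (4 * k * K) ^ (n + 1) := by ring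
  rw [h2] at h1
  exact_mod_cast h1

open Classical in
/-- CF 4 -/
theorem ee_count_crude {V : Type} [Fintype V] (G : SimpleGraph V) (r : V → ℕ) {K : ℕ}
    (hK : ∀ v, (univ.filter (fun a => G.Adj v a)).card ≤ K) (n : ℕ) (i : Fin (2 * n + 4)) (g : V × V) :
    ((univ.filter (fun x : CX G n => ee r x.1 i = g)).card : ℝ) ≤ 2 * (K : ℝ) ^ (2 * n + 2) := by
  have h1 := cf_cnt G r n i g (K ^ (2 * n + 2)) (fun u v => walks_crude G hK n i u v)
    (univ.filter (fun x : CX G n => ee r x.1 i = g)) (fun x hx => (mem_filter.1 hx).2)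
  exact_mod_cast h1

end Pool.Agent.H95.AED
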