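import Pool.Agent.H95.AED.GC

/-!
# AED CM: combining small families

`small_and`: index type `ι₁ ⊕ ι₂`; `small_all`: index type `Σ n : Fin N, ι n` (choose the data); `small_mono`; and
`small_exists` from `gcrit_sharp`. Compare `AEC/Combine.lean`.
-/

set_option autoImplicit false

open Finset

namespace Pool.Agent.H95.AED

variable {H S : Type} {A : H → S → Prop} {L K : ℕ}

/-- CM 1 -/
theorem Small.mono {B B' : ℝ} {Φ Ψ : (H × S → Fin K) → Prop} (h : Small A L K B Φ) (hB : B ≤ B')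
    (hi : ∀ q, InjQ A q → Φ q → Ψ q) : Small A L K B' Ψ := by
  obtain ⟨ι, hι, P, h1, h2⟩ := h
  exact ⟨ι, hι, P, fun x => (h1 x).trans hB, fun q hq hp => hi q hq (h2 q hq hp)⟩

/-- CM 2 -/
theorem Small.and {B₁ B₂ : ℝ} {Φ Ψ : (H × S → Fin K) → Prop} (h₁ : Small A L K B₁ Φ)
    (h₂ : Small A L K B₂ Ψ) : Small A L K (B₁ + B₂) (fun q => Φ q ∧ Ψ q) := by
  classical
  obtain ⟨ι₁, hι₁, P₁, a1, a2⟩ := h₁
  obtain ⟨ι₂, hι₂, P₂, b1, b2⟩ := h₂
  refine ⟨ι₁ ⊕ ι₂, inferInstance, Sum.elim P₁ P₂, fun x => ?_, fun q hq hp => ?_⟩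
  · rw [sum_filter, Fintype.sum_sum_type, ← sum_filter, ← sum_filter]
    exact add_le_add (a1 x) (b1 x)
  · exact ⟨a2 q hq fun i => hp (Sum.inl i), b2 q hq fun i => hp (Sum.inr i)⟩

/-- CM 3 -/
theorem Small.all {N : ℕ} {B : ℕ → ℝ} {Φ : ℕ → (H × S → Fin K) → Prop}
    (h : ∀ n, n < N → Small A L K (B n) (Φ n)) :
    Small A L K (∑ n ∈ range N, B n) (fun q => ∀ n, n < N → Φ n q) := by
  classical
  have h' : ∀ n : Fin N, Small A L K (B n) (Φ n) := fun n => h n n.2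
  choose ι hι P hs hΦ using h'
  refine ⟨Σ n, ι n, inferInstance, fun y => P y.1 y.2, fun x => ?_, fun q hq hp n hn => ?_⟩
  · rw [sum_filter, Fintype.sum_sigma, ← Fin.sum_univ_eq_sum_range]
    refine sum_le_sum fun n _ => ?_
    rw [← sum_filter]
    exact hs n x
  · exact hΦ ⟨n, hn⟩ q hq fun i => hp ⟨⟨n, hn⟩, i⟩

open Classical in
/-- CM 4 -/
theorem Small.exists [Fintype H] [Fintype S] (hK : 0 < K) (hL : 1 ≤ L)
    (hdeg : ∀ h, (univ.filter (fun s => A h s)).card ≤ K) {Φ : (H × S → Fin K) → Prop}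
    (h : Small A L K (1 / (8 * (L : ℝ))) Φ) : ∃ q : H × S → Fin K, InjQ A q ∧ Φ q := by
  obtain ⟨ι, hι, P, h1, h2⟩ := h
  obtain ⟨q, hq, hav⟩ := gcrit_sharp A hK hL hdeg P h1
  exact ⟨q, hq, h2 q hq hav⟩

end Pool.Agent.H95.AED
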