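import Pool.Agent.H95.AED.PR
import Pool.Agent.H95.AED.CF
import Pool.Agent.H95.AEC.CycExt

/-!
# AED CY: bichromatic cycles give an occurrence

From `AEC.cyc_extract` with `c = ccol`, `bad = none`: an injective closed sequence `x` of length `2n+4` with colours `α ≠ none` at
even and `β` at odd indices. `ccol (x i) (x (i+1))` is `some (gx x i)` if `|tx x i| ≤ L` and `none` otherwise (`|tx x i| = L+1` by
TL 2): by definition of `ee`, `tx`, `gx`, `ccol`, `col` (and PR 1 if `¬ r (x i) ≤ r (x (i+1))`). If `β ≠ none`: FIN; if `β = none`: INF.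
`2n+4 ≤ card V` (injectivity) gives `n < card V`.
-/

set_option autoImplicit false

open Finset

namespace Pool.Agent.H95.AED

/-- CY 1 -/
theorem ccol_ee {V : Type} [Fintype V] (G : SimpleGraph V) (r : V → ℕ) (L : ℕ) {K : ℕ}
    (q : Drt V → Fin K) {n : ℕ} (x : Fin (2 * n + 4) → V) (i : Fin (2 * n + 4)) :
    ccol G r L q (x i) (x (i + 1)) =
      if (tx G r L q x i).length ≤ L then some (gx G r L q x i) else none := by
  unfold ccol gx tx ee
  by_cases h : r (x i) ≤ r (x (i + 1))
  · rw [if_pos h, if_pos h]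
    rfl
  · rw [if_neg h, if_neg h]
    rfl

/-- CY 2 -/
theorem cyc_occ {V : Type} [Fintype V] (G : SimpleGraph V) (r : V → ℕ) (L : ℕ) {K : ℕ}
    (q : Drt V → Fin K) (h : Loc G r L q) (u : V) (p : G.Walk u u) (hp : p.IsCycle)
    (h3 : (p.darts.map (fun d => ccol G r L q d.toProd.1 d.toProd.2)).toFinset.card < 3) :
    ∃ n, n < Fintype.card V ∧ ∃ x : CX G n,
      ((∀ i, (tx G r L q x.1 i).length ≤ L) ∧
        ∀ i : Fin (2 * n + 4), gx G r L q x.1 i = gx G r L q x.1 ⟨i.val % 2, by omega⟩) ∨
      ((∀ i : Fin (2 * n + 4), i.val % 2 = 0 → (tx G r L q x.1 i).length ≤ L ∧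
          gx G r L q x.1 i = gx G r L q x.1 0) ∧
        ∀ i : Fin (2 * n + 4), i.val % 2 = 1 → (tx G r L q x.1 i).length = L + 1) := by
  obtain ⟨n, x, α, β, hx, hadj, hαβ, hα, hc⟩ := Pool.Agent.H95.AEC.cyc_extract G (ccol G r L q)
    (fun u v _ => ccol_symm G r L q u v) (fun v u u' => ccol_proper G r L q h v u u') u p hp h3 none
  have hcol : ∀ i : Fin (2 * n + 4), (if (tx G r L q x i).length ≤ L then some (gx G r L q x i) else none) =
      if (i : ℕ) % 2 = 0 then α else β :=
    fun i => (ccol_ee G r L q x i).symm.trans (hc i)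
  have hn : n < Fintype.card V := by
    have := Fintype.card_le_of_injective x hx
    rw [Fintype.card_fin] at this
    omega
  have hev : ∀ i : Fin (2 * n + 4), (i : ℕ) % 2 = 0 → (tx G r L q x i).length ≤ L ∧
        some (gx G r L q x i) = α := by
    intro i hi
    have h1 := hcol i
    rw [if_pos hi] at h1
    by_cases h2 : (tx G r L q x i).length ≤ L
    · rw [if_pos h2] at h1
      exact ⟨h2, h1⟩
    · rw [if_neg h2] at h1
      exact absurd h1.symm hα
  refine ⟨n, hn, ⟨x, hx, hadj⟩, ?_⟩
  by_cases hβ : β = none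
  · right
    refine ⟨fun i hi => ⟨(hev i hi).1, ?_⟩, fun i hi => ?_⟩
    · exact Option.some.inj ((hev i hi).2.trans (hev 0 rfl).2.symm)
    · have h1 := hcol i
      rw [if_neg (by omega : ¬ (i : ℕ) % 2 = 0), hβ] at h1
      by_cases h2 : (tx G r L q x i).length ≤ L
      · rw [if_pos h2] at h1
        exact absurd h1 (Option.some_ne_none _)
      · have h4 : (tx G r L q x i).length ≤ L + 1 := Tq_len G r L q _ _
        exact le_antisymm h4 (not_le.1 h2)
  · left
    have hod : ∀ i : Fin (2 * n + 4), (i : ℕ) % 2 ≠ 0 → (tx G r L q x i).length ≤ L ∧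
          some (gx G r L q x i) = β := by
      intro i hi
      have h1 := hcol i
      rw [if_neg hi] at h1
      by_cases h2 : (tx G r L q x i).length ≤ L
      · rw [if_pos h2] at h1
        exact ⟨h2, h1⟩
      · rw [if_neg h2] at h1
        exact absurd h1.symm hβ
    refine ⟨fun i => ?_, fun i => ?_⟩
    · by_cases hi : (i : ℕ) % 2 = 0
      · exact (hev i hi).1
      · exact (hod i hi).1
    · by_cases hi : (i : ℕ) % 2 = 0
      · refine Option.some.inj ((hev i hi).2.trans (hev ⟨i.val % 2, by omega⟩ ?_).2.symm)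
        simp only
        omega
      · refine Option.some.inj ((hod i hi).2.trans (hod ⟨i.val % 2, by omega⟩ ?_).2.symm)
        simp only
        omega

end Pool.Agent.H95.AED
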