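import Pool.Agent.H95.AEC.LLL1

/-!
# MP_5cda12_co, DEEP CHAINS: definitions (proof text: table proofs, row 330)

`G` is a finite graph on `V`, `r : V → ℕ` a level function such that every vertex `v` has at most `k`
neighbours `u` with `r v ≤ r u`. A dart is a pair (hub, slot): `dd v a` (hub `v`, slot `a`, for adjacent
`v, a`) is the colour which `v` proposes for its neighbour `a`, `de u v` is the colour variable of the edge
`u v` (used if `r u = r v`). A colouring of the darts is `q : Drt V → Fin K`.
-/

set_option autoImplicit false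

open Finset

namespace Pool.Agent.H95.AED

/-! ### patterns over a relation between hubs and slots -/

/-- `q` is injective on the slots of every hub -/
def InjQ {H S : Type} (A : H → S → Prop) {K : ℕ} (q : H × S → Fin K) : Prop :=
  ∀ h s s', A h s → A h s' → q (h, s) = q (h, s') → s = s'

/-- An equality pattern: a set `D` of darts and a set `C` of equality constraints between them. Each
constraint `p` expresses the colour of the dart `p.1` through that of `p.2`; every dart is determined by
at most one constraint, and this is well-founded. -/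
structure Pat {H S : Type} (A : H → S → Prop) where
  D : Finset (H × S)
  C : Finset ((H × S) × (H × S))
  rk : H × S → ℕ
  ne : D.Nonempty
  adj : ∀ x ∈ D, A x.1 x.2
  mem₁ : ∀ p ∈ C, p.1 ∈ D
  mem₂ : ∀ p ∈ C, p.2 ∈ D
  inj : ∀ p ∈ C, ∀ p' ∈ C, p.1 = p'.1 → p = p'
  dec : ∀ p ∈ C, ∀ p' ∈ C, p.2 = p'.1 → rk p.2 < rk p.1

/-- factor for `m` darts -/
noncomputable def Th (L K m : ℕ) : ℝ := if 4 * L * m ≤ K then (1 + 1 / (L : ℝ)) ^ m else 6 ^ m

/-- weight of a pattern -/
noncomputable def Pat.wt {H S : Type} {A : H → S → Prop} (P : Pat A) (L K : ℕ) : ℝ :=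
  Th L K P.D.card / (K : ℝ) ^ P.C.card

open Classical in
/-- `Φ` is guaranteed by a family of patterns of total weight at most `B` at every dart -/
def Small {H S : Type} (A : H → S → Prop) (L K : ℕ) (B : ℝ) (Φ : (H × S → Fin K) → Prop) : Prop :=
  ∃ (ι : Type) (_ : Fintype ι) (P : ι → Pat A),
    (∀ x : H × S, ∑ i with x ∈ (P i).D, (P i).wt L K ≤ B) ∧
    ∀ q : H × S → Fin K, InjQ A q → (∀ i, ∃ p ∈ (P i).C, q p.1 ≠ q p.2) → Φ q

/-! ### darts of a graph -/

/-- hubs: vertices and edges -/
abbrev Hub (V : Type) := V ⊕ Sym2 V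

/-- darts -/
abbrev Drt (V : Type) := Hub V × Option V

/-- the slots of a hub -/
def Rel {V : Type} (G : SimpleGraph V) : Hub V → Option V → Prop
  | .inl v, some a => G.Adj v a
  | .inr _, none => True
  | _, _ => False

/-- the proposal of the hub `v` for `a` -/
def dd {V : Type} (v a : V) : Drt V := (Sum.inl v, some a)

/-- the variable of the edge `u v` -/
def de {V : Type} (u v : V) : Drt V := (Sum.inr s(u, v), none)

section Chains

variable {V : Type} (G : SimpleGraph V) (r : V → ℕ)

/-- `a` is a neighbour of `v` on the same or a higher level -/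
def Upe (v a : V) : Prop := G.Adj v a ∧ r v ≤ r a

/-- the dart of the oriented edge `(w, v)`, `r w ≤ r v` -/
def rootd (w v : V) : Drt V := if r w < r v then dd v w else de w v

/-- the colour dart of the oriented edge `(w, v)` with chain `T` -/
def gam (w v : V) : List V → Drt V
  | [] => rootd r w v
  | a :: _ => dd v a

/-- level `s` of the chain of the oriented edge `(w, v)` (last edge for larger `s`) -/
def lev {V : Type} : V → V → List V → ℕ → V × V
  | w, v, _, 0 => (w, v)
  | w, v, [], _ + 1 => (w, v)
  | _, v, a :: T, s + 1 => lev v a T s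

/-- chains of the graph: all edges but the last one go strictly up -/
def Chn : V → V → List V → Prop
  | w, v, [] => Upe G r w v
  | w, v, a :: T => G.Adj w v ∧ r w < r v ∧ Chn v a T

open Classical in
/-- darts of a chain -/
noncomputable def forD : V → V → List V → Finset (Drt V)
  | w, v, [] => {rootd r w v}
  | w, v, a :: T => insert (rootd r w v) (insert (dd v a) (forD v a T))

open Classical in
/-- constraints of a chain -/
noncomputable def forC : V → V → List V → Finset (Drt V × Drt V)
  | _, _, [] => ∅
  | w, v, a :: T => insert (rootd r w v, gam r v a T) (forC v a T)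

variable (L : ℕ) {K : ℕ} (q : Drt V → Fin K)

open Classical in
/-- the recursion with fuel -/
noncomputable def TT : ℕ → V → V → List V
  | 0, _, _ => []
  | n + 1, w, v =>
    if h : r w < r v ∧ ∃ a, Upe G r v a ∧ (TT n v a).length ≤ L ∧
        q (dd v w) = q (gam r v a (TT n v a)) then
      h.2.choose :: TT n v h.2.choose
    else []

/-- the chain of the oriented edge `(w, v)` -/
noncomputable def Tq [Fintype V] (w v : V) : List V := TT G r L q (univ.sup r + 1) w v

open Classical in
/-- the colour of the oriented edge `(w, v)`; `none` is the extra colour -/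
noncomputable def col [Fintype V] (w v : V) : Option (Fin K) :=
  if (Tq G r L q w v).length ≤ L then some (q (gam r w v (Tq G r L q w v))) else none

/-- the colour of the edge `u v` -/
noncomputable def ccol [Fintype V] (u v : V) : Option (Fin K) :=
  if r u ≤ r v then col G r L q u v else col G r L q v u

end Chains

/-- the standing hypotheses -/
structure Hyp {V : Type} [Fintype V] (G : SimpleGraph V) (r : V → ℕ) (k K L : ℕ) : Prop where
  up : ∀ v, Nat.card {a // Upe G r v a} ≤ k
  deg : ∀ v, Nat.card {a // G.Adj v a} ≤ K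
  one : 1 ≤ k
  oneL : 1 ≤ L
  big : 10 ^ 20 * (k + L) * L ^ 2 ≤ K

/-! ### configurations -/

/-- A configuration: `m` oriented base edges `e i x` depending on `x : X`, sets `lam i` of admissible lengths of
their chains, and the equalities `colour (e i x) = colour (e (rho i) x)` for `i ∈ ext`. `cov i = false` means that
`e i x` never lies at a level `≥ 1` of the chain of another base edge. -/
structure Cfg {V : Type} (G : SimpleGraph V) (r : V → ℕ) (L : ℕ) where
  X : Type
  fin : Fintype X
  m : ℕ
  e : Fin m → X → V × V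
  lam : Fin m → Finset ℕ
  cov : Fin m → Bool
  ext : Finset (Fin m)
  rho : Fin m → Fin m
  hm : 0 < m
  hup : ∀ i x, Upe G r (e i x).1 (e i x).2
  hdist : ∀ i j x, i ≠ j → s((e i x).1, (e i x).2) ≠ s((e j x).1, (e j x).2)
  hrho : ∀ i ∈ ext, rho i ∉ ext
  hlam : ∀ i, ∀ l ∈ lam i, l ≤ L + 1

section Cfg

variable {V : Type} {G : SimpleGraph V} {r : V → ℕ} {L : ℕ} (c : Cfg G r L)

/-- the configuration occurs at `x` -/
def Cfg.Occ [Fintype V] {K : ℕ} (q : Drt V → Fin K) (x : c.X) : Prop :=
  (∀ i, (Tq G r L q (c.e i x).1 (c.e i x).2).length ∈ c.lam i) ∧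
  ∀ i ∈ c.ext, q (gam r (c.e i x).1 (c.e i x).2 (Tq G r L q (c.e i x).1 (c.e i x).2)) =
    q (gam r (c.e (c.rho i) x).1 (c.e (c.rho i) x).2
      (Tq G r L q (c.e (c.rho i) x).1 (c.e (c.rho i) x).2))

/-- `t` is the family of chains of the base edges for some `q` for which the configuration occurs at `x` -/
def Cfg.Valid [Fintype V] (K : ℕ) (x : c.X) (t : Fin c.m → List V) : Prop :=
  ∃ q : Drt V → Fin K, InjQ (Rel G) q ∧ (∀ i, t i = Tq G r L q (c.e i x).1 (c.e i x).2) ∧ c.Occ q x

/-- the base edge `i` is not at a level `≥ 1` of another chain -/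
def Cfg.Bot (x : c.X) (t : Fin c.m → List V) (i : Fin c.m) : Prop :=
  ∀ j, ∀ s, 1 ≤ s → s ≤ (t j).length → lev (c.e j x).1 (c.e j x).2 (t j) s ≠ c.e i x

/-- `cov` is correct -/
def Cfg.HCov [Fintype V] (K : ℕ) : Prop :=
  ∀ x t, c.Valid K x t → ∀ i, c.cov i = false → c.Bot x t i

open Classical in
/-- the darts of the pattern -/
noncomputable def Cfg.pD (x : c.X) (t : Fin c.m → List V) : Finset (Drt V) :=
  univ.biUnion (fun i => forD r (c.e i x).1 (c.e i x).2 (t i))

open Classical in
/-- the constraints of the pattern -/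
noncomputable def Cfg.pC (x : c.X) (t : Fin c.m → List V) : Finset (Drt V × Drt V) :=
  univ.biUnion (fun i => forC r (c.e i x).1 (c.e i x).2 (t i)) ∪
    c.ext.image (fun i => (gam r (c.e i x).1 (c.e i x).2 (t i),
      gam r (c.e (c.rho i) x).1 (c.e (c.rho i) x).2 (t (c.rho i))))

open Classical in
/-- code of a valid family of chains: only the bottom ones are kept -/
noncomputable def Cfg.code (x : c.X) (t : Fin c.m → List V) (i : Fin c.m) : Option (List V) :=
  if c.Bot x t i then some (t i) else none

end Cfg

/-! ### counting -/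

section Counting

variable {V : Type} [Fintype V] (G : SimpleGraph V) (r : V → ℕ)

open Classical in
/-- the oriented edges which may bring the dart `d` into a pattern -/
noncomputable def cand (d : Drt V) : Finset (V × V) :=
  univ.filter (fun p => rootd r p.1 p.2 = d ∨ dd p.1 p.2 = d)

open Classical in
/-- upward lists of length `l` starting above `v` -/
noncomputable def upl : V → ℕ → Finset (List V)
  | _, 0 => {[]}
  | v, l + 1 => (univ.filter (fun a => Upe G r v a)).biUnion (fun a => (upl a l).image (List.cons a))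

open Classical in
/-- pairs (oriented edge, chain of length `l`) with `g` at level `s` -/
noncomputable def rol (g : V × V) : ℕ → ℕ → Finset ((V × V) × List V)
  | 0, l => (upl G r g.2 l).image (fun t => (g, t))
  | _ + 1, 0 => ∅
  | s + 1, l + 1 => (rol g s l).biUnion (fun y =>
      (univ.filter (fun w => G.Adj w y.1.1 ∧ r w < r y.1.1)).image (fun w => ((w, y.1.1), y.1.2 :: y.2)))

/-- weight of a code -/
noncomputable def fw (θ : ℝ) (K : ℕ) : Option (List V) → ℝ
  | none => 1
  | some t => θ ^ (1 + 2 * t.length) / (K : ℝ) ^ t.length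

/-- bound for the sum of the weights of the chains above a fixed edge -/
noncomputable def SA (θ R : ℝ) (cv : Bool) (lam : Finset ℕ) : ℝ :=
  (if cv = true then 1 else 0) + ∑ l ∈ lam, θ ^ (1 + 2 * l) / R ^ l

/-- bound for the sum of the weights of the chains with a fixed edge at level `s` -/
noncomputable def SB (θ R : ℝ) (lam : Finset ℕ) (s : ℕ) : ℝ :=
  ∑ l ∈ lam.filter (fun l => s ≤ l), θ ^ (1 + 2 * l) / R ^ (l - s)

end Counting

/-- the bound of the family theorem -/
noncomputable def Cfg.BB {V : Type} {G : SimpleGraph V} {r : V → ℕ} {L : ℕ} (c : Cfg G r L) (k K : ℕ)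
    (θ : ℝ) (M : Fin c.m → ℝ) : ℝ :=
  2 * (∑ i, M i * (∑ s ∈ range (L + 2), SB θ ((K : ℝ) / k) (c.lam i) s) *
    ∏ j ∈ univ.erase i, SA θ ((K : ℝ) / k) (c.cov j) (c.lam j)) / (K : ℝ) ^ c.ext.card

end Pool.Agent.H95.AED
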