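import Pool.Agent.H95.AED.KY

/-!
# AED PC: the number of constraints

`x`, `t` valid. The first part `⋃ i, forC (e i) (t i)` of `pC` is the image of the set of pairs `(i, s)`, `Bot i`,
`s < |t i|` under `(i, s) ↦ (rootd (lev_i s), gam (lev_i (s+1)) ((t i).drop (s+1)))` (LV 9 and BT 1: for an arbitrary `j`,
`s < |t j|` choose `i`, `s'` with `Bot i`, `lev_i s' = lev_j s`, `(t i).drop s' = (t j).drop s`; then `s' < |t i|` and
`lev_i (s'+1) = lev_j (s+1)` by LV 4, LV 5, drops equal). The map is injective: the first components are rising edges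
(LV 6), so KY 1 and BT 2. So this part has `∑_{Bot i} |t i|` elements. The second part has `|ext|` elements by KY 3
(first components), and it is disjoint from the first part by KY 2 with `s' = 0` (`lev_i 0 = e i x`).
-/

set_option autoImplicit false

open Finset

namespace Pool.Agent.H95.AED

variable {V : Type} [Fintype V] {G : SimpleGraph V} {r : V → ℕ} {L : ℕ} (c : Cfg G r L) {K : ℕ}

/-- the next constraint only depends on the edge and the rest of the list -/
private theorem pc_next {w v w' v' : V} {T T' : List V} {s s' : ℕ} (hs : s < T.length)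
    (hs' : s' < T'.length) (h1 : lev w v T s = lev w' v' T' s') (h2 : T.drop s = T'.drop s') :
    lev w v T (s + 1) = lev w' v' T' (s' + 1) ∧ T.drop (s + 1) = T'.drop (s' + 1) := by
  constructor
  · rw [lev_add w v T s 1 (by omega), lev_add w' v' T' s' 1 (by omega), h1, h2]
  · have h3 := congrArg (List.drop 1) h2
    rw [List.drop_drop, List.drop_drop] at h3
    exact h3

open Classical in
/-- PC -/
theorem pC_card {x : c.X} {t : Fin c.m → List V} (hv : c.Valid K x t) :
    (c.pC x t).card = ∑ i ∈ univ.filter (fun i => c.Bot x t i), (t i).length + c.ext.card := by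
  have hchn : ∀ i, Chn G r (c.e i x).1 (c.e i x).2 (t i) := by
    obtain ⟨q, hq, ht, hocc⟩ := hv
    intro i
    rw [ht i]
    exact Tq_chn G r L q (c.hup i x)
  obtain ⟨Φ, hΦ⟩ : ∃ Φ : (Σ _ : Fin c.m, ℕ) → Drt V × Drt V, Φ = fun y =>
      (rootd r (lev (c.e y.1 x).1 (c.e y.1 x).2 (t y.1) y.2).1
        (lev (c.e y.1 x).1 (c.e y.1 x).2 (t y.1) y.2).2,
       gam r (lev (c.e y.1 x).1 (c.e y.1 x).2 (t y.1) (y.2 + 1)).1
        (lev (c.e y.1 x).1 (c.e y.1 x).2 (t y.1) (y.2 + 1)).2 ((t y.1).drop (y.2 + 1))) := ⟨_, rfl⟩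
  obtain ⟨S, hS⟩ : ∃ S : Finset (Σ _ : Fin c.m, ℕ), S = (univ.filter (fun i => c.Bot x t i)).sigma
      (fun i => range (t i).length) := ⟨_, rfl⟩
  have h1 : univ.biUnion (fun i => forC r (c.e i x).1 (c.e i x).2 (t i)) = S.image Φ := by
    ext p
    rw [Finset.mem_biUnion, Finset.mem_image]
    constructor
    · rintro ⟨j, -, hj⟩
      obtain ⟨s, hs, hp⟩ := (mem_forC r _ _ _ _).1 hj
      obtain ⟨i, hi, s', hs', h2, h3⟩ := bot_cover c hv j s hs.le
      have h4 : s' < (t i).length := by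
        have h5 := congrArg List.length h3
        rw [List.length_drop, List.length_drop] at h5
        omega
      obtain ⟨h5, h6⟩ := pc_next h4 hs h2 h3
      refine ⟨⟨i, s'⟩, ?_, ?_⟩
      · rw [hS]
        exact Finset.mem_sigma.2 ⟨mem_filter.2 ⟨mem_univ _, hi⟩, Finset.mem_range.2 h4⟩
      · rw [hΦ, hp]
        simp only
        rw [h2, h5, h6]
    · rintro ⟨⟨i, s⟩, hy, hp⟩
      rw [hS] at hy
      obtain ⟨-, h3⟩ := Finset.mem_sigma.1 hy
      refine ⟨i, mem_univ _, (mem_forC r _ _ _ _).2 ⟨s, Finset.mem_range.1 h3, ?_⟩⟩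
      rw [← hp, hΦ]
  have hinj : Set.InjOn Φ (S : Set (Σ _ : Fin c.m, ℕ)) := by
    rintro ⟨i, s⟩ hy ⟨j, s'⟩ hy' h
    rw [hS] at hy hy'
    obtain ⟨h2, h3⟩ := Finset.mem_sigma.1 (Finset.mem_coe.1 hy)
    obtain ⟨h2', h3'⟩ := Finset.mem_sigma.1 (Finset.mem_coe.1 hy')
    have hs := Finset.mem_range.1 h3
    have hs' := Finset.mem_range.1 h3'
    simp only at hs hs'
    rw [hΦ] at h
    have h4 := (Prod.mk.inj h).1
    simp only at h4
    obtain ⟨h5, h6⟩ := rootd_inj ((chn_lev G r (hchn i) s hs.le).2.1 hs)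
      ((chn_lev G r (hchn j) s' hs'.le).2.1 hs') h4
    obtain ⟨h7, h8⟩ := bot_inj c hv (mem_filter.1 h2).2 (mem_filter.1 h2').2 hs.le hs'.le
      (Prod.ext h5 h6)
    subst h7
    subst h8
    rfl
  have hdisj : Disjoint (S.image Φ) (c.ext.image (fun i => (gam r (c.e i x).1 (c.e i x).2 (t i),
      gam r (c.e (c.rho i) x).1 (c.e (c.rho i) x).2 (t (c.rho i))))) := by
    rw [Finset.disjoint_left]
    intro p hp hp'
    obtain ⟨⟨j, s⟩, hy, rfl⟩ := Finset.mem_image.1 hp
    obtain ⟨i, hi, h2⟩ := Finset.mem_image.1 hp'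
    rw [hS] at hy
    have hs := Finset.mem_range.1 (Finset.mem_sigma.1 hy).2
    simp only at hs
    rw [hΦ] at h2
    have h3 := (Prod.mk.inj h2).1
    simp only at h3
    have h4 := gam_ne_key c hv (i := i) (s' := 0) hs (Nat.zero_le _)
    rw [lev_zero, List.drop_zero] at h4
    exact h4 h3
  unfold Cfg.pC
  rw [h1, Finset.card_union_of_disjoint hdisj, Finset.card_image_of_injOn hinj,
    Finset.card_image_of_injOn (fun i _ j _ h => gam_inj c hv (Prod.mk.inj h).1), hS,
    Finset.card_sigma]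
  simp only [Finset.card_range]

end Pool.Agent.H95.AED
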