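import Pool.Agent.H95.AED.BT

/-!
# AED PD: the darts of the pattern

`x`, `t` valid. By LV 8 and BT 1 (`lev_j s = lev_i s'` with `Bot i`; if `s ≥ 1` and `s' = 0` then `lev_j s = e i x` contradicts
`Bot i`, so `s' ≥ 1`) `pD = ⋃_{Bot i} forD (e i) (t i)`; with LV 10 this gives PD 1. PD 2: LV 8, BT 1 and the definition of
`cand`. PD 3: `cand d` has at most two elements: cases of `d`: `dd v a` is only `rootd a v` (then `r a < r v`) or `dd v a`;
`(inr e, _)` is only `de u v = de v u` for `e = s(u, v)`; other `d` give the empty set.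
-/

set_option autoImplicit false

open Finset

namespace Pool.Agent.H95.AED

variable {V : Type} [Fintype V] {G : SimpleGraph V} {r : V → ℕ} {L : ℕ} (c : Cfg G r L) {K : ℕ}

open Classical in
private theorem pd_sub {x : c.X} {t : Fin c.m → List V} (hv : c.Valid K x t) {d : Drt V}
    (hd : d ∈ c.pD x t) : ∃ i, c.Bot x t i ∧ ∃ s, s ≤ (t i).length ∧
      (d = rootd r (lev (c.e i x).1 (c.e i x).2 (t i) s).1
        (lev (c.e i x).1 (c.e i x).2 (t i) s).2 ∨
      (1 ≤ s ∧ d = dd (lev (c.e i x).1 (c.e i x).2 (t i) s).1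
        (lev (c.e i x).1 (c.e i x).2 (t i) s).2)) := by
  unfold Cfg.pD at hd
  obtain ⟨j, -, hj⟩ := Finset.mem_biUnion.1 hd
  obtain ⟨s, hs, h1⟩ := (mem_forD r _ _ _ _).1 hj
  obtain ⟨i, hi, s', hs', h2, h3⟩ := bot_cover c hv j s hs
  refine ⟨i, hi, s', hs', ?_⟩
  rw [h2]
  rcases h1 with h1 | ⟨h4, h1⟩
  · exact Or.inl h1
  · refine Or.inr ⟨?_, h1⟩
    rcases Nat.eq_zero_or_pos s' with h5 | h5
    · rw [h5, lev_zero] at h2
      exact absurd h2.symm (hi j s h4 hs)
    · exact h5

open Classical in
/-- PD 1 -/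
theorem pD_card {x : c.X} {t : Fin c.m → List V} (hv : c.Valid K x t) :
    (c.pD x t).card ≤ ∑ i ∈ univ.filter (fun i => c.Bot x t i), (1 + 2 * (t i).length) := by
  have h1 : c.pD x t ⊆ (univ.filter (fun i => c.Bot x t i)).biUnion
      (fun i => forD r (c.e i x).1 (c.e i x).2 (t i)) := by
    intro d hd
    obtain ⟨i, hi, s, hs, h2⟩ := pd_sub c hv hd
    exact Finset.mem_biUnion.2 ⟨i, mem_filter.2 ⟨mem_univ _, hi⟩, (mem_forD r _ _ _ _).2 ⟨s, hs, h2⟩⟩
  refine (Finset.card_le_card h1).trans (Finset.card_biUnion_le.trans ?_)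
  refine Finset.sum_le_sum fun i _ => (forD_card r _ _ _).trans ?_
  omega

open Classical in
/-- PD 2 -/
theorem pD_cand {x : c.X} {t : Fin c.m → List V} (hv : c.Valid K x t) {d : Drt V}
    (hd : d ∈ c.pD x t) : ∃ i, c.Bot x t i ∧ ∃ s, s ≤ (t i).length ∧
      lev (c.e i x).1 (c.e i x).2 (t i) s ∈ cand r d := by
  obtain ⟨i, hi, s, hs, h2⟩ := pd_sub c hv hd
  refine ⟨i, hi, s, hs, ?_⟩
  unfold cand
  refine mem_filter.2 ⟨mem_univ _, ?_⟩
  rcases h2 with h2 | ⟨_, h2⟩
  · exact Or.inl h2.symm
  · exact Or.inr h2.symm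

open Classical in
/-- PD 3 -/
theorem cand_card (d : Drt V) : (cand r d).card ≤ 2 := by
  obtain ⟨h, o⟩ := d
  have hrt : ∀ p : V × V, rootd r p.1 p.2 = (Sum.inl p.2, some p.1) ∨
      rootd r p.1 p.2 = (Sum.inr s(p.1, p.2), none) := by
    intro p
    unfold rootd
    split_ifs
    · exact Or.inl rfl
    · exact Or.inr rfl
  rcases h with v | e
  · rcases o with _ | a
    · have h1 : cand r ((Sum.inl v, none) : Drt V) ⊆ ∅ := by
        intro p hp
        exfalso
        rcases (mem_filter.1 hp).2 with h2 | h2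
        · rcases hrt p with h3 | h3
          · rw [h3] at h2
            exact absurd (Prod.mk.inj h2).2 (Option.some_ne_none _)
          · rw [h3] at h2
            exact absurd (Prod.mk.inj h2).1 (by simp)
        · exact absurd (Prod.mk.inj h2).2 (Option.some_ne_none _)
      exact (Finset.card_le_card h1).trans (by simp)
    · have h1 : cand r ((Sum.inl v, some a) : Drt V) ⊆ {(a, v), (v, a)} := by
        intro p hp
        rw [Finset.mem_insert, Finset.mem_singleton]
        rcases (mem_filter.1 hp).2 with h2 | h2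
        · rcases hrt p with h3 | h3
          · rw [h3] at h2
            left
            exact Prod.ext (Option.some.inj (Prod.mk.inj h2).2) (Sum.inl.inj (Prod.mk.inj h2).1)
          · rw [h3] at h2
            exact absurd (Prod.mk.inj h2).1 (by simp)
        · right
          exact Prod.ext (Sum.inl.inj (Prod.mk.inj h2).1) (Option.some.inj (Prod.mk.inj h2).2)
      exact (Finset.card_le_card h1).trans Finset.card_le_two
  · induction e using Sym2.ind with
    | _ a b =>
      have h1 : cand r ((Sum.inr s(a, b), o) : Drt V) ⊆ {(a, b), (b, a)} := by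
        intro p hp
        rw [Finset.mem_insert, Finset.mem_singleton]
        rcases (mem_filter.1 hp).2 with h2 | h2
        · rcases hrt p with h3 | h3
          · rw [h3] at h2
            exact absurd (Prod.mk.inj h2).1 (by simp)
          · rw [h3] at h2
            have h4 := Sum.inr.inj (Prod.mk.inj h2).1
            rcases Sym2.eq_iff.1 h4 with ⟨h5, h6⟩ | ⟨h5, h6⟩
            · exact Or.inl (Prod.ext h5 h6)
            · exact Or.inr (Prod.ext h5 h6)
        · exact absurd (Prod.mk.inj h2).1 (by simp)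
      exact (Finset.card_le_card h1).trans Finset.card_le_two

end Pool.Agent.H95.AED
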