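import Pool.Agent.H95.AED.KY

/-!
# AED PP: the pattern

`x`, `t` valid, `t i = Tq (e i x)` for some `q`. Fields of `Pat`: `D = pD`, `C = pC`;
`rk d = 2` if `d = rootd (lev_j s)` for some `j`, `s < |t j|`; else `1` if `d = gam (e i) (t i)` for some `i ∈ ext`; else `0`
(classical `if`). `ne`: `rootd (e 0) ∈ pD`, `hm`. `adj`: LV 8, LV 6 (`Rel G` of `dd v a` is `G.Adj v a`, of `de` is `True`).
`mem₁`, `mem₂`: LV 8, LV 9, LV 11 (`gam (lev (s+1)) (drop (s+1))` is `dd (lev (s+2))` or `rootd (lev (s+1))`; also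
`gam (e i) (t i)` with `s = 0`). `inj`: the first components of the chain constraints are `rootd` of rising edges, equal ones
come from the same oriented edge (KY 1), for which both the list (`Tq`, TL 5) and so the next edge and the constraint are
determined (LV 4, LV 5); the `ext` constraints by KY 3; mixed by KY 2. `dec`: `p.2` is always of the form
`gam (lev_i s') ((t i).drop s')`, so by KY 2 it is not a chain key, `rk p.2 ≤ 1`, and `p'.1 = p.2` means
`p'.1 = gam (e i) (t i)`, `i ∈ ext`; if `p.1` is a chain key then `rk p.1 = 2`; if `p.1 = gam (e j)`, `j ∈ ext`, then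
`p.2 = gam (e (rho j)) = gam (e i)` gives `rho j = i ∈ ext` (KY 3), contradiction to `hrho`.

PP 2: TL 6 for the chain constraints and the second part of `Occ`.
PP 3: if `Bot x t i` then `code x t i = some (t i) = code x t' i`, so `t' i = t i`. Otherwise BT 1 with `s = 0` gives a bottom
`i'` and `s'` with `lev_{i'} s' = e i x`, `t i = (t i').drop s'`; `t' i' = t i'` by the first case, and TL 5 for the colouring
`q'` of `t'` gives `t' i = Tq' (e i x) = Tq' (lev_{i'} s') = (t' i').drop s' = t i`.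
-/

set_option autoImplicit false

open Finset

namespace Pool.Agent.H95.AED

variable {V : Type} [Fintype V] {G : SimpleGraph V} {r : V → ℕ} {L : ℕ} (c : Cfg G r L) {K : ℕ}

/-- members of `pC` -/
private theorem pp_cases {x : c.X} {t : Fin c.m → List V} {p : Drt V × Drt V}
    (hp : p ∈ c.pC x t) :
    (∃ j s, s < (t j).length ∧ p = (rootd r (lev (c.e j x).1 (c.e j x).2 (t j) s).1
        (lev (c.e j x).1 (c.e j x).2 (t j) s).2,
      gam r (lev (c.e j x).1 (c.e j x).2 (t j) (s + 1)).1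
        (lev (c.e j x).1 (c.e j x).2 (t j) (s + 1)).2 ((t j).drop (s + 1)))) ∨
    ∃ i ∈ c.ext, p = (gam r (c.e i x).1 (c.e i x).2 (t i),
      gam r (c.e (c.rho i) x).1 (c.e (c.rho i) x).2 (t (c.rho i))) := by
  classical
  unfold Cfg.pC at hp
  rcases Finset.mem_union.1 hp with h | h
  · left
    obtain ⟨j, -, hj⟩ := Finset.mem_biUnion.1 h
    obtain ⟨s, hs, h1⟩ := (mem_forC r _ _ _ _).1 hj
    exact ⟨j, s, hs, h1⟩
  · right
    obtain ⟨i, hi, h1⟩ := Finset.mem_image.1 h
    exact ⟨i, hi, h1.symm⟩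

private theorem pp_mem {x : c.X} {t : Fin c.m → List V} {d : Drt V} :
    d ∈ c.pD x t ↔ ∃ i, d ∈ forD r (c.e i x).1 (c.e i x).2 (t i) := by
  classical
  unfold Cfg.pD
  rw [Finset.mem_biUnion]
  constructor
  · rintro ⟨i, -, h⟩
    exact ⟨i, h⟩
  · rintro ⟨i, h⟩
    exact ⟨i, mem_univ _, h⟩

private theorem pp_gam {x : c.X} {t : Fin c.m → List V} (i : Fin c.m) (s : ℕ)
    (hs : s ≤ (t i).length) :
    gam r (lev (c.e i x).1 (c.e i x).2 (t i) s).1 (lev (c.e i x).1 (c.e i x).2 (t i) s).2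
      ((t i).drop s) ∈ c.pD x t := by
  rw [gam_lev r _ _ _ s hs, pp_mem]
  refine ⟨i, ?_⟩
  split_ifs with h
  · exact (mem_forD r _ _ _ _).2 ⟨s + 1, h, Or.inr ⟨by omega, rfl⟩⟩
  · exact (mem_forD r _ _ _ _).2 ⟨s, hs, Or.inl rfl⟩

private theorem pp_gam0 {x : c.X} {t : Fin c.m → List V} (i : Fin c.m) :
    gam r (c.e i x).1 (c.e i x).2 (t i) ∈ c.pD x t := by
  have h := pp_gam c (x := x) (t := t) i 0 (Nat.zero_le _)
  rw [lev_zero, List.drop_zero] at h
  exact h

private theorem pp_key0 {x : c.X} {t : Fin c.m → List V} (hv : c.Valid K x t) {i j : Fin c.m}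
    {s : ℕ} (hs : s < (t j).length) :
    gam r (c.e i x).1 (c.e i x).2 (t i) ≠
    rootd r (lev (c.e j x).1 (c.e j x).2 (t j) s).1 (lev (c.e j x).1 (c.e j x).2 (t j) s).2 := by
  have h4 := gam_ne_key c hv (i := i) (s' := 0) hs (Nat.zero_le _)
  rw [lev_zero, List.drop_zero] at h4
  exact h4

/-- PP 1 -/
theorem exists_pat {x : c.X} {t : Fin c.m → List V} (hv : c.Valid K x t) :
    ∃ P : Pat (Rel G), P.D = c.pD x t ∧ P.C = c.pC x t := by
  classical
  have hchn : ∀ i, Chn G r (c.e i x).1 (c.e i x).2 (t i) := by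
    obtain ⟨q, hq, ht, hocc⟩ := hv
    intro i
    rw [ht i]
    exact Tq_chn G r L q (c.hup i x)
  have hlev : ∀ i s, s ≤ (t i).length → ∀ j s', s' ≤ (t j).length →
      lev (c.e i x).1 (c.e i x).2 (t i) s = lev (c.e j x).1 (c.e j x).2 (t j) s' →
      (t i).drop s = (t j).drop s' := by
    obtain ⟨q, hq, ht, hocc⟩ := hv
    intro i s hs j s' hs' h
    have h5 := Tq_lev G r L q (c.e i x).1 (c.e i x).2 s (by rw [← ht i]; exact hs)
    have h6 := Tq_lev G r L q (c.e j x).1 (c.e j x).2 s' (by rw [← ht j]; exact hs')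
    rw [← ht i] at h5
    rw [← ht j] at h6
    rw [← h5, ← h6, h]
  let Key : Drt V → Prop := fun d => ∃ j s, s < (t j).length ∧
    d = rootd r (lev (c.e j x).1 (c.e j x).2 (t j) s).1 (lev (c.e j x).1 (c.e j x).2 (t j) s).2
  let Ext : Drt V → Prop := fun d => ∃ i ∈ c.ext, d = gam r (c.e i x).1 (c.e i x).2 (t i)
  let rk : Drt V → ℕ := fun d => if Key d then 2 else if Ext d then 1 else 0
  have hsnd : ∀ p ∈ c.pC x t, ¬ Key p.2 := by
    intro p hp
    rcases pp_cases c hp with ⟨j, s, hs, rfl⟩ | ⟨i, hi, rfl⟩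
    · rintro ⟨j', s', hs', h⟩
      exact gam_ne_key c hv hs' (by omega : s + 1 ≤ (t j).length) h
    · rintro ⟨j', s', hs', h⟩
      exact pp_key0 c hv hs' h
  refine ⟨{
    D := c.pD x t
    C := c.pC x t
    rk := rk
    ne := ⟨_, pp_gam0 c ⟨0, c.hm⟩⟩
    adj := ?_
    mem₁ := ?_
    mem₂ := ?_
    inj := ?_
    dec := ?_ }, rfl, rfl⟩
  · intro d hd
    obtain ⟨i, hi⟩ := (pp_mem c).1 hd
    obtain ⟨s, hs, h1⟩ := (mem_forD r _ _ _ _).1 hi
    have h2 := (chn_lev G r (hchn i) s hs).1.1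
    rcases h1 with rfl | ⟨-, rfl⟩
    · unfold rootd
      split_ifs
      · exact h2.symm
      · exact trivial
    · exact h2
  · intro p hp
    rcases pp_cases c hp with ⟨j, s, hs, rfl⟩ | ⟨i, hi, rfl⟩
    · exact (pp_mem c).2 ⟨j, (mem_forD r _ _ _ _).2 ⟨s, hs.le, Or.inl rfl⟩⟩
    · exact pp_gam0 c i
  · intro p hp
    rcases pp_cases c hp with ⟨j, s, hs, rfl⟩ | ⟨i, hi, rfl⟩
    · exact pp_gam c j (s + 1) hs
    · exact pp_gam0 c (c.rho i)
  · intro p hp p' hp' h
    rcases pp_cases c hp with ⟨j, s, hs, rfl⟩ | ⟨i, hi, rfl⟩ <;>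
      rcases pp_cases c hp' with ⟨j', s', hs', rfl⟩ | ⟨i', hi', rfl⟩
    · simp only at h
      obtain ⟨h5, h6⟩ := rootd_inj ((chn_lev G r (hchn j) s hs.le).2.1 hs)
        ((chn_lev G r (hchn j') s' hs'.le).2.1 hs') h
      have h7 := Prod.ext h5 h6
      have h8 := hlev j s hs.le j' s' hs'.le h7
      have h9 : lev (c.e j x).1 (c.e j x).2 (t j) (s + 1) =
          lev (c.e j' x).1 (c.e j' x).2 (t j') (s' + 1) := by
        rw [lev_add _ _ _ s 1 (by omega), lev_add _ _ _ s' 1 (by omega), h7, h8]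
      have h10 : (t j).drop (s + 1) = (t j').drop (s' + 1) := by
        have h3 := congrArg (List.drop 1) h8
        rw [List.drop_drop, List.drop_drop] at h3
        exact h3
      rw [h7, h9, h10]
    · exact absurd h.symm (pp_key0 c hv hs)
    · exact absurd h (pp_key0 c hv hs')
    · have h1 := gam_inj c hv h
      subst h1
      rfl
  · intro p hp p' hp' h
    have h1 := hsnd p hp
    rcases pp_cases c hp' with ⟨j', s', hs', rfl⟩ | ⟨i', hi', rfl⟩
    · exact absurd ⟨j', s', hs', h⟩ h1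
    · have h2 : Ext p.2 := ⟨i', hi', h⟩
      have h3 : rk p.2 = 1 := by
        show (if Key p.2 then 2 else if Ext p.2 then 1 else 0) = 1
        rw [if_neg h1, if_pos h2]
      rw [h3]
      rcases pp_cases c hp with ⟨j, s, hs, hpe⟩ | ⟨i, hi, hpe⟩
      · have h4 : Key p.1 := ⟨j, s, hs, by rw [hpe]⟩
        show 1 < (if Key p.1 then 2 else if Ext p.1 then 1 else 0)
        rw [if_pos h4]
        exact one_lt_two
      · exfalso
        rw [hpe] at h
        have h4 := gam_inj c hv h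
        exact c.hrho i hi (by rw [h4]; exact hi')

/-- PP 2: if the configuration occurs then all constraints hold -/
theorem pC_holds {q : Drt V → Fin K} {x : c.X} (ho : c.Occ q x) (p : Drt V × Drt V)
    (hp : p ∈ c.pC x (fun i => Tq G r L q (c.e i x).1 (c.e i x).2)) : q p.1 = q p.2 := by
  classical
  unfold Cfg.pC at hp
  rcases Finset.mem_union.1 hp with h | h
  · obtain ⟨j, -, hj⟩ := Finset.mem_biUnion.1 h
    exact Tq_con G r L q _ _ p hj
  · obtain ⟨i, hi, rfl⟩ := Finset.mem_image.1 h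
    exact ho.2 i hi

/-- PP 3: the code determines the chains -/
theorem code_inj {x : c.X} {t t' : Fin c.m → List V} (hv : c.Valid K x t) (hv' : c.Valid K x t')
    (h : c.code x t = c.code x t') : t = t' := by
  classical
  have key : ∀ i, c.Bot x t i → t' i = t i := by
    intro i hi
    have h1 := congrFun h i
    unfold Cfg.code at h1
    rw [if_pos hi] at h1
    by_cases h2 : c.Bot x t' i
    · rw [if_pos h2] at h1
      exact (Option.some.inj h1).symm
    · rw [if_neg h2] at h1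
      exact absurd h1 (Option.some_ne_none _)
  funext i
  obtain ⟨i', hi', s', hs', h1, h2⟩ := bot_cover c hv i 0 (Nat.zero_le _)
  rw [lev_zero] at h1
  rw [List.drop_zero] at h2
  have h3 := key i' hi'
  obtain ⟨q', hq', ht', hocc'⟩ := hv'
  have h4 := Tq_lev G r L q' (c.e i' x).1 (c.e i' x).2 s' (by rw [← ht' i', h3]; exact hs')
  rw [← ht' i', h3, h1, h2] at h4
  rw [ht' i]
  exact h4.symm

end Pool.Agent.H95.AED
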