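import Pool.Agent.H95.AED.S3
import Pool.Agent.H95.AED.PC
import Pool.Agent.H95.AED.PD
import Pool.Agent.H95.AED.PP

/-!
# AED FA: the family theorem

Index type `ι = {y : Σ x : c.X, (Fin c.m → List V) // c.Valid K y.1 y.2}`; it is finite: it is the range of
`(x, q) ↦ (x, fun i => Tq q (e i x))` restricted to good pairs (`Finite.of_surjective` or `Set.Finite.subset` of
`Set.finite_range`). Pattern of `y`: choose from PP 1.
(1) `wt ≤ (∏ j, fw θ K (code j)) / K^|ext|`: `|pD| ≤ ∑_{Bot}(1 + 2|t i|) ≤ m (2L+3)` (PD 1, TL 2), so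
`Th L K |pD| ≤ θ^|pD| ≤ θ^(∑_{Bot} (1+2|t i|))`, `|pC| = ∑_{Bot} |t i| + |ext|` (PC), and `∏ j, fw (code j)` is the product over the
bottoms (`fw none = 1`).
(2) For a dart `d` the map `y ↦ (x, code)` is injective on `{y : d ∈ pD}` (PP 3) with values in the union over `g ∈ cand d`
(at most 2, PD 3), `i`, `s ∈ range (L + 2)` (TL 2) of the index sets of S3: `code j ∈ OO (e j x).2 (cov j) (lam j)` since
`t j ∈ upl _ |t j|` (UP 3, TL 3), `|t j| ∈ lam j` (`Occ`), and `code j = none` only if not `Bot j`, so `cov j = true` (`hcov`);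
`PD 2` gives `i`, `s`, `g = lev (e i x) (t i) s ∈ cand d`. Sum over the union ≤ sum of the sums; S3.
(3) If `q` violates all patterns and `Occ q x`, then `t i = Tq q (e i x)` is valid and PP 2 contradicts the violation.
-/

set_option autoImplicit false

open Finset

namespace Pool.Agent.H95.AED

private theorem fa_len {V : Type} [Fintype V] {G : SimpleGraph V} {r : V → ℕ} {L : ℕ}
    (c : Cfg G r L) {K : ℕ} {x : c.X} {t : Fin c.m → List V} (hv : c.Valid K x t) (i : Fin c.m) :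
    (t i).length ≤ L + 1 := by
  obtain ⟨q, hq, ht, hocc⟩ := hv
  rw [ht i]
  exact Tq_len G r L q _ _

open Classical in
/-- FA 1: weight of a valid pattern -/
theorem pat_wt {V : Type} [Fintype V] {G : SimpleGraph V} {r : V → ℕ} {L : ℕ} (c : Cfg G r L)
    {K : ℕ} (hK1 : 1 ≤ K) {θ : ℝ} (hθ : 1 ≤ θ)
    (hTh : ∀ m', m' ≤ c.m * (2 * L + 3) → Th L K m' ≤ θ ^ m')
    {x : c.X} {t : Fin c.m → List V} (hv : c.Valid K x t) :
    Th L K (c.pD x t).card / (K : ℝ) ^ (c.pC x t).card ≤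
      (∏ j, fw θ K (c.code x t j)) / (K : ℝ) ^ c.ext.card := by
  have hK0 : (0 : ℝ) < K := by exact_mod_cast hK1
  obtain ⟨S, hS⟩ : ∃ S : Finset (Fin c.m), S = univ.filter (fun i => c.Bot x t i) := ⟨_, rfl⟩
  have h1 := pD_card c hv
  have h2 := pC_card c hv
  rw [← hS] at h1 h2
  have h3 : ∑ i ∈ S, (1 + 2 * (t i).length) ≤ c.m * (2 * L + 3) := by
    calc ∑ i ∈ S, (1 + 2 * (t i).length) ≤ ∑ i ∈ S, (2 * L + 3) :=
          Finset.sum_le_sum fun i _ => by
            have := fa_len c hv i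
            omega
      _ = S.card * (2 * L + 3) := by rw [Finset.sum_const, smul_eq_mul]
      _ ≤ c.m * (2 * L + 3) := by
          refine Nat.mul_le_mul_right _ ?_
          have := Finset.card_le_univ S
          rwa [Fintype.card_fin] at this
  have h4 : Th L K (c.pD x t).card ≤ θ ^ (∑ i ∈ S, (1 + 2 * (t i).length)) :=
    (hTh _ (h1.trans h3)).trans (pow_le_pow_right₀ hθ h1)
  have h5 : ∏ j, fw θ K (c.code x t j) = θ ^ (∑ i ∈ S, (1 + 2 * (t i).length)) /
      (K : ℝ) ^ (∑ i ∈ S, (t i).length) := by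
    rw [← Finset.prod_pow_eq_pow_sum, ← Finset.prod_pow_eq_pow_sum, ← Finset.prod_div_distrib, hS,
      Finset.prod_filter]
    refine Finset.prod_congr rfl fun j _ => ?_
    unfold Cfg.code
    split_ifs
    · rfl
    · rfl
  rw [h5, h2, pow_add, div_div]
  exact div_le_div_of_nonneg_right h4 (by positivity)

open Classical in
/-- FA 2: the code of a valid pattern lies in one of the index sets of S3 -/
theorem code_mem {V : Type} [Fintype V] {G : SimpleGraph V} {r : V → ℕ} {L : ℕ} (c : Cfg G r L)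
    {K : ℕ} (hcov : c.HCov K) {x : c.X} {t : Fin c.m → List V} (hv : c.Valid K x t) {d : Drt V}
    (hd : d ∈ c.pD x t) :
    ∃ g ∈ cand r d, ∃ i : Fin c.m, ∃ s ∈ range (L + 2),
      c.code x t ∈ (Fintype.piFinset (fun j => OO G r (c.e j x).2 (c.cov j) (c.lam j))).filter
        (fun τ => ∃ t', τ i = some t' ∧ s ≤ t'.length ∧ Chn G r (c.e i x).1 (c.e i x).2 t' ∧
          lev (c.e i x).1 (c.e i x).2 t' s = g) := by
  obtain ⟨i, hi, s, hs, h1⟩ := pD_cand c hv hd
  have hlen := fa_len c hv i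
  have hchn : ∀ j, Chn G r (c.e j x).1 (c.e j x).2 (t j) := by
    obtain ⟨q, hq, ht, hocc⟩ := hv
    intro j
    rw [ht j]
    exact Tq_chn G r L q (c.hup j x)
  have hlam : ∀ j, (t j).length ∈ c.lam j := by
    obtain ⟨q, hq, ht, hocc⟩ := hv
    intro j
    rw [ht j]
    exact hocc.1 j
  refine ⟨_, h1, i, s, Finset.mem_range.2 (by omega), ?_⟩
  refine Finset.mem_filter.2 ⟨Fintype.mem_piFinset.2 fun j => ?_, t i, ?_, hs, hchn i, rfl⟩
  · unfold Cfg.code OO
    by_cases hb : c.Bot x t j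
    · rw [if_pos hb]
      refine Finset.mem_union_right _ (Finset.mem_biUnion.2 ⟨(t j).length, hlam j, ?_⟩)
      exact Finset.mem_image.2 ⟨t j, mem_upl G r (hchn j), rfl⟩
    · rw [if_neg hb]
      have h2 : c.cov j = true := by
        by_contra h3
        exact hb (hcov x t hv j (by simpa using h3))
      rw [if_pos h2]
      exact Finset.mem_union_left _ (Finset.mem_singleton.2 rfl)
  · unfold Cfg.code
    rw [if_pos hi]

private theorem fa_sum_biUnion {α β : Type} [DecidableEq α] (A : Finset β)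
    (B : β → Finset α) (f : α → ℝ) (hf : ∀ x, 0 ≤ f x) :
    ∑ x ∈ A.biUnion B, f x ≤ ∑ l ∈ A, ∑ x ∈ B l, f x := by
  classical
  induction A using Finset.induction_on with
  | empty => simp
  | insert l A hl ih =>
    rw [Finset.biUnion_insert, Finset.sum_insert hl]
    have h1 : ∑ x ∈ B l ∪ A.biUnion B, f x ≤ ∑ x ∈ B l, f x + ∑ x ∈ A.biUnion B, f x := by
      rw [← Finset.sum_union_inter]
      exact le_add_of_nonneg_right (Finset.sum_nonneg fun x _ => hf x)
    linarith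

open Classical in
private theorem fa_sum {V : Type} [Fintype V] {G : SimpleGraph V} {r : V → ℕ} {L : ℕ} (c : Cfg G r L)
    {k K : ℕ} (hk1 : 1 ≤ k) (hK1 : 1 ≤ K)
    (hk : ∀ v, (univ.filter (fun a => Upe G r v a)).card ≤ k)
    (hK : ∀ v, (univ.filter (fun a => G.Adj v a)).card ≤ K) {θ : ℝ} (hθ : 1 ≤ θ) (M : Fin c.m → ℝ)
    (hM : ∀ i g, ((univ.filter (fun x => c.e i x = g)).card : ℝ) ≤ M i) (hcov : c.HCov K)
    (d : Drt V) (S : Finset {y : c.X × (Fin c.m → List V) // c.Valid K y.1 y.2})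
    (hS : ∀ y ∈ S, d ∈ c.pD y.1.1 y.1.2) :
    ∑ y ∈ S, (∏ j, fw θ K (c.code y.1.1 y.1.2 j)) / (K : ℝ) ^ c.ext.card ≤ c.BB k K θ M := by
  have hK0 : (0 : ℝ) < K := by exact_mod_cast hK1
  have hk0 : (0 : ℝ) < k := by exact_mod_cast hk1
  have hV : Nonempty V := by
    obtain ⟨h, -⟩ := d
    rcases h with v | e
    · exact ⟨v⟩
    · induction e using Sym2.ind with
      | _ a b => exact ⟨a⟩
  have hM0 : ∀ i, 0 ≤ M i := fun i =>
    (Nat.cast_nonneg _).trans (hM i (Classical.arbitrary V, Classical.arbitrary V))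
  have hfw : ∀ τ : Fin c.m → Option (List V), 0 ≤ ∏ j, fw θ K (τ j) := fun τ =>
    Finset.prod_nonneg fun j _ => fw_nonneg hθ K _
  let W : V × V → Fin c.m → ℕ → Finset (c.X × (Fin c.m → Option (List V))) := fun g i s =>
    univ.biUnion (fun x => ((Fintype.piFinset (fun j => OO G r (c.e j x).2 (c.cov j)
      (c.lam j))).filter (fun τ => ∃ t', τ i = some t' ∧ s ≤ t'.length ∧
        Chn G r (c.e i x).1 (c.e i x).2 t' ∧ lev (c.e i x).1 (c.e i x).2 t' s = g)).image
          (fun τ => (x, τ)))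
  let F : c.X × (Fin c.m → Option (List V)) → ℝ := fun z =>
    (∏ j, fw θ K (z.2 j)) / (K : ℝ) ^ c.ext.card
  have hF : ∀ z, 0 ≤ F z := fun z => div_nonneg (hfw _) (by positivity)
  let κ : {y : c.X × (Fin c.m → List V) // c.Valid K y.1 y.2} →
      c.X × (Fin c.m → Option (List V)) := fun y => (y.1.1, c.code y.1.1 y.1.2)
  have hκ : Function.Injective κ := by
    rintro ⟨⟨x, t⟩, hv⟩ ⟨⟨x', t'⟩, hv'⟩ h
    have h1 : x = x' := (Prod.mk.inj h).1
    subst h1
    have h2 : t = t' := code_inj c hv hv' (Prod.mk.inj h).2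
    subst h2
    rfl
  have h2 : S.image κ ⊆
      (cand r d).biUnion (fun g => univ.biUnion (fun i => (range (L + 2)).biUnion (W g i))) := by
    intro z hz
    obtain ⟨y, hy, rfl⟩ := Finset.mem_image.1 hz
    obtain ⟨g, hg, i, s, hs, h4⟩ := code_mem c hcov y.2 (hS y hy)
    refine Finset.mem_biUnion.2 ⟨g, hg, Finset.mem_biUnion.2 ⟨i, mem_univ _,
      Finset.mem_biUnion.2 ⟨s, hs, Finset.mem_biUnion.2 ⟨y.1.1, mem_univ _, ?_⟩⟩⟩⟩
    exact Finset.mem_image.2 ⟨_, h4, rfl⟩
  have hW : ∀ g i s, ∑ z ∈ W g i s, F z ≤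
      M i * SB θ ((K : ℝ) / k) (c.lam i) s *
        (∏ j ∈ univ.erase i, SA θ ((K : ℝ) / k) (c.cov j) (c.lam j)) / (K : ℝ) ^ c.ext.card := by
    intro g i s
    refine (fa_sum_biUnion _ _ _ hF).trans ?_
    have h5 := sum_codes c hk1 hK1 hk hK hθ M hM i s g
    refine le_trans (le_of_eq ?_) (div_le_div_of_nonneg_right h5
      (by positivity : (0 : ℝ) ≤ (K : ℝ) ^ c.ext.card))
    rw [Finset.sum_div]
    refine Finset.sum_congr rfl fun x _ => ?_
    rw [Finset.sum_image (fun a _ b _ h => (Prod.mk.inj h).2), Finset.sum_div]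
  have hSB : ∀ i s, 0 ≤ M i * SB θ ((K : ℝ) / k) (c.lam i) s *
        (∏ j ∈ univ.erase i, SA θ ((K : ℝ) / k) (c.cov j) (c.lam j)) /
          (K : ℝ) ^ c.ext.card := by
    intro i s
    have hθ0 : 0 ≤ θ := by linarith
    refine div_nonneg (mul_nonneg (mul_nonneg (hM0 i) ?_) (Finset.prod_nonneg fun j _ => ?_))
      (by positivity)
    · unfold SB
      exact Finset.sum_nonneg fun l _ => by positivity
    · unfold SA
      refine add_nonneg ?_ (Finset.sum_nonneg fun l _ => by positivity)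
      split_ifs
      · exact zero_le_one
      · exact le_rfl
  calc ∑ y ∈ S, F (κ y) = ∑ z ∈ S.image κ, F z := by
        rw [Finset.sum_image (fun a _ b _ h => hκ h)]
    _ ≤ ∑ z ∈ (cand r d).biUnion (fun g => univ.biUnion (fun i =>
          (range (L + 2)).biUnion (W g i))), F z :=
        Finset.sum_le_sum_of_subset_of_nonneg h2 fun z _ _ => hF z
    _ ≤ ∑ g ∈ cand r d, ∑ i, ∑ s ∈ range (L + 2), ∑ z ∈ W g i s, F z := by
        refine (fa_sum_biUnion _ _ _ hF).trans (Finset.sum_le_sum fun g _ => ?_)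
        refine (fa_sum_biUnion _ _ _ hF).trans (Finset.sum_le_sum fun i _ => ?_)
        exact fa_sum_biUnion _ _ _ hF
    _ ≤ ∑ g ∈ cand r d, ∑ i, ∑ s ∈ range (L + 2), (M i * SB θ ((K : ℝ) / k) (c.lam i) s *
        (∏ j ∈ univ.erase i, SA θ ((K : ℝ) / k) (c.cov j) (c.lam j)) /
          (K : ℝ) ^ c.ext.card) :=
        Finset.sum_le_sum fun g _ => Finset.sum_le_sum fun i _ => Finset.sum_le_sum fun s _ =>
          hW g i s
    _ ≤ 2 * ∑ i, ∑ s ∈ range (L + 2), (M i * SB θ ((K : ℝ) / k) (c.lam i) s *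
        (∏ j ∈ univ.erase i, SA θ ((K : ℝ) / k) (c.cov j) (c.lam j)) /
          (K : ℝ) ^ c.ext.card) := by
        rw [Finset.sum_const, nsmul_eq_mul]
        refine mul_le_mul_of_nonneg_right ?_ (Finset.sum_nonneg fun i _ =>
          Finset.sum_nonneg fun s _ => hSB i s)
        exact_mod_cast cand_card d
    _ = c.BB k K θ M := by
        unfold Cfg.BB
        rw [mul_div_assoc, Finset.sum_div]
        congr 1
        refine Finset.sum_congr rfl fun i _ => ?_
        rw [Finset.mul_sum, Finset.sum_mul, Finset.sum_div]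

open Classical in
/-- FA 3: the family theorem -/
theorem fam {V : Type} [Fintype V] {G : SimpleGraph V} {r : V → ℕ} {L : ℕ} (c : Cfg G r L)
    {k K : ℕ} (hk1 : 1 ≤ k) (hK1 : 1 ≤ K)
    (hk : ∀ v, (univ.filter (fun a => Upe G r v a)).card ≤ k)
    (hK : ∀ v, (univ.filter (fun a => G.Adj v a)).card ≤ K) {θ : ℝ} (hθ : 1 ≤ θ)
    (hTh : ∀ m', m' ≤ c.m * (2 * L + 3) → Th L K m' ≤ θ ^ m') (M : Fin c.m → ℝ)
    (hM : ∀ i g, ((univ.filter (fun x => c.e i x = g)).card : ℝ) ≤ M i) (hcov : c.HCov K) :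
    Small (Rel G) L K (c.BB k K θ M) (fun q => ∀ x, ¬ c.Occ q x) := by
  haveI : Finite {y : c.X × (Fin c.m → List V) // c.Valid K y.1 y.2} := by
    have hf : Finite {z : c.X × (Drt V → Fin K) // InjQ (Rel G) z.2 ∧ c.Occ z.2 z.1} := inferInstance
    refine Finite.of_surjective (α := {z : c.X × (Drt V → Fin K) // InjQ (Rel G) z.2 ∧ c.Occ z.2 z.1})
      (fun z => ⟨(z.1.1, fun i => Tq G r L z.1.2 (c.e i z.1.1).1 (c.e i z.1.1).2),
        z.1.2, z.2.1, fun i => rfl, z.2.2⟩) ?_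
    rintro ⟨⟨x, t⟩, q, hq, ht, hocc⟩
    refine ⟨⟨(x, q), hq, hocc⟩, ?_⟩
    refine Subtype.ext (Prod.ext rfl ?_)
    funext i
    exact (ht i).symm
  refine ⟨{y : c.X × (Fin c.m → List V) // c.Valid K y.1 y.2}, Fintype.ofFinite _,
    fun y => (exists_pat c y.2).choose, ?_, ?_⟩
  · intro d
    letI : Fintype {y : c.X × (Fin c.m → List V) // c.Valid K y.1 y.2} := Fintype.ofFinite _
    have h1 : ∀ y : {y : c.X × (Fin c.m → List V) // c.Valid K y.1 y.2},
        ((exists_pat c y.2).choose).wt L K ≤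
          (∏ j, fw θ K (c.code y.1.1 y.1.2 j)) / (K : ℝ) ^ c.ext.card := by
      intro y
      unfold Pat.wt
      rw [(exists_pat c y.2).choose_spec.1, (exists_pat c y.2).choose_spec.2]
      exact pat_wt c hK1 hθ hTh y.2
    refine (Finset.sum_le_sum fun y _ => h1 y).trans ?_
    refine fa_sum c hk1 hK1 hk hK hθ M hM hcov d _ fun y hy => ?_
    have h3 := ((@Finset.mem_filter _ _ (_) _ _).1 hy).2
    rw [(exists_pat c y.2).choose_spec.1] at h3
    exact h3
  · intro q hq hviol x hocc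
    have hv : c.Valid K x (fun i => Tq G r L q (c.e i x).1 (c.e i x).2) :=
      ⟨q, hq, fun i => rfl, hocc⟩
    obtain ⟨p, hp, hne⟩ := hviol ⟨(x, fun i => Tq G r L q (c.e i x).1 (c.e i x).2), hv⟩
    rw [(exists_pat c hv).choose_spec.2] at hp
    exact hne (pC_holds c hocc p hp)

end Pool.Agent.H95.AED
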