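import Pool.Agent.H95.AED.NU

/-!
# AED FN: arithmetic of the cycle families

`R = K/k`. FN 1: the left side is `16 (2n+4) (L+2) H (1+2θ) (4 (1+2θ)²/R)^(n+1)`; `2n+4 ≤ 4(n+1)`, `L+2 ≤ 3L`. First case (`θ ≤ 2`, `H = 150`):
`≤ 144000 (n+1) L (100/R)^(n+1)`; second case (`θ = 6`, `H = 6^(2L+3) ≤ 6^(n+1)`): `≤ 2496 (n+1) L (6·676/R)^(n+1)`.
FN 2: put `S = 2θ(θ²/R)^(L+1)`; `K S = 2θ³ k (θ²/R)^L ≤ 2θ⁵/R · k (1/2)^(L-1) ≤ 2θ⁵/R`, `S ≤ 1`; the left side is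
`4 (n+2) H K^(n+1) (4 S^(n+1) (1+2θ)^(n+2) + 2 (L+2) S^(n+2) (1+2θ)^(n+1)) ≤ 4 (n+2) H (4 (1+2θ) + 2 (L+2)) ((1+2θ) K S)^(n+1)`,
`≤ 464 (n+1) L H ((1+2θ) 2θ⁵/R)^(n+1)`; cases as before (`5·64`, resp. `6·13·15552 ≤ 10^7`).
FN 3: with `y = 10^7/R ≤ 10^(-13)/L²`: `∑ (n+1) y^(n+1) ≤ 2y`, so the sum is `≤ 10^5 L · 2 · 10^7/R ≤ 1/(40 L)`.
-/

set_option autoImplicit false

open Finset

namespace Pool.Agent.H95.AED

/-- the two cases of the parameters -/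
def Case (L n : ℕ) (θ H : ℝ) : Prop :=
  (n ≤ 2 * L + 3 ∧ 1 ≤ θ ∧ θ ≤ 2 ∧ H = 150) ∨ (2 * L + 3 < n ∧ θ = 6 ∧ H = 6 ^ (2 * L + 3))

/-- bound for the cycle families -/
noncomputable def bnd (L k K n : ℕ) : ℝ :=
  10 ^ 5 * (n + 1) * L * (10 ^ 7 / ((K : ℝ) / k)) ^ (n + 1)

private theorem fn_case {L n : ℕ} {θ H : ℝ} (hc : Case L n θ H) :
    1 ≤ θ ∧ θ ≤ 6 ∧ 0 ≤ H ∧ ∀ (a : ℝ), 0 ≤ a →
      ((θ ≤ 2 ∧ H * a ^ (n + 1) ≤ 150 * a ^ (n + 1)) ∨ H * a ^ (n + 1) ≤ (6 * a) ^ (n + 1)) := by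
  rcases hc with ⟨h1, h2, h3, h4⟩ | ⟨h1, h2, h3⟩
  · refine ⟨h2, by linarith, by rw [h4]; norm_num, fun a ha => Or.inl ⟨h3, ?_⟩⟩
    rw [h4]
  · refine ⟨by rw [h2]; norm_num, by rw [h2], by rw [h3]; positivity, fun a ha => Or.inr ?_⟩
    rw [h3, mul_pow]
    refine mul_le_mul_of_nonneg_right ?_ (by positivity)
    exact pow_le_pow_right₀ (by norm_num) (by omega)

private theorem fn_R {L k K : ℕ} (hL : 1 ≤ L) (hk : 1 ≤ k)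
    (hR : 10 ^ 20 * (L : ℝ) ^ 2 ≤ (K : ℝ) / k) :
    (1 : ℝ) ≤ L ∧ (1 : ℝ) ≤ k ∧ 10 ^ 20 ≤ (K : ℝ) / k ∧ 0 < (K : ℝ) := by
  have hL' : (1 : ℝ) ≤ L := by exact_mod_cast hL
  have hk' : (1 : ℝ) ≤ k := by exact_mod_cast hk
  have h1 : (1 : ℝ) ≤ (L : ℝ) ^ 2 := one_le_pow₀ hL'
  have h2 : (10 : ℝ) ^ 20 ≤ (K : ℝ) / k := by linarith
  refine ⟨hL', hk', h2, ?_⟩
  rw [le_div_iff₀ (by linarith)] at h2
  nlinarith

/-- FN 1 -/
theorem num_fin {L k K n : ℕ} {θ H : ℝ} (hL : 1 ≤ L) (hk : 1 ≤ k)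
    (hR : 10 ^ 20 * (L : ℝ) ^ 2 ≤ (K : ℝ) / k) (hc : Case L n θ H) :
    2 * ((2 * n + 4) * (4 * (4 * (k : ℝ) * K) ^ (n + 1)) * (2 * (L + 2) * H) *
      (1 + 2 * θ) ^ (2 * n + 3)) / (K : ℝ) ^ (2 * n + 2) ≤ bnd L k K n := by
  obtain ⟨hL', hk', hR', hK⟩ := fn_R hL hk hR
  obtain ⟨R, hRd⟩ : ∃ R, R = (K : ℝ) / k := ⟨_, rfl⟩
  rw [← hRd] at hR'
  have hR0 : 0 < R := by linarith
  have hk0 : (0 : ℝ) < k := by linarith
  obtain ⟨h1, h2, h3, h4⟩ := fn_case hc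
  have hθ0 : 0 ≤ θ := by linarith
  have hn0 := Nat.cast_nonneg (α := ℝ) n
  have hKR : (K : ℝ) = R * k := by rw [hRd]; field_simp
  have e1 : 2 * ((2 * n + 4) * (4 * (4 * (k : ℝ) * K) ^ (n + 1)) * (2 * (L + 2) * H) *
      (1 + 2 * θ) ^ (2 * n + 3)) / (K : ℝ) ^ (2 * n + 2) =
      16 * (2 * n + 4) * (L + 2) * (1 + 2 * θ) * (H * (4 * (1 + 2 * θ) ^ 2 / R) ^ (n + 1)) := by
    have e2 : (4 * (k : ℝ) * K) ^ (n + 1) / (K : ℝ) ^ (2 * n + 2) = (4 / R) ^ (n + 1) := by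
      rw [show 2 * n + 2 = 2 * (n + 1) by ring, pow_mul, ← div_pow]
      congr 1
      rw [hKR]
      field_simp
    have e3 : (1 + 2 * θ) ^ (2 * n + 3) = (1 + 2 * θ) * ((1 + 2 * θ) ^ 2) ^ (n + 1) := by
      rw [← pow_mul]
      ring
    have e4 : (4 * (1 + 2 * θ) ^ 2 / R) ^ (n + 1) =
        (4 / R) ^ (n + 1) * ((1 + 2 * θ) ^ 2) ^ (n + 1) := by
      rw [← mul_pow]
      congr 1
      ring
    rw [e4, ← e2, e3]
    ring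
  rw [e1]
  unfold bnd
  rw [← hRd]
  have h5 : (2 * (n : ℝ) + 4) ≤ 4 * (n + 1) := by linarith
  have h6 : (L : ℝ) + 2 ≤ 3 * L := by linarith
  have ha0 : 0 ≤ 4 * (1 + 2 * θ) ^ 2 / R := by positivity
  have h7 : 16 * (2 * (n : ℝ) + 4) * (L + 2) * (1 + 2 * θ) ≤
      16 * (4 * (n + 1)) * (3 * L) * (1 + 2 * θ) := by
    have hθ1 : 0 ≤ 1 + 2 * θ := by linarith
    gcongr
  rcases h4 (4 * (1 + 2 * θ) ^ 2 / R) ha0 with ⟨h8, h9⟩ | h9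
  · have h10 : 4 * (1 + 2 * θ) ^ 2 / R ≤ 10 ^ 7 / R := by
      refine div_le_div_of_nonneg_right ?_ hR0.le
      nlinarith
    have h11 : (4 * (1 + 2 * θ) ^ 2 / R) ^ (n + 1) * 10 ^ 5 ≤ (10 ^ 7 / R) ^ (n + 1) := by
      have h12 : 4 * (1 + 2 * θ) ^ 2 / R ≤ 100 / R := by
        refine div_le_div_of_nonneg_right ?_ hR0.le
        nlinarith
      have h13 : (10 : ℝ) ^ 5 ≤ (10 ^ 5) ^ (n + 1) := by
        have : (1 : ℝ) ≤ (10 ^ 5) ^ n := one_le_pow₀ (by norm_num)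
        rw [pow_succ ((10 : ℝ) ^ 5) n]
        linarith
      calc (4 * (1 + 2 * θ) ^ 2 / R) ^ (n + 1) * 10 ^ 5 ≤ (100 / R) ^ (n + 1) * (10 ^ 5) ^ (n + 1) :=
            mul_le_mul (pow_le_pow_left₀ ha0 h12 _) h13 (by norm_num) (by positivity)
        _ = (10 ^ 7 / R) ^ (n + 1) := by
            rw [← mul_pow]
            congr 1
            ring
    have h14 : 1 + 2 * θ ≤ 5 := by linarith
    have hp0 : 0 ≤ (4 * (1 + 2 * θ) ^ 2 / R) ^ (n + 1) := pow_nonneg ha0 _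
    calc _ ≤ (16 * (4 * ((n : ℝ) + 1)) * (3 * L) * (1 + 2 * θ)) *
          (150 * (4 * (1 + 2 * θ) ^ 2 / R) ^ (n + 1)) :=
          mul_le_mul h7 h9 (mul_nonneg h3 hp0) (by positivity)
      _ ≤ (16 * (4 * ((n : ℝ) + 1)) * (3 * L) * 5) *
          (150 * (4 * (1 + 2 * θ) ^ 2 / R) ^ (n + 1)) := by gcongr
      _ = 1.44 * ((n : ℝ) + 1) * L * ((4 * (1 + 2 * θ) ^ 2 / R) ^ (n + 1) * 10 ^ 5) := by ring
      _ ≤ 1.44 * ((n : ℝ) + 1) * L * (10 ^ 7 / R) ^ (n + 1) :=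
          mul_le_mul_of_nonneg_left h11 (by positivity)
      _ ≤ 10 ^ 5 * ((n : ℝ) + 1) * L * (10 ^ 7 / R) ^ (n + 1) := by
          gcongr
          norm_num
  · have h10 : 6 * (4 * (1 + 2 * θ) ^ 2 / R) ≤ 10 ^ 7 / R := by
      rw [← mul_div_assoc]
      refine div_le_div_of_nonneg_right ?_ hR0.le
      nlinarith
    have h14 : 1 + 2 * θ ≤ 13 := by linarith
    calc _ ≤ (16 * (4 * ((n : ℝ) + 1)) * (3 * L) * (1 + 2 * θ)) *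
          (6 * (4 * (1 + 2 * θ) ^ 2 / R)) ^ (n + 1) :=
          mul_le_mul h7 h9 (mul_nonneg h3 (pow_nonneg ha0 _)) (by positivity)
      _ ≤ (16 * (4 * ((n : ℝ) + 1)) * (3 * L) * 13) * (10 ^ 7 / R) ^ (n + 1) := by
          refine mul_le_mul ?_ (pow_le_pow_left₀ (by positivity) h10 _) (by positivity)
            (by positivity)
          gcongr
      _ ≤ 10 ^ 5 * ((n : ℝ) + 1) * L * (10 ^ 7 / R) ^ (n + 1) := by
          refine mul_le_mul_of_nonneg_right ?_ (by positivity)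
          have : 0 ≤ ((n : ℝ) + 1) * L := by positivity
          linarith

/-- FN 2 -/
theorem num_inf {L k K n : ℕ} {θ H : ℝ} (hL : 1 ≤ L) (hk : 1 ≤ k) (hk2 : k ≤ 2 ^ (L - 1))
    (hR : 10 ^ 20 * (L : ℝ) ^ 2 ≤ (K : ℝ) / k) (hc : Case L n θ H) :
    2 * ((n + 2) * (2 * (K : ℝ) ^ (2 * n + 2)) *
      (4 * H * (2 * θ * (θ ^ 2 / ((K : ℝ) / k)) ^ (L + 1)) ^ (n + 1) * (1 + 2 * θ) ^ (n + 2) +
        2 * (L + 2) * H * (2 * θ * (θ ^ 2 / ((K : ℝ) / k)) ^ (L + 1)) ^ (n + 2) *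
          (1 + 2 * θ) ^ (n + 1))) / (K : ℝ) ^ (n + 1) ≤ bnd L k K n := by
  obtain ⟨hL', hk', hR', hK⟩ := fn_R hL hk hR
  obtain ⟨R, hRd⟩ : ∃ R, R = (K : ℝ) / k := ⟨_, rfl⟩
  rw [← hRd] at hR' ⊢
  have hR0 : 0 < R := by linarith
  have hk0 : (0 : ℝ) < k := by linarith
  obtain ⟨h1, h2, h3, h4⟩ := fn_case hc
  have hθ0 : 0 ≤ θ := by linarith
  have hn0 := Nat.cast_nonneg (α := ℝ) n
  have hKR : (K : ℝ) = R * k := by rw [hRd]; field_simp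
  obtain ⟨S, hS⟩ : ∃ S, S = 2 * θ * (θ ^ 2 / R) ^ (L + 1) := ⟨_, rfl⟩
  rw [← hS]
  have hx0 : 0 ≤ θ ^ 2 / R := by positivity
  have hx1 : θ ^ 2 / R ≤ 1 / 2 := by
    rw [div_le_iff₀ hR0]
    nlinarith
  have hS0 : 0 ≤ S := by rw [hS]; positivity
  have hS1 : S ≤ 1 := by
    have h5 : (θ ^ 2 / R) ^ (L + 1) ≤ θ ^ 2 / R := by
      calc (θ ^ 2 / R) ^ (L + 1) ≤ (θ ^ 2 / R) ^ 1 :=
            pow_le_pow_of_le_one hx0 (by linarith) (by omega)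
        _ = _ := pow_one _
    rw [hS]
    calc 2 * θ * (θ ^ 2 / R) ^ (L + 1) ≤ 2 * 6 * (θ ^ 2 / R) :=
          mul_le_mul (by linarith) h5 (by positivity) (by norm_num)
      _ ≤ 2 * 6 * (36 / R) := by
          refine mul_le_mul_of_nonneg_left ?_ (by norm_num)
          refine div_le_div_of_nonneg_right ?_ hR0.le
          nlinarith
      _ ≤ 1 := by
          rw [← mul_div_assoc, div_le_one hR0]
          linarith
  have hKS : (K : ℝ) * S ≤ 2 * θ ^ 5 / R := by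
    have h5 : (K : ℝ) * S = 2 * θ ^ 3 * (k * (θ ^ 2 / R) ^ L) := by
      rw [hS, hKR, pow_succ (θ ^ 2 / R) L]
      field_simp
    have h6 : (k : ℝ) * (θ ^ 2 / R) ^ L ≤ θ ^ 2 / R := by
      obtain ⟨l, rfl⟩ : ∃ l, L = l + 1 := ⟨L - 1, by omega⟩
      rw [pow_succ, ← mul_assoc]
      have h7 : (k : ℝ) ≤ 2 ^ l := by
        rw [Nat.add_sub_cancel] at hk2
        exact_mod_cast hk2
      have h8 : (k : ℝ) * (θ ^ 2 / R) ^ l ≤ 1 := by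
        calc (k : ℝ) * (θ ^ 2 / R) ^ l ≤ 2 ^ l * (1 / 2) ^ l :=
              mul_le_mul h7 (pow_le_pow_left₀ hx0 hx1 l) (by positivity) (by positivity)
          _ = 1 := by
              rw [← mul_pow]
              norm_num
      calc _ ≤ 1 * (θ ^ 2 / R) := mul_le_mul_of_nonneg_right h8 hx0
        _ = _ := one_mul _
    rw [h5]
    calc 2 * θ ^ 3 * (k * (θ ^ 2 / R) ^ L) ≤ 2 * θ ^ 3 * (θ ^ 2 / R) :=
          mul_le_mul_of_nonneg_left h6 (by positivity)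
      _ = _ := by ring
  have e1 : 2 * ((n + 2) * (2 * (K : ℝ) ^ (2 * n + 2)) *
      (4 * H * S ^ (n + 1) * (1 + 2 * θ) ^ (n + 2) +
        2 * (L + 2) * H * S ^ (n + 2) * (1 + 2 * θ) ^ (n + 1))) / (K : ℝ) ^ (n + 1) =
      4 * (n + 2) * (4 * (1 + 2 * θ) + 2 * (L + 2) * S) *
        (H * ((K * S) * (1 + 2 * θ)) ^ (n + 1)) := by
    have e2 : (K : ℝ) ^ (2 * n + 2) = K ^ (n + 1) * K ^ (n + 1) := by
      rw [← pow_add]
      congr 1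
      ring
    rw [e2, pow_succ S (n + 1), pow_succ (1 + 2 * θ) (n + 1), mul_pow, mul_pow]
    field_simp
    ring
  rw [e1]
  unfold bnd
  rw [← hRd]
  have ha0 : 0 ≤ (K * S) * (1 + 2 * θ) := by positivity
  have ha1 : (K * S) * (1 + 2 * θ) ≤ 2 * θ ^ 5 / R * (1 + 2 * θ) :=
    mul_le_mul_of_nonneg_right hKS (by linarith)
  have h5 : (n : ℝ) + 2 ≤ 2 * (n + 1) := by linarith
  have h6 : 4 * (1 + 2 * θ) + 2 * (L + 2) * S ≤ 58 * L := by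
    have h7 : 2 * ((L : ℝ) + 2) * S ≤ 2 * (L + 2) * 1 :=
      mul_le_mul_of_nonneg_left hS1 (by positivity)
    linarith
  have h60 : 0 ≤ 4 * (1 + 2 * θ) + 2 * (L + 2) * S := by positivity
  have h7 : 4 * ((n : ℝ) + 2) * (4 * (1 + 2 * θ) + 2 * (L + 2) * S) ≤
      4 * (2 * (n + 1)) * (58 * L) := by
    refine mul_le_mul ?_ h6 h60 (by positivity)
    linarith
  rcases h4 ((K * S) * (1 + 2 * θ)) ha0 with ⟨h8, h9⟩ | h9
  · have h10 : 2 * θ ^ 5 / R * (1 + 2 * θ) ≤ 10 ^ 7 / R := by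
      rw [div_mul_eq_mul_div]
      refine div_le_div_of_nonneg_right ?_ hR0.le
      have h11 : θ ^ 5 ≤ 2 ^ 5 := pow_le_pow_left₀ hθ0 h8 5
      nlinarith [pow_nonneg hθ0 5]
    have h12 : ((K * S) * (1 + 2 * θ)) ^ (n + 1) ≤ (10 ^ 7 / R) ^ (n + 1) :=
      pow_le_pow_left₀ ha0 (ha1.trans h10) _
    calc _ ≤ (4 * (2 * ((n : ℝ) + 1)) * (58 * L)) * (150 * ((K * S) * (1 + 2 * θ)) ^ (n + 1)) :=
          mul_le_mul h7 h9 (mul_nonneg h3 (pow_nonneg ha0 _)) (by positivity)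
      _ ≤ (4 * (2 * ((n : ℝ) + 1)) * (58 * L)) * (150 * (10 ^ 7 / R) ^ (n + 1)) := by gcongr
      _ ≤ 10 ^ 5 * ((n : ℝ) + 1) * L * (10 ^ 7 / R) ^ (n + 1) := by
          have : 0 ≤ ((n : ℝ) + 1) * L * (10 ^ 7 / R) ^ (n + 1) := by positivity
          linarith
  · have h10 : 6 * (2 * θ ^ 5 / R * (1 + 2 * θ)) ≤ 10 ^ 7 / R := by
      rw [div_mul_eq_mul_div, ← mul_div_assoc]
      refine div_le_div_of_nonneg_right ?_ hR0.le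
      have h11 : θ ^ 5 ≤ 6 ^ 5 := pow_le_pow_left₀ hθ0 h2 5
      nlinarith [pow_nonneg hθ0 5]
    have h12 : (6 * ((K * S) * (1 + 2 * θ))) ^ (n + 1) ≤ (10 ^ 7 / R) ^ (n + 1) := by
      refine pow_le_pow_left₀ (by positivity) (le_trans ?_ h10) _
      exact mul_le_mul_of_nonneg_left ha1 (by norm_num)
    calc _ ≤ (4 * (2 * ((n : ℝ) + 1)) * (58 * L)) * (6 * ((K * S) * (1 + 2 * θ))) ^ (n + 1) :=
          mul_le_mul h7 h9 (mul_nonneg h3 (pow_nonneg ha0 _)) (by positivity)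
      _ ≤ (4 * (2 * ((n : ℝ) + 1)) * (58 * L)) * (10 ^ 7 / R) ^ (n + 1) := by gcongr
      _ ≤ 10 ^ 5 * ((n : ℝ) + 1) * L * (10 ^ 7 / R) ^ (n + 1) := by
          have : 0 ≤ ((n : ℝ) + 1) * L * (10 ^ 7 / R) ^ (n + 1) := by positivity
          linarith

/-- FN 3 -/
theorem bnd_sum {L k K : ℕ} (hL : 1 ≤ L) (hk : 1 ≤ k) (hR : 10 ^ 20 * (L : ℝ) ^ 2 ≤ (K : ℝ) / k)
    (N : ℕ) : ∑ n ∈ range N, bnd L k K n ≤ 1 / (40 * (L : ℝ)) := by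
  obtain ⟨hL', hk', hR', hK⟩ := fn_R hL hk hR
  obtain ⟨R, hRd⟩ : ∃ R, R = (K : ℝ) / k := ⟨_, rfl⟩
  unfold bnd
  rw [← hRd] at hR' hR ⊢
  have hR0 : 0 < R := by linarith
  obtain ⟨y, hy⟩ : ∃ y, y = 10 ^ 7 / R := ⟨_, rfl⟩
  rw [← hy]
  have hy0 : 0 ≤ y := by rw [hy]; positivity
  have hy1 : y ≤ 1 / 4 := by
    rw [hy, div_le_iff₀ hR0]
    linarith
  have h1 : ∀ n ∈ range N, 10 ^ 5 * ((n : ℝ) + 1) * L * y ^ (n + 1) ≤
      10 ^ 5 * L * y * (2 * y) ^ n := by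
    intro n _
    have h2 : (n : ℝ) + 1 ≤ 2 ^ n := by
      have := Nat.lt_two_pow_self (n := n)
      exact_mod_cast this
    calc 10 ^ 5 * ((n : ℝ) + 1) * L * y ^ (n + 1) = 10 ^ 5 * L * y * (((n : ℝ) + 1) * y ^ n) := by
          ring
      _ ≤ 10 ^ 5 * L * y * (2 ^ n * y ^ n) := by gcongr
      _ = _ := by rw [mul_pow]
  refine (Finset.sum_le_sum h1).trans ?_
  rw [← Finset.mul_sum]
  have hz0 : 0 ≤ 2 * y := by linarith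
  have hz1 : 2 * y < 1 := by linarith
  have h3 : ∑ n ∈ range N, (2 * y) ^ n ≤ 2 := by
    have h4 := (summable_geometric_of_lt_one hz0 hz1).sum_le_tsum (range N)
      fun j _ => pow_nonneg hz0 j
    rw [tsum_geometric_of_lt_one hz0 hz1] at h4
    refine h4.trans ?_
    rw [inv_le_comm₀ (by linarith) (by norm_num)]
    linarith
  calc 10 ^ 5 * (L : ℝ) * y * ∑ n ∈ range N, (2 * y) ^ n ≤ 10 ^ 5 * (L : ℝ) * y * 2 :=
        mul_le_mul_of_nonneg_left h3 (by positivity)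
    _ ≤ 1 / (40 * (L : ℝ)) := by
        have hL0 : (0 : ℝ) < L := by linarith
        rw [hy, le_div_iff₀ (by positivity)]
        have e1 : 10 ^ 5 * (L : ℝ) * (10 ^ 7 / R) * 2 * (40 * L) =
            (80 * 10 ^ 12 * (L : ℝ) ^ 2) / R := by ring
        rw [e1, div_le_one hR0]
        have : 0 ≤ (L : ℝ) ^ 2 := by positivity
        linarith

end Pool.Agent.H95.AED
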