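import Pool.Agent.H95.AED.NU
import Pool.Agent.H95.AED.FN

/-!
# AED FC: common lemmas for the cycle families (FF and FI)
-/

set_option autoImplicit false

open Finset

namespace Pool.Agent.H95.AED

/-- the parameters of the family theorem for the cycles of length `2n+4` -/
theorem exists_case {V : Type} [Fintype V] {G : SimpleGraph V} {r : V → ℕ} {k K L : ℕ}
    (h : Hyp G r k K L) (n : ℕ) :
    ∃ θ H : ℝ, Case L n θ H ∧ 1 ≤ θ ∧ 2 * θ ^ 2 ≤ (K : ℝ) / k ∧ θ ^ (2 * L + 3) ≤ H ∧
      ∀ m', m' ≤ (2 * n + 4) * (2 * L + 3) → Th L K m' ≤ θ ^ m' := by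
  obtain ⟨hkK, hK1, hR, hL3, hk, hL⟩ := h.num
  have hL1 := h.oneL
  have hR' : (10 : ℝ) ^ 20 ≤ (K : ℝ) / k := by
    refine le_trans ?_ hR
    have : (1 : ℝ) ≤ (L : ℝ) ^ 2 := one_le_pow₀ hL
    nlinarith
  by_cases hn : n ≤ 2 * L + 3
  · have hθ1 : (1 : ℝ) ≤ 1 + 1 / (L : ℝ) := by
      have : (0 : ℝ) ≤ 1 / (L : ℝ) := by positivity
      linarith
    have hθ2 : 1 + 1 / (L : ℝ) ≤ 2 := by
      have : 1 / (L : ℝ) ≤ 1 := by
        rw [div_le_one (by linarith)]
        exact hL
      linarith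
    refine ⟨1 + 1 / (L : ℝ), 150, Or.inl ⟨hn, hθ1, hθ2, rfl⟩, hθ1, ?_, ?_, ?_⟩
    · have : (1 + 1 / (L : ℝ)) ^ 2 ≤ 2 ^ 2 := pow_le_pow_left₀ (by linarith) hθ2 2
      refine le_trans ?_ hR'
      nlinarith
    · exact pow_small hL1 le_rfl
    · intro m' hm'
      refine le_of_eq (Th_small ?_)
      have h1 : m' ≤ (2 * (2 * L + 3) + 4) * (2 * L + 3) := by
        refine hm'.trans ?_
        gcongr
      have h2 : (2 * (2 * L + 3) + 4) * (2 * L + 3) ≤ 70 * L ^ 2 := by nlinarith
      have h3 : 4 * L * m' ≤ 280 * L ^ 3 := by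
        calc 4 * L * m' ≤ 4 * L * (70 * L ^ 2) := by
              gcongr
              exact h1.trans h2
          _ = 280 * L ^ 3 := by ring
      have h4 : ((280 * L ^ 3 : ℕ) : ℝ) ≤ (K : ℝ) := by
        push_cast
        refine le_trans ?_ hL3
        have : (0 : ℝ) ≤ (L : ℝ) ^ 3 := by positivity
        nlinarith
      have h5 : 280 * L ^ 3 ≤ K := by exact_mod_cast h4
      exact h3.trans h5
  · refine ⟨6, 6 ^ (2 * L + 3), Or.inr ⟨by omega, rfl, rfl⟩, by norm_num, ?_, le_rfl, ?_⟩
    · refine le_trans ?_ hR'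
      norm_num
    · intro m' _
      exact Th_le hL1

theorem card_even (n : ℕ) :
    ((univ : Finset (Fin (2 * n + 4))).filter (fun i => i.val % 2 = 0)).card = n + 2 := by
  have h : (univ : Finset (Fin (2 * n + 4))).filter (fun i => i.val % 2 = 0) =
      (univ : Finset (Fin (n + 2))).image (fun j => (⟨2 * j.val, by omega⟩ : Fin (2 * n + 4))) := by
    ext i
    simp only [mem_filter, mem_univ, true_and, mem_image]
    constructor
    · intro hi
      exact ⟨⟨i.val / 2, by omega⟩, by ext; simp only; omega⟩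
    · rintro ⟨j, rfl⟩
      simp
  rw [h, card_image_of_injective, card_univ, Fintype.card_fin]
  intro a b hab
  simp only [Fin.mk.injEq] at hab
  ext
  omega

theorem card_odd (n : ℕ) :
    ((univ : Finset (Fin (2 * n + 4))).filter (fun i => ¬ i.val % 2 = 0)).card = n + 2 := by
  have h := card_filter_add_card_filter_not (s := (univ : Finset (Fin (2 * n + 4))))
    (fun i => i.val % 2 = 0)
  rw [card_even, card_univ, Fintype.card_fin] at h
  omega

theorem card_ext_even (n : ℕ) :
    ((univ : Finset (Fin (2 * n + 4))).filter (fun i => i.val % 2 = 0 ∧ 2 ≤ i.val)).card = n + 1 := by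
  have h : (univ : Finset (Fin (2 * n + 4))).filter (fun i => i.val % 2 = 0 ∧ 2 ≤ i.val) =
      (univ : Finset (Fin (n + 1))).image
        (fun j => (⟨2 * j.val + 2, by omega⟩ : Fin (2 * n + 4))) := by
    ext i
    simp only [mem_filter, mem_univ, true_and, mem_image]
    constructor
    · rintro ⟨hi, hi2⟩
      exact ⟨⟨i.val / 2 - 1, by omega⟩, by ext; simp only; omega⟩
    · rintro ⟨j, rfl⟩
      simp
  rw [h, card_image_of_injective, card_univ, Fintype.card_fin]
  intro a b hab
  simp only [Fin.mk.injEq] at hab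
  ext
  omega

theorem card_ext_two (n : ℕ) :
    ((univ : Finset (Fin (2 * n + 4))).filter (fun i => 2 ≤ i.val)).card = 2 * n + 2 := by
  have h : (univ : Finset (Fin (2 * n + 4))).filter (fun i => 2 ≤ i.val) =
      (univ : Finset (Fin (2 * n + 2))).image
        (fun j => (⟨j.val + 2, by omega⟩ : Fin (2 * n + 4))) := by
    ext i
    simp only [mem_filter, mem_univ, true_and, mem_image]
    constructor
    · intro hi
      exact ⟨⟨i.val - 2, by omega⟩, by ext; simp only; omega⟩
    · rintro ⟨j, rfl⟩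
      simp
  rw [h, card_image_of_injective, card_univ, Fintype.card_fin]
  intro a b hab
  simp only [Fin.mk.injEq] at hab
  ext
  omega

/-- a product over all indices but one, the bound depending on the parity -/
theorem prod_erase_parity (n : ℕ) {f : Fin (2 * n + 4) → ℝ} {a b : ℝ} (hf : ∀ j, 0 ≤ f j)
    (ha : ∀ j, j.val % 2 = 0 → f j ≤ a) (hb : ∀ j, ¬ j.val % 2 = 0 → f j ≤ b)
    (i : Fin (2 * n + 4)) :
    ∏ j ∈ univ.erase i, f j ≤
      if i.val % 2 = 0 then a ^ (n + 1) * b ^ (n + 2) else a ^ (n + 2) * b ^ (n + 1) := by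
  have h1 : ∏ j ∈ univ.erase i, f j ≤ ∏ j ∈ univ.erase i, (if j.val % 2 = 0 then a else b) := by
    refine prod_le_prod (fun j _ => hf j) (fun j _ => ?_)
    split_ifs with hj
    · exact ha j hj
    · exact hb j hj
  refine h1.trans (le_of_eq ?_)
  rw [prod_ite, prod_const, prod_const, filter_erase, filter_erase]
  split_ifs with hi
  · rw [card_erase_of_mem (by simp [hi]), erase_eq_of_notMem (by simp [hi]), card_even, card_odd]
    rfl
  · rw [card_erase_of_mem (s := univ.filter (fun i : Fin (2 * n + 4) => ¬ i.val % 2 = 0))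
      (mem_filter.mpr ⟨mem_univ _, hi⟩), erase_eq_of_notMem (by simp [hi]), card_even, card_odd]
    rfl

/-- a sum whose terms depend on the parity -/
theorem sum_parity (n : ℕ) {f : Fin (2 * n + 4) → ℝ} {a b : ℝ}
    (ha : ∀ j, j.val % 2 = 0 → f j ≤ a) (hb : ∀ j, ¬ j.val % 2 = 0 → f j ≤ b) :
    ∑ j, f j ≤ (n + 2) * a + (n + 2) * b := by
  have h1 : ∑ j, f j ≤ ∑ j : Fin (2 * n + 4), (if j.val % 2 = 0 then a else b) := by
    refine sum_le_sum (fun j _ => ?_)
    split_ifs with hj
    · exact ha j hj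
    · exact hb j hj
  refine h1.trans (le_of_eq ?_)
  rw [sum_ite, sum_const, sum_const, card_even, card_odd]
  simp only [nsmul_eq_mul]
  push_cast
  ring

end Pool.Agent.H95.AED
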