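import Pool.Agent.H95.AED.FA
import Pool.Agent.H95.AED.CF
import Pool.Agent.H95.AED.FN
import Pool.Agent.H95.AED.CM

/-!
# AED FF: bichromatic cycles without the extra colour

Configuration: `X = CX G n`, `m = 2n+4`, `e i x = ee r x.1 i` (CF 1, CF 2), `lam i = range (L+1)`, `cov i = true` (so `HCov` is void),
`ext = univ.filter (fun i => 2 ≤ i.val)` (`2n+2` elements), `rho i = ⟨i.val % 2, _⟩`. `θ = 1 + 1/L`, `H = 150` if `n ≤ 2L+3` (then
`4 L (2n+4)(2L+3) ≤ 280 L³ ≤ K`, NU 4), else `θ = 6`, `H = 6^(2L+3)` (NU 4'). `M i = 4 (4kK)^(n+1)` (CF 3). `∑_s SB ≤ 2(L+2)H` (NU 8),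
`SA ≤ 1 + 2θ` (NU 6), product over `2n+3` indices; FN 1.
-/

set_option autoImplicit false

open Finset

namespace Pool.Agent.H95.AED

theorem ff_case {L K : ℕ} (hL : 1 ≤ L) (hK : 10 ^ 20 * L ^ 3 ≤ K) (n : ℕ) :
    ∃ θ H : ℝ, Case L n θ H ∧ 1 ≤ θ ∧ θ ≤ 6 ∧ θ ^ (2 * L + 3) ≤ H ∧
      ∀ m', m' ≤ (2 * n + 4) * (2 * L + 3) → Th L K m' ≤ θ ^ m' := by
  have hL' : (1 : ℝ) ≤ L := by exact_mod_cast hL
  have h1L : 1 / (L : ℝ) ≤ 1 := by
    rw [div_le_one (by linarith)]
    exact hL'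
  have h1L0 : 0 < 1 / (L : ℝ) := by positivity
  by_cases hn : n ≤ 2 * L + 3
  · refine ⟨1 + 1 / (L : ℝ), 150, Or.inl ⟨hn, by linarith, by linarith, rfl⟩, by linarith,
      by linarith, pow_small hL le_rfl, ?_⟩
    intro m' hm'
    refine le_of_eq (Th_small ?_)
    have h1 : (2 * n + 4) * (2 * L + 3) ≤ 14 * L * (5 * L) :=
      Nat.mul_le_mul (by omega) (by omega)
    calc 4 * L * m' ≤ 4 * L * (14 * L * (5 * L)) := Nat.mul_le_mul_left _ (hm'.trans h1)
      _ = 280 * L ^ 3 := by ring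
      _ ≤ 10 ^ 20 * L ^ 3 := Nat.mul_le_mul_right _ (by norm_num)
      _ ≤ K := hK
  · exact ⟨6, 6 ^ (2 * L + 3), Or.inr ⟨by omega, rfl, rfl⟩, by norm_num, le_rfl, le_rfl,
      fun m' _ => Th_le hL⟩

theorem ff_card (m : ℕ) : ((univ : Finset (Fin (2 * m + 4))).filter (fun i => 2 ≤ i.val)).card =
    2 * m + 2 := by
  have h1 : (univ : Finset (Fin (2 * m + 4))).filter (fun i => 2 ≤ i.val) =
      Finset.Ici ⟨2, by omega⟩ := by
    ext i
    simp only [mem_filter, mem_univ, true_and, mem_Ici, Fin.le_def]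
  rw [h1, Fin.card_Ici]
  simp only
  omega

/-- FF -/
theorem fam_fin {V : Type} [Fintype V] (G : SimpleGraph V) (r : V → ℕ) {k K L : ℕ}
    (h : Hyp G r k K L) (n : ℕ) :
    Small (Rel G) L K (bnd L k K n) (fun q => ∀ x : CX G n, ¬ ((∀ i, (tx G r L q x.1 i).length ≤ L) ∧
      ∀ i : Fin (2 * n + 4), gx G r L q x.1 i = gx G r L q x.1 ⟨i.val % 2, by omega⟩)) := by
  classical
  obtain ⟨hkK, hK1, hR, hL3, hk1, hL1⟩ := h.num
  have hL3' : 10 ^ 20 * L ^ 3 ≤ K := by exact_mod_cast hL3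
  obtain ⟨θ, H, hcase, hθ, hθ6, hH, hTh⟩ := ff_case h.oneL hL3' n
  have hR72 : 2 * θ ^ 2 ≤ (K : ℝ) / k := by
    have h1 : θ ^ 2 ≤ 6 ^ 2 := pow_le_pow_left₀ (by linarith) hθ6 2
    have h2 : (1 : ℝ) ≤ (L : ℝ) ^ 2 := one_le_pow₀ hL1
    nlinarith
  let c : Cfg G r L :=
    { X := CX G n
      fin := inferInstance
      m := 2 * n + 4
      e := fun i x => ee r x.1 i
      lam := fun _ => range (L + 1)
      cov := fun _ => true
      ext := univ.filter (fun i => 2 ≤ i.val)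
      rho := fun i => ⟨i.val % 2, by omega⟩
      hm := by omega
      hup := fun i x => ee_upe G r x i
      hdist := fun i j x hij => ee_dist G r x i j hij
      hrho := by
        intro i hi hc
        simp only [mem_filter, mem_univ, true_and] at hc
        omega
      hlam := by
        intro i l hl
        rw [mem_range] at hl
        omega }
  have hK0 : (0 : ℝ) < K := by exact_mod_cast hK1
  have hH0 : 0 ≤ H := le_trans (by positivity) hH
  have hsm := fam c h.one hK1 h.up' h.deg' hθ hTh (fun _ => 4 * (4 * (k : ℝ) * K) ^ (n + 1))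
    (fun i g => ee_count G r hkK h.up' h.deg' n i g)
    (fun x t hv i hi => absurd hi (by simp [c]))
  refine hsm.mono ?_ ?_
  · refine le_trans ?_ (num_fin h.oneL h.one hR hcase)
    have hc : c.ext.card = 2 * n + 2 := ff_card n
    unfold Cfg.BB
    rw [hc]
    refine div_le_div_of_nonneg_right ?_ (by positivity)
    refine mul_le_mul_of_nonneg_left ?_ (by norm_num)
    have hterm : ∀ i : Fin (2 * n + 4), (4 * (4 * (k : ℝ) * K) ^ (n + 1)) *
        (∑ s ∈ range (L + 2), SB θ ((K : ℝ) / k) (range (L + 1)) s) *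
        ∏ j ∈ (univ : Finset (Fin (2 * n + 4))).erase i, SA θ ((K : ℝ) / k) true (range (L + 1)) ≤
        (4 * (4 * (k : ℝ) * K) ^ (n + 1)) * (2 * (L + 2) * H) * (1 + 2 * θ) ^ (2 * n + 3) := by
      intro i
      rw [Finset.prod_const, Finset.card_erase_of_mem (mem_univ _), Finset.card_univ,
        Fintype.card_fin]
      have e : 2 * n + 4 - 1 = 2 * n + 3 := by omega
      rw [e]
      have hSA0 := SA_nonneg hθ (by linarith [hR72, sq_nonneg θ] : (0 : ℝ) ≤ (K : ℝ) / k) true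
        (range (L + 1))
      refine mul_le_mul ?_ (pow_le_pow_left₀ hSA0 (SA_le hθ hR72 _ _) _) (by positivity)
        (by positivity)
      exact mul_le_mul_of_nonneg_left (SB_sum hθ hR72 _ _ hH) (by positivity)
    refine (Finset.sum_le_sum fun i _ => hterm i).trans (le_of_eq ?_)
    rw [Finset.sum_const, nsmul_eq_mul, Finset.card_univ, Fintype.card_fin]
    push_cast
    ring
  · intro q _ hq x hx
    refine hq x ⟨?_, ?_⟩
    · intro i
      show (tx G r L q x.1 i).length ∈ range (L + 1)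
      rw [mem_range]
      have := hx.1 i
      omega
    · intro i _
      exact hx.2 i

end Pool.Agent.H95.AED
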