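import Pool.Agent.H95.AED.FA
import Pool.Agent.H95.AED.CF
import Pool.Agent.H95.AED.FN
import Pool.Agent.H95.AED.FC

/-!
# AED FI: bichromatic cycles with the extra colour

Configuration: `X = CX G n`, `m = 2n+4`, `e i x = ee r x.1 i`; `i` even: `lam i = range (L+1)`, `cov i = true`; `i` odd: `lam i = {L+1}`,
`cov i = false`; `ext` = even `i ≥ 2` (`n+1` elements), `rho i = 0`. `HCov`: for odd `i` the chain of `e i x` has length `L+1`; if
`e i x` were at level `s ≥ 1` of the chain of `e j x` then its chain would be the `s`-th suffix of a list of length `≤ L+1`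
(TL 5, TL 2), so shorter. `θ`, `H` as in FF. `M i = 2 K^(2n+2)` (CF 4). `i` odd (`n+2` of them): `∑_s SB ≤ 4H` (NU 9),
the other factors: `n+1` odd ones `≤ 2θ(θ²/R)^(L+1)` (NU 7, `l₀ = L+1`), `n+2` even ones `≤ 1+2θ` (NU 6). `i` even (`n+2`): `∑_s SB ≤ 2(L+2)H`,
`n+2` odd factors, `n+1` even ones. FN 2.
-/

set_option autoImplicit false

open Finset

namespace Pool.Agent.H95.AED

open Classical in
/-- the configuration of the cycles with the extra colour -/
noncomputable def cfgI {V : Type} [Fintype V] (G : SimpleGraph V) (r : V → ℕ) (L n : ℕ) :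
    Cfg G r L where
  X := CX G n
  fin := inferInstance
  m := 2 * n + 4
  e := fun i x => ee r x.1 i
  lam := fun i => if i.val % 2 = 0 then range (L + 1) else {L + 1}
  cov := fun i => decide (i.val % 2 = 0)
  ext := univ.filter (fun i => i.val % 2 = 0 ∧ 2 ≤ i.val)
  rho := fun _ => 0
  hm := by omega
  hup := fun i x => ee_upe G r x i
  hdist := fun i j x hij => ee_dist G r x i j hij
  hrho := by intro i _; simp
  hlam := by
    intro i l hl
    split_ifs at hl with hi
    · have := mem_range.mp hl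
      omega
    · have := mem_singleton.mp hl
      omega

theorem cfgI_HCov {V : Type} [Fintype V] (G : SimpleGraph V) (r : V → ℕ) (L n K : ℕ) :
    (cfgI G r L n).HCov K := by
  intro x t hv i hi j s hs1 hs he
  obtain ⟨q, hq, ht, ho⟩ := hv
  have hi' : ¬ i.val % 2 = 0 := by
    simpa [cfgI] using hi
  have h1 := ho.1 i
  have h2 : (Tq G r L q ((cfgI G r L n).e i x).1 ((cfgI G r L n).e i x).2).length = L + 1 := by
    have h3 : (cfgI G r L n).lam i = {L + 1} := by
      simp [cfgI, hi']
    rw [h3] at h1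
    exact mem_singleton.mp h1
  rw [ht j] at hs he
  have h4 := Tq_lev G r L q _ _ s hs
  rw [he] at h4
  rw [h4] at h2
  have h5 := Tq_len G r L q ((cfgI G r L n).e j x).1 ((cfgI G r L n).e j x).2
  rw [List.length_drop] at h2
  omega

/-- FI -/
theorem fam_inf {V : Type} [Fintype V] (G : SimpleGraph V) (r : V → ℕ) {k K L : ℕ}
    (h : Hyp G r k K L) (hk2 : k ≤ 2 ^ (L - 1)) (n : ℕ) :
    Small (Rel G) L K (bnd L k K n) (fun q => ∀ x : CX G n,
      ¬ ((∀ i : Fin (2 * n + 4), i.val % 2 = 0 → (tx G r L q x.1 i).length ≤ L ∧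
          gx G r L q x.1 i = gx G r L q x.1 0) ∧
        ∀ i : Fin (2 * n + 4), i.val % 2 = 1 → (tx G r L q x.1 i).length = L + 1)) := by
  classical
  obtain ⟨θ, H, hc, hθ, hR, hH, hTh⟩ := exists_case h n
  obtain ⟨hkK, hK1, hR2, hL3, hk, hL⟩ := h.num
  have hfam := fam (cfgI G r L n) h.one hK1 h.up' h.deg' hθ hTh
    (fun _ => 2 * (K : ℝ) ^ (2 * n + 2)) (by
      intro i g
      have h1 := ee_count_crude G r h.deg' n i g
      refine le_trans (le_of_eq ?_) h1
      refine congrArg Nat.cast (Finset.card_bij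
        (fun (x : (cfgI G r L n).X) _ => (x : CX G n)) ?_ ?_ ?_)
      · intro x hx
        exact mem_filter.mpr ⟨mem_univ _, (mem_filter.mp hx).2⟩
      · intro x _ y _ hxy
        exact hxy
      · intro y hy
        exact ⟨y, mem_filter.mpr ⟨mem_univ _, (mem_filter.mp hy).2⟩, rfl⟩) (cfgI_HCov G r L n K)
  obtain ⟨ι, hι, P, hP1, hP2⟩ := hfam
  have hR0 : (0 : ℝ) ≤ (K : ℝ) / k := le_trans (by positivity) hR
  have hS0 : (0 : ℝ) ≤ 2 * θ * (θ ^ 2 / ((K : ℝ) / k)) ^ (L + 1) := by positivity
  have hθ0 : (0 : ℝ) ≤ 1 + 2 * θ := by linarith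
  have hH0 : 0 ≤ H := le_trans (by positivity) hH
  refine ⟨ι, hι, P, fun d => (hP1 d).trans ?_, fun q hq hv x hx => hP2 q hq hv x ?_⟩
  · refine le_trans ?_ (num_inf h.oneL h.one hk2 hR2 hc)
    unfold Cfg.BB
    have he : (cfgI G r L n).ext.card = n + 1 := card_ext_even n
    rw [he]
    refine div_le_div_of_nonneg_right (mul_le_mul_of_nonneg_left ?_ (by norm_num)) (by positivity)
    set S := 2 * θ * (θ ^ 2 / ((K : ℝ) / k)) ^ (L + 1) with hS
    have hprod : ∀ i : Fin (2 * n + 4), ∏ j ∈ univ.erase i,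
        SA θ ((K : ℝ) / k) ((cfgI G r L n).cov j) ((cfgI G r L n).lam j) ≤
        if i.val % 2 = 0 then (1 + 2 * θ) ^ (n + 1) * S ^ (n + 2)
          else (1 + 2 * θ) ^ (n + 2) * S ^ (n + 1) := by
      intro i
      refine prod_erase_parity n (f := fun j => SA θ ((K : ℝ) / k) ((cfgI G r L n).cov j)
        ((cfgI G r L n).lam j)) (fun j => SA_nonneg hθ hR0 _ _) (fun j hj => SA_le hθ hR _ _)
        (fun j hj => ?_) i
      have hcv : (cfgI G r L n).cov j = false := by
        simp [cfgI, hj]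
      have hlm : (cfgI G r L n).lam j = {L + 1} := by
        simp [cfgI, hj]
      simp only [hcv, hlm]
      exact SA_tail hθ hR {L + 1} (L + 1) (fun l hl => (mem_singleton.mp hl).ge)
    have hprod0 : ∀ i : Fin (2 * n + 4), 0 ≤ ∏ j ∈ univ.erase i,
        SA θ ((K : ℝ) / k) ((cfgI G r L n).cov j) ((cfgI G r L n).lam j) :=
      fun i => prod_nonneg (fun j _ => SA_nonneg hθ hR0 _ _)
    have hM : (0 : ℝ) ≤ 2 * (K : ℝ) ^ (2 * n + 2) := by positivity
    have hsum := sum_parity n (f := fun i => 2 * (K : ℝ) ^ (2 * n + 2) *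
      (∑ s ∈ range (L + 2), SB θ ((K : ℝ) / k) ((cfgI G r L n).lam i) s) *
      ∏ j ∈ univ.erase i, SA θ ((K : ℝ) / k) ((cfgI G r L n).cov j) ((cfgI G r L n).lam j))
      (a := 2 * (K : ℝ) ^ (2 * n + 2) * (2 * (L + 2) * H) * ((1 + 2 * θ) ^ (n + 1) * S ^ (n + 2)))
      (b := 2 * (K : ℝ) ^ (2 * n + 2) * (4 * H) * ((1 + 2 * θ) ^ (n + 2) * S ^ (n + 1)))
      (fun j hj => by
        have h1 := hprod j
        rw [if_pos hj] at h1
        have h2 := SB_sum hθ hR ((cfgI G r L n).lam j) L hH
        have h3 : (0 : ℝ) ≤ 2 * (L + 2) * H := by positivity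
        exact mul_le_mul (mul_le_mul_of_nonneg_left h2 hM) h1 (hprod0 j)
          (mul_nonneg hM h3))
      (fun j hj => by
        have h1 := hprod j
        rw [if_neg hj] at h1
        have hlm : (cfgI G r L n).lam j = {L + 1} := by
          simp [cfgI, hj]
        have h2 := SB_sum_tail hθ hR ((cfgI G r L n).lam j) L hH (by
          intro l hl
          rw [hlm] at hl
          have := mem_singleton.mp hl
          omega)
        have h3 : (0 : ℝ) ≤ 4 * H := by positivity
        exact mul_le_mul (mul_le_mul_of_nonneg_left h2 hM) h1 (hprod0 j)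
          (mul_nonneg hM h3))
    refine hsum.trans (le_of_eq ?_)
    ring
  · refine ⟨fun i => ?_, fun i hi => ?_⟩
    · by_cases hi : i.val % 2 = 0
      · have hlm : (cfgI G r L n).lam i = range (L + 1) := by
          simp [cfgI, hi]
        rw [hlm, mem_range]
        have := (hx.1 i hi).1
        exact Nat.lt_succ_of_le this
      · have hlm : (cfgI G r L n).lam i = {L + 1} := by
          simp [cfgI, hi]
        rw [hlm, mem_singleton]
        exact hx.2 i (by omega)
    · have hi' : i.val % 2 = 0 ∧ 2 ≤ i.val :=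
        (mem_filter (s := univ) (p := fun i : Fin (2 * n + 4) => i.val % 2 = 0 ∧ 2 ≤ i.val)
          (a := i)).mp hi |>.2
      exact (hx.1 i hi'.1).2

end Pool.Agent.H95.AED
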