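import Pool.Agent.H95.AED.Def

/-!
# AED NU: consequences of the hypotheses and sums of weights

`R = K/k`. NU 1: `Nat.card` of the subtype is the card of the filter. NU 2: `10^20 (k + L) L² ≤ K`, `k, L ≥ 1`.
NU 3: `(1 + 1/L)^(2L+3) ≤ exp ((2L+3)/L) ≤ exp 5 ≤ 150` (`Real.add_one_le_exp`, `Real.exp_one_lt_d9`), so for `1 ≤ θ ≤ 1 + 1/L`
all powers with exponent `≤ 2L+3` are `≤ 150`. NU 4: definition of `Th`.
NU 5-8: `θ²/R ≤ 1/2`, geometric series: `∑_{l ∈ lam, l ≥ s} θ^(1+2l)/R^(l-s) ≤ θ^(1+2s) ∑_{j ≥ 0} (θ²/R)^j ≤ 2 θ^(1+2s)`.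
-/

set_option autoImplicit false

open Finset

namespace Pool.Agent.H95.AED

section

variable {V : Type} [Fintype V] {G : SimpleGraph V} {r : V → ℕ} {k K L : ℕ}

open Classical in
/-- NU 1 -/
theorem Hyp.up' (h : Hyp G r k K L) (v : V) : (univ.filter (fun a => Upe G r v a)).card ≤ k := by
  have h1 := h.up v
  rw [Nat.card_eq_fintype_card, Fintype.card_subtype] at h1
  exact h1

open Classical in
/-- NU 1' -/
theorem Hyp.deg' (h : Hyp G r k K L) (v : V) : (univ.filter (fun a => G.Adj v a)).card ≤ K := by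
  have h1 := h.deg v
  rw [Nat.card_eq_fintype_card, Fintype.card_subtype] at h1
  exact h1

/-- NU 2 -/
theorem Hyp.num (h : Hyp G r k K L) : k ≤ K ∧ 1 ≤ K ∧ 10 ^ 20 * (L : ℝ) ^ 2 ≤ (K : ℝ) / k ∧
    10 ^ 20 * (L : ℝ) ^ 3 ≤ (K : ℝ) ∧ (1 : ℝ) ≤ k ∧ (1 : ℝ) ≤ L := by
  have hk := h.one
  have hL := h.oneL
  have hk' : (1 : ℝ) ≤ k := by exact_mod_cast hk
  have hL' : (1 : ℝ) ≤ L := by exact_mod_cast hL
  have hb : 10 ^ 20 * ((k : ℝ) + L) * (L : ℝ) ^ 2 ≤ K := by exact_mod_cast h.big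
  have hL2 : (1 : ℝ) ≤ (L : ℝ) ^ 2 := one_le_pow₀ hL'
  have h1 : (k : ℝ) ≤ K := by
    refine le_trans ?_ hb
    nlinarith [mul_nonneg (show (0 : ℝ) ≤ k by linarith) (show (0 : ℝ) ≤ (L : ℝ) ^ 2 - 1 by linarith)]
  have h2 : k ≤ K := by exact_mod_cast h1
  refine ⟨h2, hk.trans h2, ?_, ?_, hk', hL'⟩
  · rw [le_div_iff₀ (by linarith)]
    refine le_trans ?_ hb
    have h3 : 0 ≤ (L : ℝ) * (L : ℝ) ^ 2 := by positivity
    nlinarith
  · refine le_trans ?_ hb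
    have h3 : 0 ≤ (k : ℝ) * (L : ℝ) ^ 2 := by positivity
    nlinarith

open Classical in
/-- NU 1'': all hubs have at most `K` slots -/
theorem Hyp.slots (h : Hyp G r k K L) (b : Hub V) :
    (univ.filter (fun s => Rel G b s)).card ≤ K := by
  cases b with
  | inl v =>
    have h1 : univ.filter (fun s => Rel G (Sum.inl v) s) ⊆
        (univ.filter (fun a => G.Adj v a)).image some := by
      intro s hs
      rw [Finset.mem_filter] at hs
      cases s with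
      | none => exact absurd hs.2 (by simp [Rel])
      | some a =>
        exact Finset.mem_image.2 ⟨a, Finset.mem_filter.2 ⟨Finset.mem_univ _, hs.2⟩, rfl⟩
    exact (Finset.card_le_card h1).trans (Finset.card_image_le.trans (h.deg' v))
  | inr e =>
    have h1 : univ.filter (fun s => Rel G (Sum.inr e) s) ⊆ {none} := by
      intro s hs
      rw [Finset.mem_filter] at hs
      cases s with
      | none => exact Finset.mem_singleton_self _
      | some a => exact absurd hs.2 (by simp [Rel])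
    refine (Finset.card_le_card h1).trans ?_
    rw [Finset.card_singleton]
    exact h.num.2.1

end

/-- NU 3 -/
theorem pow_small {L : ℕ} (hL : 1 ≤ L) {j : ℕ} (hj : j ≤ 2 * L + 3) :
    (1 + 1 / (L : ℝ)) ^ j ≤ 150 := by
  have hL' : (1 : ℝ) ≤ L := by exact_mod_cast hL
  have h0 : (0 : ℝ) < L := by linarith
  have h1 : (1 : ℝ) ≤ 1 + 1 / (L : ℝ) := by
    have : 0 < 1 / (L : ℝ) := by positivity
    linarith
  have h2 : 1 + 1 / (L : ℝ) ≤ Real.exp (1 / L) := by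
    have := Real.add_one_le_exp (1 / (L : ℝ))
    linarith
  have h3 : (1 + 1 / (L : ℝ)) ^ j ≤ Real.exp 5 := by
    calc (1 + 1 / (L : ℝ)) ^ j ≤ (1 + 1 / (L : ℝ)) ^ (2 * L + 3) := pow_le_pow_right₀ h1 hj
      _ ≤ Real.exp (1 / L) ^ (2 * L + 3) := pow_le_pow_left₀ (by linarith) h2 _
      _ = Real.exp (((2 * L + 3 : ℕ) : ℝ) * (1 / L)) := by rw [← Real.exp_nat_mul]
      _ ≤ Real.exp 5 := by
          refine Real.exp_le_exp.2 ?_
          push_cast
          rw [mul_one_div, div_le_iff₀ h0]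
          linarith
  have h4 : Real.exp 5 = Real.exp 1 ^ 5 := by
    rw [← Real.exp_nat_mul]
    norm_num
  have h5 : Real.exp 1 ≤ 2.72 := by
    have := Real.exp_one_lt_d9
    linarith
  calc _ ≤ Real.exp 1 ^ 5 := by rw [← h4]; exact h3
    _ ≤ 2.72 ^ 5 := pow_le_pow_left₀ (Real.exp_pos 1).le h5 5
    _ ≤ 150 := by norm_num

/-- NU 4 -/
theorem Th_small {L K m : ℕ} (h : 4 * L * m ≤ K) : Th L K m = (1 + 1 / (L : ℝ)) ^ m := by
  unfold Th
  rw [if_pos h]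

/-- NU 4' -/
theorem Th_le {L K m : ℕ} (hL : 1 ≤ L) : Th L K m ≤ 6 ^ m := by
  have hL' : (1 : ℝ) ≤ L := by exact_mod_cast hL
  have h0 : (0 : ℝ) < L := by linarith
  unfold Th
  split_ifs
  · refine pow_le_pow_left₀ (by positivity) ?_ m
    have : 1 / (L : ℝ) ≤ 1 := by
      rw [div_le_one h0]
      exact hL'
    linarith
  · exact le_rfl

private theorem nu_geo {x : ℝ} (h0 : 0 ≤ x) (h1 : x ≤ 1 / 2) (T : Finset ℕ) :
    ∑ j ∈ T, x ^ j ≤ 2 := by
  have hx : x < 1 := by linarith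
  have h2 := (summable_geometric_of_lt_one h0 hx).sum_le_tsum T fun j _ => pow_nonneg h0 j
  rw [tsum_geometric_of_lt_one h0 hx] at h2
  refine h2.trans ?_
  rw [inv_le_comm₀ (by linarith) (by norm_num)]
  linarith

private theorem nu_shift {x : ℝ} (h0 : 0 ≤ x) (h1 : x ≤ 1 / 2) (T : Finset ℕ) (s : ℕ)
    (hT : ∀ l ∈ T, s ≤ l) : ∑ l ∈ T, x ^ (l - s) ≤ 2 := by
  have h2 : ∑ j ∈ T.image (fun l => l - s), x ^ j = ∑ l ∈ T, x ^ (l - s) := by
    rw [Finset.sum_image]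
    intro a ha b hb hab
    have h3 := hT a ha
    have h4 := hT b hb
    simp only at hab
    omega
  rw [← h2]
  exact nu_geo h0 h1 _

private theorem nu_x {θ R : ℝ} (hθ : 1 ≤ θ) (hR : 2 * θ ^ 2 ≤ R) :
    0 < R ∧ 0 ≤ θ ^ 2 / R ∧ θ ^ 2 / R ≤ 1 / 2 := by
  have h1 : 1 ≤ θ ^ 2 := one_le_pow₀ hθ
  have h0 : 0 < R := by linarith
  refine ⟨h0, by positivity, ?_⟩
  rw [div_le_iff₀ h0]
  linarith

/-- NU 5 -/
theorem SB_le {θ R : ℝ} (hθ : 1 ≤ θ) (hR : 2 * θ ^ 2 ≤ R) (lam : Finset ℕ) (s : ℕ) :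
    SB θ R lam s ≤ 2 * θ ^ (1 + 2 * s) := by
  obtain ⟨hR0, hx0, hx1⟩ := nu_x hθ hR
  have hθ0 : 0 < θ := by linarith
  unfold SB
  have h1 : ∀ l ∈ lam.filter (fun l => s ≤ l), θ ^ (1 + 2 * l) / R ^ (l - s) =
      θ ^ (1 + 2 * s) * (θ ^ 2 / R) ^ (l - s) := by
    intro l hl
    have h2 := (Finset.mem_filter.1 hl).2
    have h3 : 1 + 2 * l = (1 + 2 * s) + 2 * (l - s) := by omega
    rw [h3, pow_add, pow_mul θ 2, div_pow]
    ring
  rw [Finset.sum_congr rfl h1, ← Finset.mul_sum, mul_comm]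
  refine mul_le_mul_of_nonneg_right ?_ (by positivity)
  exact nu_shift hx0 hx1 _ s fun l hl => (Finset.mem_filter.1 hl).2

/-- NU 6 -/
theorem SA_le {θ R : ℝ} (hθ : 1 ≤ θ) (hR : 2 * θ ^ 2 ≤ R) (cv : Bool) (lam : Finset ℕ) :
    SA θ R cv lam ≤ 1 + 2 * θ := by
  have h1 := SB_le hθ hR lam 0
  unfold SB at h1
  rw [Finset.filter_true_of_mem (fun _ _ => Nat.zero_le _)] at h1
  simp only [Nat.sub_zero, mul_zero, add_zero, pow_one] at h1
  unfold SA
  have h2 : (if cv = true then (1 : ℝ) else 0) ≤ 1 := by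
    split_ifs
    · exact le_rfl
    · norm_num
  linarith

/-- NU 7: chains of length at least `l₀`, never covered -/
theorem SA_tail {θ R : ℝ} (hθ : 1 ≤ θ) (hR : 2 * θ ^ 2 ≤ R) (lam : Finset ℕ) (l₀ : ℕ)
    (hl : ∀ l ∈ lam, l₀ ≤ l) : SA θ R false lam ≤ 2 * θ * (θ ^ 2 / R) ^ l₀ := by
  obtain ⟨hR0, hx0, hx1⟩ := nu_x hθ hR
  have hθ0 : 0 < θ := by linarith
  unfold SA
  have h0 : (if false = true then (1 : ℝ) else 0) = 0 := if_neg (by simp)
  rw [h0, zero_add]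
  have h1 : ∀ l ∈ lam, θ ^ (1 + 2 * l) / R ^ l =
      (θ * (θ ^ 2 / R) ^ l₀) * (θ ^ 2 / R) ^ (l - l₀) := by
    intro l hl'
    have h2 := hl l hl'
    rw [mul_assoc, ← pow_add, Nat.add_sub_cancel' h2, pow_add, pow_one, pow_mul, div_pow]
    ring
  rw [Finset.sum_congr rfl h1, ← Finset.mul_sum]
  calc _ ≤ (θ * (θ ^ 2 / R) ^ l₀) * 2 :=
        mul_le_mul_of_nonneg_left (nu_shift hx0 hx1 _ l₀ hl) (by positivity)
    _ = _ := by ring

/-- NU 8 -/
theorem SB_sum {θ R : ℝ} (hθ : 1 ≤ θ) (hR : 2 * θ ^ 2 ≤ R) (lam : Finset ℕ) (L : ℕ) {H : ℝ}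
    (hH : θ ^ (2 * L + 3) ≤ H) :
    ∑ s ∈ range (L + 2), SB θ R lam s ≤ 2 * (L + 2) * H := by
  have h1 : ∀ s ∈ range (L + 2), SB θ R lam s ≤ 2 * H := by
    intro s hs
    rw [Finset.mem_range] at hs
    refine (SB_le hθ hR lam s).trans ?_
    have h2 : θ ^ (1 + 2 * s) ≤ θ ^ (2 * L + 3) := pow_le_pow_right₀ hθ (by omega)
    linarith
  refine (Finset.sum_le_sum h1).trans (le_of_eq ?_)
  rw [Finset.sum_const, Finset.card_range, nsmul_eq_mul]
  push_cast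
  ring

/-- NU 9: only long chains: `lam ⊆ {l₀, .., L+1}`; the terms `l, s` are `θ^(1+2l) / R^(l-s)`, for fixed `l` their sum over `s ≤ l` is
`≤ 2 H`, and there are at most two `l` -/
theorem SB_sum_tail {θ R : ℝ} (hθ : 1 ≤ θ) (hR : 2 * θ ^ 2 ≤ R) (lam : Finset ℕ) (L : ℕ) {H : ℝ}
    (hH : θ ^ (2 * L + 3) ≤ H) (hl : ∀ l ∈ lam, L ≤ l ∧ l ≤ L + 1) :
    ∑ s ∈ range (L + 2), SB θ R lam s ≤ 4 * H := by
  obtain ⟨hR0, hx0, hx1⟩ := nu_x hθ hR
  have hθ0 : 0 < θ := by linarith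
  have h1θ : 1 ≤ θ ^ 2 := one_le_pow₀ hθ
  have hH0 : 0 ≤ H := le_trans (by positivity) hH
  unfold SB
  have h1 : ∑ s ∈ range (L + 2), ∑ l ∈ lam.filter (fun l => s ≤ l), θ ^ (1 + 2 * l) / R ^ (l - s) =
      ∑ l ∈ lam, ∑ s ∈ (range (L + 2)).filter (fun s => s ≤ l), θ ^ (1 + 2 * l) / R ^ (l - s) := by
    simp_rw [Finset.sum_filter]
    rw [Finset.sum_comm]
  rw [h1]
  have h2 : ∀ l ∈ lam, ∑ s ∈ (range (L + 2)).filter (fun s => s ≤ l),
      θ ^ (1 + 2 * l) / R ^ (l - s) ≤ 2 * H := by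
    intro l hl'
    have h3 := hl l hl'
    have h4 : ∀ s ∈ (range (L + 2)).filter (fun s => s ≤ l), θ ^ (1 + 2 * l) / R ^ (l - s) =
        θ ^ (1 + 2 * l) * (1 / R) ^ (l - s) := by
      intro s _
      rw [one_div, inv_pow]
      ring
    rw [Finset.sum_congr rfl h4, ← Finset.mul_sum]
    have h5 : ∑ s ∈ (range (L + 2)).filter (fun s => s ≤ l), (1 / R) ^ (l - s) ≤ 2 := by
      have h6 : ∑ j ∈ ((range (L + 2)).filter (fun s => s ≤ l)).image (fun s => l - s),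
          (1 / R) ^ j = ∑ s ∈ (range (L + 2)).filter (fun s => s ≤ l), (1 / R) ^ (l - s) := by
        rw [Finset.sum_image]
        intro a ha b hb hab
        have h3 := (Finset.mem_filter.1 ha).2
        have h4 := (Finset.mem_filter.1 hb).2
        simp only at hab
        omega
      rw [← h6]
      refine nu_geo (by positivity) ?_ _
      rw [div_le_div_iff₀ hR0 (by norm_num)]
      linarith
    have h7 : θ ^ (1 + 2 * l) ≤ H := (pow_le_pow_right₀ hθ (by omega)).trans hH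
    calc _ ≤ H * 2 := mul_le_mul h7 h5 (Finset.sum_nonneg fun s _ => by positivity) hH0
      _ = _ := by ring
  refine (Finset.sum_le_sum h2).trans ?_
  rw [Finset.sum_const, nsmul_eq_mul]
  have h8 : lam ⊆ {L, L + 1} := by
    intro l hl'
    have := hl l hl'
    rw [Finset.mem_insert, Finset.mem_singleton]
    omega
  have h9 : lam.card ≤ 2 := (Finset.card_le_card h8).trans Finset.card_le_two
  have h10 : (lam.card : ℝ) ≤ 2 := by exact_mod_cast h9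
  nlinarith

theorem SB_nonneg {θ R : ℝ} (hθ : 1 ≤ θ) (hR : 0 ≤ R) (lam : Finset ℕ) (s : ℕ) :
    0 ≤ SB θ R lam s := by
  unfold SB
  exact Finset.sum_nonneg fun l _ => by positivity

theorem SA_nonneg {θ R : ℝ} (hθ : 1 ≤ θ) (hR : 0 ≤ R) (cv : Bool) (lam : Finset ℕ) :
    0 ≤ SA θ R cv lam := by
  unfold SA
  have h1 : 0 ≤ ∑ l ∈ lam, θ ^ (1 + 2 * l) / R ^ l := Finset.sum_nonneg fun l _ => by positivity
  split_ifs
  · linarith
  · linarith

end Pool.Agent.H95.AED
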