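import Pool.Agent.H95.AED.FA
import Pool.Agent.H95.AED.NU
import Pool.Agent.H95.AED.CM

/-!
# AED FP: the family UPUP

`X` = triples `(v, a, a')` with `Upe v a`, `Upe v a'`, `a ≠ a'`; `m = 2`, `e 0 = (v, a)`, `e 1 = (v, a')`, `lam = range (L+1)`, `cov = true`
for both (so `HCov` is void), `ext = {1}`, `rho = 0`. `M = k` for both (`e i x = g` gives `v` and one of `a, a'`; at most `k` for the other).
`θ = 1 + 1/L ≤ 2`, `4 L m' ≤ 8 L (2L+3) ≤ K`. `BB ≤ 2 · 2 · k · 300 (L+2) · 5 / K = 6000 (L+2)/R ≤ 1/(40 L)` (NU 3, 6, 8), `R = K/k ≥ 10^20 L²`.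
-/

set_option autoImplicit false

open Finset

namespace Pool.Agent.H95.AED

/-- pairs of up edges at a vertex -/
abbrev TX {V : Type} (G : SimpleGraph V) (r : V → ℕ) : Type :=
  {x : V × V × V // Upe G r x.1 x.2.1 ∧ Upe G r x.1 x.2.2 ∧ x.2.1 ≠ x.2.2}

/-- the two edges -/
def te {V : Type} {G : SimpleGraph V} {r : V → ℕ} (i : Fin 2) (x : TX G r) : V × V :=
  (x.1.1, if i = 0 then x.1.2.1 else x.1.2.2)

theorem te_upe {V : Type} {G : SimpleGraph V} {r : V → ℕ} (i : Fin 2) (x : TX G r) :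
    Upe G r (te i x).1 (te i x).2 := by
  unfold te
  split_ifs
  · exact x.2.1
  · exact x.2.2.1

theorem te_dist {V : Type} {G : SimpleGraph V} {r : V → ℕ} (i j : Fin 2) (x : TX G r)
    (hij : i ≠ j) : s((te i x).1, (te i x).2) ≠ s((te j x).1, (te j x).2) := by
  intro he
  have h1 : (te i x).2 = (te j x).2 := Sym2.congr_right.mp he
  have h2 := x.2.2.2
  fin_cases i <;> fin_cases j
  · exact hij rfl
  · exact h2 h1
  · exact h2 h1.symm
  · exact hij rfl

open Classical in
theorem te_count {V : Type} [Fintype V] {G : SimpleGraph V} {r : V → ℕ} [Fintype (TX G r)] {k : ℕ}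
    (hk : ∀ v, (univ.filter (fun a => Upe G r v a)).card ≤ k) (i : Fin 2) (g : V × V) :
    ((univ.filter (fun x : TX G r => te i x = g)).card : ℝ) ≤ (k : ℝ) := by
  have h : (univ.filter (fun x : TX G r => te i x = g)).card ≤
      (univ.filter (fun a => Upe G r g.1 a)).card := by
    refine Finset.card_le_card_of_injOn (fun x => if i = 0 then x.1.2.2 else x.1.2.1) ?_ ?_
    · intro x hx
      rw [Finset.mem_coe, mem_filter] at hx
      rw [Finset.mem_coe, mem_filter]
      refine ⟨mem_univ _, ?_⟩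
      have h1 : x.1.1 = g.1 := congrArg Prod.fst hx.2
      rw [← h1]
      show Upe G r x.1.1 (if i = 0 then x.1.2.2 else x.1.2.1)
      split_ifs
      · exact x.2.2.1
      · exact x.2.1
    · intro x hx y hy hxy
      rw [Finset.mem_coe, mem_filter] at hx hy
      have h1 : te i x = te i y := hx.2.trans hy.2.symm
      have h2' := congrArg Prod.fst h1
      have h2 : x.1.1 = y.1.1 := h2'
      have h3' := congrArg Prod.snd h1
      have h3 : (if i = 0 then x.1.2.1 else x.1.2.2) = (if i = 0 then y.1.2.1 else y.1.2.2) := h3'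
      have h4 : (if i = 0 then x.1.2.2 else x.1.2.1) = (if i = 0 then y.1.2.2 else y.1.2.1) := hxy
      by_cases hi : i = 0
      · rw [if_pos hi, if_pos hi] at h3 h4
        exact Subtype.ext (Prod.ext h2 (Prod.ext h3 h4))
      · rw [if_neg hi, if_neg hi] at h3 h4
        exact Subtype.ext (Prod.ext h2 (Prod.ext h4 h3))
  exact_mod_cast h.trans (hk g.1)

/-- FP -/
theorem fam_upup {V : Type} [Fintype V] (G : SimpleGraph V) (r : V → ℕ) {k K L : ℕ}
    (h : Hyp G r k K L) :
    Small (Rel G) L K (1 / (40 * (L : ℝ))) (fun q => ∀ v a a', Upe G r v a → Upe G r v a' → a ≠ a' →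
      ¬ ((Tq G r L q v a).length ≤ L ∧ (Tq G r L q v a').length ≤ L ∧
        q (gam r v a (Tq G r L q v a)) = q (gam r v a' (Tq G r L q v a')))) := by
  classical
  obtain ⟨hkK, hK1, hR, hL3, hk1, hL1⟩ := h.num
  have hL3' : 10 ^ 20 * L ^ 3 ≤ K := by exact_mod_cast hL3
  have hL' := h.oneL
  have h1L : 1 / (L : ℝ) ≤ 1 := by
    rw [div_le_one (by linarith)]
    exact hL1
  have h1L0 : 0 < 1 / (L : ℝ) := by positivity
  have hθ : (1 : ℝ) ≤ 1 + 1 / (L : ℝ) := by linarith
  have hH : (1 + 1 / (L : ℝ)) ^ (2 * L + 3) ≤ 150 := pow_small h.oneL le_rfl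
  have hR8 : 2 * (1 + 1 / (L : ℝ)) ^ 2 ≤ (K : ℝ) / k := by
    have h1 : (1 + 1 / (L : ℝ)) ^ 2 ≤ 2 ^ 2 := pow_le_pow_left₀ (by linarith) (by linarith) 2
    have h2 : (1 : ℝ) ≤ (L : ℝ) ^ 2 := one_le_pow₀ hL1
    nlinarith
  let c : Cfg G r L :=
    { X := TX G r
      fin := inferInstance
      m := 2
      e := fun i x => te i x
      lam := fun _ => range (L + 1)
      cov := fun _ => true
      ext := {1}
      rho := fun _ => 0
      hm := by omega
      hup := fun i x => te_upe i x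
      hdist := fun i j x hij => te_dist i j x hij
      hrho := by
        intro i _ hc
        rw [mem_singleton] at hc
        exact absurd hc (by decide)
      hlam := by
        intro i l hl
        rw [mem_range] at hl
        omega }
  have hK0 : (0 : ℝ) < K := by exact_mod_cast hK1
  have hTh : ∀ m', m' ≤ c.m * (2 * L + 3) → Th L K m' ≤ (1 + 1 / (L : ℝ)) ^ m' := by
    intro m' hm'
    refine le_of_eq (Th_small ?_)
    have h0 : m' ≤ 2 * (2 * L + 3) := hm'
    have h1 : 2 * (2 * L + 3) ≤ 10 * L := by omega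
    calc 4 * L * m' ≤ 4 * L * (10 * L) := Nat.mul_le_mul_left _ (h0.trans h1)
      _ = 40 * L ^ 2 := by ring
      _ ≤ 10 ^ 20 * L ^ 3 := Nat.mul_le_mul (by norm_num) (Nat.pow_le_pow_right hL' (by norm_num))
      _ ≤ K := hL3'
  have hsm := fam c h.one hK1 h.up' h.deg' hθ hTh (fun _ => (k : ℝ))
    (fun i g => te_count h.up' i g)
    (fun x t hv i hi => absurd hi (by simp [c]))
  refine hsm.mono ?_ ?_
  · have hterm : ∀ i : Fin 2, (k : ℝ) *
        (∑ s ∈ range (L + 2), SB (1 + 1 / (L : ℝ)) ((K : ℝ) / k) (range (L + 1)) s) *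
        ∏ j ∈ (univ : Finset (Fin 2)).erase i,
          SA (1 + 1 / (L : ℝ)) ((K : ℝ) / k) true (range (L + 1)) ≤
        (k : ℝ) * (2 * (L + 2) * 150) * 5 := by
      intro i
      rw [Finset.prod_const, Finset.card_erase_of_mem (mem_univ _), Finset.card_univ,
        Fintype.card_fin]
      have e : 2 - 1 = 1 := rfl
      rw [e, pow_one]
      have hSA0 := SA_nonneg hθ (by positivity : (0 : ℝ) ≤ (K : ℝ) / k) true (range (L + 1))
      refine mul_le_mul ?_ ((SA_le hθ hR8 _ _).trans (by linarith)) hSA0 (by positivity)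
      exact mul_le_mul_of_nonneg_left (SB_sum hθ hR8 _ _ hH) (by positivity)
    have hsum : ∑ i : Fin 2, (k : ℝ) *
        (∑ s ∈ range (L + 2), SB (1 + 1 / (L : ℝ)) ((K : ℝ) / k) (range (L + 1)) s) *
        ∏ j ∈ (univ : Finset (Fin 2)).erase i,
          SA (1 + 1 / (L : ℝ)) ((K : ℝ) / k) true (range (L + 1)) ≤
        2 * ((k : ℝ) * (2 * (L + 2) * 150) * 5) := by
      refine (Finset.sum_le_sum fun i _ => hterm i).trans (le_of_eq ?_)
      rw [Finset.sum_const, nsmul_eq_mul, Finset.card_univ, Fintype.card_fin]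
      push_cast
      ring
    have hc : c.ext.card = 1 := card_singleton _
    unfold Cfg.BB
    rw [hc, pow_one]
    have hk0 : (0 : ℝ) < k := by linarith
    have hR' : 10 ^ 20 * (L : ℝ) ^ 2 * k ≤ K := by
      rwa [le_div_iff₀ hk0] at hR
    rw [div_le_div_iff₀ hK0 (by positivity)]
    have h6 : 2 * (∑ i : Fin 2, (k : ℝ) *
        (∑ s ∈ range (L + 2), SB (1 + 1 / (L : ℝ)) ((K : ℝ) / k) (range (L + 1)) s) *
        ∏ j ∈ (univ : Finset (Fin 2)).erase i,
          SA (1 + 1 / (L : ℝ)) ((K : ℝ) / k) true (range (L + 1))) * (40 * (L : ℝ)) ≤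
        2 * (2 * ((k : ℝ) * (2 * (L + 2) * 150) * 5)) * (40 * (L : ℝ)) :=
      mul_le_mul_of_nonneg_right (mul_le_mul_of_nonneg_left hsum (by norm_num)) (by positivity)
    refine le_trans h6 (le_trans ?_ (le_trans hR' (by linarith)))
    have h7 : (L : ℝ) ≤ (L : ℝ) ^ 2 := by nlinarith
    have h8 : 0 ≤ (k : ℝ) * L := by positivity
    nlinarith [mul_nonneg h8 (sub_nonneg.mpr hL1), mul_nonneg hk0.le (sub_nonneg.mpr h7)]
  · intro q _ hq v a a' ha ha' hne hx
    refine hq ⟨(v, a, a'), ha, ha', hne⟩ ⟨?_, ?_⟩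
    · intro i
      have hi : i = (0 : Fin 2) ∨ i = (1 : Fin 2) := by
        fin_cases i
        · left; rfl
        · right; rfl
      rcases hi with rfl | rfl
      · show (Tq G r L q v a).length ∈ range (L + 1)
        rw [mem_range]
        omega
      · show (Tq G r L q v a').length ∈ range (L + 1)
        rw [mem_range]
        omega
    · intro i hi
      have hi' : i = (1 : Fin 2) := by
        have : i ∈ ({1} : Finset (Fin 2)) := hi
        rwa [mem_singleton] at this
      rw [hi']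
      exact hx.2.2.symm

end Pool.Agent.H95.AED
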