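import Pool.Agent.H95.AED.FP

/-!
# AED FS: the family STAR

`X` = triples `(v, a, a')` with `Upe v a`, `Upe v a'`, `a ≠ a'`; `m = 2`, `e 0 = (v, a)`, `e 1 = (v, a')`, `lam = {L, L+1}`, `cov = false`,
`ext = ∅` (`rho` arbitrary). `HCov`: the edges `(v, _)` do not lie at a level `≥ 1` of the chain of `(v, a)` or `(v, a')`:
if the chain has length `≥ 1` then `r v < r a` (LV 6 with `s = 0`) and the first vertex of an edge at level `≥ 1` has
`r`-value `≥ r a > r v` (LV 7). `M = k`. `θ = 1 + 1/L ≤ 2`, `R = K/k`. `∑_s SB ≤ 600` (NU 9, NU 3), `SA ≤ 2 θ (θ²/R)^L` (NU 7, `l₀ = L`)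
`≤ 4 · (4/R) · (1/2)^(L-1)` as `θ²/R ≤ 1/2`. `BB ≤ 2 · 2 · k · 600 · 16/R · (1/2)^(L-1) ≤ 38400/R ≤ 1/(40 L)` by `k ≤ 2^(L-1)`.
(A chain of length at least `L` has length `L` or `L + 1` by TL 2.)
-/

set_option autoImplicit false

open Finset

namespace Pool.Agent.H95.AED

/-- FS -/
theorem fam_star {V : Type} [Fintype V] (G : SimpleGraph V) (r : V → ℕ) {k K L : ℕ}
    (h : Hyp G r k K L) (hk2 : k ≤ 2 ^ (L - 1)) :
    Small (Rel G) L K (1 / (40 * (L : ℝ))) (fun q => ∀ v a a', Upe G r v a → Upe G r v a' → a ≠ a' →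
      ¬ (L ≤ (Tq G r L q v a).length ∧ L ≤ (Tq G r L q v a').length)) := by
  classical
  obtain ⟨hkK, hK1, hR, hL3, hk1, hL1⟩ := h.num
  have hL3' : 10 ^ 20 * L ^ 3 ≤ K := by exact_mod_cast hL3
  have hL' := h.oneL
  have h1L : 1 / (L : ℝ) ≤ 1 := by
    rw [div_le_one (by linarith)]
    exact hL1
  have h1L0 : 0 < 1 / (L : ℝ) := by positivity
  have hθ : (1 : ℝ) ≤ 1 + 1 / (L : ℝ) := by linarith
  have hH : (1 + 1 / (L : ℝ)) ^ (2 * L + 3) ≤ 150 := pow_small h.oneL le_rfl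
  have hθ4 : (1 + 1 / (L : ℝ)) ^ 2 ≤ 4 := by
    have h1 : (1 + 1 / (L : ℝ)) ^ 2 ≤ 2 ^ 2 := pow_le_pow_left₀ (by linarith) (by linarith) 2
    linarith
  have hR8 : 2 * (1 + 1 / (L : ℝ)) ^ 2 ≤ (K : ℝ) / k := by
    have h2 : (1 : ℝ) ≤ (L : ℝ) ^ 2 := one_le_pow₀ hL1
    nlinarith
  let c : Cfg G r L :=
    { X := TX G r
      fin := inferInstance
      m := 2
      e := fun i x => te i x
      lam := fun _ => {L, L + 1}
      cov := fun _ => false
      ext := ∅
      rho := fun _ => 0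
      hm := by omega
      hup := fun i x => te_upe i x
      hdist := fun i j x hij => te_dist i j x hij
      hrho := by
        intro i hi
        exact absurd hi (Finset.notMem_empty _)
      hlam := by
        intro i l hl
        rw [mem_insert, mem_singleton] at hl
        omega }
  have hK0 : (0 : ℝ) < K := by exact_mod_cast hK1
  have hk0 : (0 : ℝ) < k := by linarith
  have hTh : ∀ m', m' ≤ c.m * (2 * L + 3) → Th L K m' ≤ (1 + 1 / (L : ℝ)) ^ m' := by
    intro m' hm'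
    refine le_of_eq (Th_small ?_)
    have h0 : m' ≤ 2 * (2 * L + 3) := hm'
    have h1 : 2 * (2 * L + 3) ≤ 10 * L := by omega
    calc 4 * L * m' ≤ 4 * L * (10 * L) := Nat.mul_le_mul_left _ (h0.trans h1)
      _ = 40 * L ^ 2 := by ring
      _ ≤ 10 ^ 20 * L ^ 3 := Nat.mul_le_mul (by norm_num) (Nat.pow_le_pow_right hL' (by norm_num))
      _ ≤ K := hL3'
  have hcov : c.HCov K := by
    intro x t hv i _ j s h1 hs he
    obtain ⟨q, hq, ht, _⟩ := hv
    have hch : Chn G r (te j x).1 (te j x).2 (t j) := by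
      have h2 := Tq_chn G r L q (te_upe j x)
      have h3 : t j = Tq G r L q (te j x).1 (te j x).2 := ht j
      rw [h3]
      exact h2
    have h4 := (chn_above G r hch s h1 hs).2
    have h5 : lev (te j x).1 (te j x).2 (t j) s = te i x := he
    rw [h5] at h4
    exact lt_irrefl _ h4
  have hsm := fam c h.one hK1 h.up' h.deg' hθ hTh (fun _ => (k : ℝ))
    (fun i g => te_count h.up' i g) hcov
  have hlam : ∀ l ∈ ({L, L + 1} : Finset ℕ), L ≤ l ∧ l ≤ L + 1 := by
    intro l hl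
    rw [mem_insert, mem_singleton] at hl
    omega
  have hR0 : (0 : ℝ) < (K : ℝ) / k := by positivity
  have hSA : SA (1 + 1 / (L : ℝ)) ((K : ℝ) / k) false {L, L + 1} ≤
      16 / ((K : ℝ) / k) * (1 / 2) ^ (L - 1) := by
    have h1 := SA_tail hθ hR8 {L, L + 1} L (fun l hl => (hlam l hl).1)
    refine h1.trans ?_
    obtain ⟨n, rfl⟩ : ∃ n, L = n + 1 := ⟨L - 1, by omega⟩
    rw [Nat.add_sub_cancel, pow_succ]
    set θ : ℝ := 1 + 1 / ((n + 1 : ℕ) : ℝ) with hθd
    set R : ℝ := (K : ℝ) / k with hRd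
    have h2 : θ ^ 2 / R ≤ 1 / 2 := by
      rw [div_le_iff₀ hR0]
      linarith
    have h3 : θ ^ 2 / R ≤ 4 / R := div_le_div_of_nonneg_right hθ4 hR0.le
    have h4 : 0 ≤ θ ^ 2 / R := by positivity
    have h5 : (θ ^ 2 / R) ^ n ≤ (1 / 2) ^ n := pow_le_pow_left₀ h4 h2 n
    have h6 : 2 * θ ≤ 4 := by linarith
    calc 2 * θ * ((θ ^ 2 / R) ^ n * (θ ^ 2 / R)) ≤ 4 * ((1 / 2) ^ n * (4 / R)) := by
          refine mul_le_mul h6 ?_ (by positivity) (by norm_num)
          exact mul_le_mul h5 h3 h4 (by positivity)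
      _ = 16 / R * (1 / 2) ^ n := by ring
  refine hsm.mono ?_ ?_
  · have hSA0 := SA_nonneg hθ hR0.le false {L, L + 1}
    have hterm : ∀ i : Fin 2, (k : ℝ) *
        (∑ s ∈ range (L + 2), SB (1 + 1 / (L : ℝ)) ((K : ℝ) / k) {L, L + 1} s) *
        ∏ j ∈ (univ : Finset (Fin 2)).erase i,
          SA (1 + 1 / (L : ℝ)) ((K : ℝ) / k) false {L, L + 1} ≤
        (k : ℝ) * (4 * 150) * (16 / ((K : ℝ) / k) * (1 / 2) ^ (L - 1)) := by
      intro i
      rw [Finset.prod_const, Finset.card_erase_of_mem (mem_univ _), Finset.card_univ,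
        Fintype.card_fin]
      have e : 2 - 1 = 1 := rfl
      rw [e, pow_one]
      refine mul_le_mul ?_ hSA hSA0 (by positivity)
      exact mul_le_mul_of_nonneg_left (SB_sum_tail hθ hR8 _ L hH hlam) (by positivity)
    have hsum : ∑ i : Fin 2, (k : ℝ) *
        (∑ s ∈ range (L + 2), SB (1 + 1 / (L : ℝ)) ((K : ℝ) / k) {L, L + 1} s) *
        ∏ j ∈ (univ : Finset (Fin 2)).erase i,
          SA (1 + 1 / (L : ℝ)) ((K : ℝ) / k) false {L, L + 1} ≤
        2 * ((k : ℝ) * (4 * 150) * (16 / ((K : ℝ) / k) * (1 / 2) ^ (L - 1))) := by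
      refine (Finset.sum_le_sum fun i _ => hterm i).trans (le_of_eq ?_)
      rw [Finset.sum_const, nsmul_eq_mul, Finset.card_univ, Fintype.card_fin]
      push_cast
      ring
    have hc : c.ext.card = 0 := card_empty
    unfold Cfg.BB
    rw [hc, pow_zero, div_one]
    have h6 : 2 * (∑ i : Fin 2, (k : ℝ) *
        (∑ s ∈ range (L + 2), SB (1 + 1 / (L : ℝ)) ((K : ℝ) / k) {L, L + 1} s) *
        ∏ j ∈ (univ : Finset (Fin 2)).erase i,
          SA (1 + 1 / (L : ℝ)) ((K : ℝ) / k) false {L, L + 1}) ≤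
        2 * (2 * ((k : ℝ) * (4 * 150) * (16 / ((K : ℝ) / k) * (1 / 2) ^ (L - 1)))) :=
      mul_le_mul_of_nonneg_left hsum (by norm_num)
    refine le_trans h6 ?_
    have h7 : (k : ℝ) * (1 / 2) ^ (L - 1) ≤ 1 := by
      have h8 : (k : ℝ) ≤ 2 ^ (L - 1) := by exact_mod_cast hk2
      calc (k : ℝ) * (1 / 2) ^ (L - 1) ≤ 2 ^ (L - 1) * (1 / 2) ^ (L - 1) :=
            mul_le_mul_of_nonneg_right h8 (by positivity)
        _ = 1 := by rw [← mul_pow]; norm_num
    have h9 : 2 * (2 * ((k : ℝ) * (4 * 150) * (16 / ((K : ℝ) / k) * (1 / 2) ^ (L - 1)))) =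
        38400 / ((K : ℝ) / k) * ((k : ℝ) * (1 / 2) ^ (L - 1)) := by ring
    rw [h9]
    have h10 : 38400 / ((K : ℝ) / k) * ((k : ℝ) * (1 / 2) ^ (L - 1)) ≤ 38400 / ((K : ℝ) / k) * 1 :=
      mul_le_mul_of_nonneg_left h7 (by positivity)
    refine h10.trans ?_
    rw [mul_one, div_le_div_iff₀ hR0 (by positivity)]
    nlinarith
  · intro q _ hq v a a' ha ha' hne hx
    refine hq ⟨(v, a, a'), ha, ha', hne⟩ ⟨?_, ?_⟩
    · intro i
      have hi : i = (0 : Fin 2) ∨ i = (1 : Fin 2) := by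
        fin_cases i
        · left; rfl
        · right; rfl
      have h1 := Tq_len G r L q v a
      have h2 := Tq_len G r L q v a'
      rcases hi with rfl | rfl
      · show (Tq G r L q v a).length ∈ ({L, L + 1} : Finset ℕ)
        rw [mem_insert, mem_singleton]
        omega
      · show (Tq G r L q v a').length ∈ ({L, L + 1} : Finset ℕ)
        rw [mem_insert, mem_singleton]
        omega
    · intro i hi
      exact absurd hi (Finset.notMem_empty _)

end Pool.Agent.H95.AED
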