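import Pool.Agent.H95.AED.Def

/-!
# AED LV: combinatorics of chains (no colouring)

All statements by induction on the list `T` (generalizing `w v`) and cases on `s`: `lev w v T 0 = (w, v)` (for both shapes of `T`),
`lev w v (a :: T) (s + 1) = lev v a T s`.
-/

set_option autoImplicit false

open Finset

namespace Pool.Agent.H95.AED

variable {V : Type} (G : SimpleGraph V) (r : V → ℕ)

/-- LV 1 -/
theorem lev_zero (w v : V) (T : List V) : lev w v T 0 = (w, v) := by
  cases T <;> rfl

/-- LV 2 -/
theorem lev_succ (w v a : V) (T : List V) (s : ℕ) : lev w v (a :: T) (s + 1) = lev v a T s := rfl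

/-- LV 3: the end of an edge of the chain is the beginning of the next one -/
theorem lev_next (w v : V) (T : List V) (s : ℕ) (hs : s < T.length) :
    (lev w v T (s + 1)).1 = (lev w v T s).2 := by
  induction T generalizing w v s with
  | nil => simp at hs
  | cons a T ih =>
    rw [lev_succ]
    cases s with
    | zero => rw [lev_zero, lev_zero]
    | succ s =>
      rw [lev_succ]
      exact ih v a s (by simpa using hs)

/-- LV 4: the rest of the list starts with the end of the next edge -/
theorem drop_eq (w v : V) (T : List V) (s : ℕ) (hs : s < T.length) :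
    T.drop s = (lev w v T (s + 1)).2 :: T.drop (s + 1) := by
  induction T generalizing w v s with
  | nil => simp at hs
  | cons a T ih =>
    rw [lev_succ]
    cases s with
    | zero => rw [lev_zero]; rfl
    | succ s =>
      rw [List.drop_succ_cons, List.drop_succ_cons]
      exact ih v a s (by simpa using hs)

/-- LV 5 -/
theorem lev_add (w v : V) (T : List V) (s s' : ℕ) (h : s + s' ≤ T.length) :
    lev w v T (s + s') = lev (lev w v T s).1 (lev w v T s).2 (T.drop s) s' := by
  induction T generalizing w v s with
  | nil =>
    have h1 : s = 0 := by simp at h; omega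
    subst h1
    rw [Nat.zero_add, lev_zero]
    rfl
  | cons a T ih =>
    cases s with
    | zero => rw [Nat.zero_add, lev_zero]; rfl
    | succ s =>
      have e : s + 1 + s' = (s + s') + 1 := by omega
      rw [e, lev_succ, lev_succ, List.drop_succ_cons]
      exact ih v a s (by simp at h; omega)

/-- LV 6: edges of chains of the graph -/
theorem chn_lev {w v : V} {T : List V} (h : Chn G r w v T) (s : ℕ) (hs : s ≤ T.length) :
    Upe G r (lev w v T s).1 (lev w v T s).2 ∧ (s < T.length → r (lev w v T s).1 < r (lev w v T s).2) ∧
      Chn G r (lev w v T s).1 (lev w v T s).2 (T.drop s) := by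
  induction T generalizing w v s with
  | nil =>
    have h1 : s = 0 := by simpa using hs
    subst h1
    exact ⟨h, fun h2 => absurd h2 (by simp), h⟩
  | cons a T ih =>
    cases s with
    | zero =>
      rw [lev_zero]
      exact ⟨⟨h.1, h.2.1.le⟩, fun _ => h.2.1, h⟩
    | succ s =>
      rw [lev_succ, List.drop_succ_cons]
      obtain ⟨a1, a2, a3⟩ := ih h.2.2 s (by simpa using hs)
      exact ⟨a1, fun h2 => a2 (by simpa using h2), a3⟩

/-- LV 7: levels `≥ 1` start at or above `v` -/
theorem chn_above {w v : V} {T : List V} (h : Chn G r w v T) (s : ℕ) (h1 : 1 ≤ s) (hs : s ≤ T.length) :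
    r v ≤ r (lev w v T s).1 ∧ r w < r (lev w v T s).1 := by
  induction T generalizing w v s with
  | nil => simp at hs; omega
  | cons a T ih =>
    cases s with
    | zero => omega
    | succ s =>
      rw [lev_succ]
      have h2 : r v ≤ r (lev v a T s).1 := by
        cases s with
        | zero => rw [lev_zero]
        | succ s => exact (ih h.2.2 (s + 1) (by omega) (by simpa using hs)).2.le
      exact ⟨h2, lt_of_lt_of_le h.2.1 h2⟩

/-- LV 8 -/
theorem mem_forD (w v : V) (T : List V) (x : Drt V) : x ∈ forD r w v T ↔
    ∃ s, s ≤ T.length ∧ (x = rootd r (lev w v T s).1 (lev w v T s).2 ∨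
      (1 ≤ s ∧ x = dd (lev w v T s).1 (lev w v T s).2)) := by
  classical
  induction T generalizing w v with
  | nil =>
    unfold forD
    rw [Finset.mem_singleton]
    constructor
    · intro h
      exact ⟨0, le_rfl, Or.inl (by rw [lev_zero]; exact h)⟩
    · rintro ⟨s, hs, h⟩
      have h1 : s = 0 := by simpa using hs
      subst h1
      rw [lev_zero] at h
      rcases h with h | h
      · exact h
      · omega
  | cons a T ih =>
    unfold forD
    rw [Finset.mem_insert, Finset.mem_insert, ih]
    constructor
    · rintro (h | h | ⟨s, hs, h⟩)
      · exact ⟨0, Nat.zero_le _, Or.inl (by rw [lev_zero]; exact h)⟩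
      · exact ⟨1, by simp, Or.inr ⟨le_rfl, by
          rw [show (1 : ℕ) = 0 + 1 from rfl, lev_succ, lev_zero]; exact h⟩⟩
      · refine ⟨s + 1, by simpa using hs, ?_⟩
        rw [lev_succ]
        rcases h with h | h
        · exact Or.inl h
        · exact Or.inr ⟨by omega, h.2⟩
    · rintro ⟨s, hs, h⟩
      cases s with
      | zero =>
        rw [lev_zero] at h
        rcases h with h | h
        · exact Or.inl h
        · omega
      | succ s =>
        rw [lev_succ] at h
        rcases h with h | h
        · exact Or.inr (Or.inr ⟨s, by simpa using hs, Or.inl h⟩)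
        · cases s with
          | zero =>
            rw [lev_zero] at h
            exact Or.inr (Or.inl h.2)
          | succ s => exact Or.inr (Or.inr ⟨s + 1, by simpa using hs, Or.inr ⟨by omega, h.2⟩⟩)

/-- LV 9 -/
theorem mem_forC (w v : V) (T : List V) (p : Drt V × Drt V) : p ∈ forC r w v T ↔
    ∃ s, s < T.length ∧ p = (rootd r (lev w v T s).1 (lev w v T s).2,
      gam r (lev w v T (s + 1)).1 (lev w v T (s + 1)).2 (T.drop (s + 1))) := by
  classical
  induction T generalizing w v with
  | nil =>
    unfold forC
    constructor
    · intro h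
      exact absurd h (Finset.notMem_empty _)
    · rintro ⟨s, hs, _⟩
      simp at hs
  | cons a T ih =>
    unfold forC
    rw [Finset.mem_insert, ih]
    constructor
    · rintro (h | ⟨s, hs, h⟩)
      · refine ⟨0, by simp, ?_⟩
        rw [lev_succ, lev_zero, lev_zero]
        exact h
      · refine ⟨s + 1, by simpa using hs, ?_⟩
        rw [lev_succ, lev_succ, List.drop_succ_cons]
        exact h
    · rintro ⟨s, hs, h⟩
      cases s with
      | zero =>
        rw [lev_succ, lev_zero, lev_zero] at h
        exact Or.inl h
      | succ s =>
        rw [lev_succ, lev_succ, List.drop_succ_cons] at h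
        exact Or.inr ⟨s, by simpa using hs, h⟩

/-- LV 10 -/
theorem forD_card (w v : V) (T : List V) : (forD r w v T).card ≤ 2 * T.length + 1 := by
  classical
  induction T generalizing w v with
  | nil =>
    unfold forD
    simp
  | cons a T ih =>
    unfold forD
    have h1 := Finset.card_insert_le (rootd r w v) (insert (dd v a) (forD r v a T))
    have h2 := Finset.card_insert_le (dd v a) (forD r v a T)
    have h3 := ih v a
    rw [List.length_cons]
    omega

/-- LV 11: the colour dart of an edge of the chain -/
theorem gam_lev (w v : V) (T : List V) (s : ℕ) (hs : s ≤ T.length) :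
    gam r (lev w v T s).1 (lev w v T s).2 (T.drop s) =
      if s < T.length then dd (lev w v T (s + 1)).1 (lev w v T (s + 1)).2
      else rootd r (lev w v T s).1 (lev w v T s).2 := by
  split_ifs with h
  · rw [drop_eq w v T s h, lev_next w v T s h]
    rfl
  · have h1 : T.drop s = [] := List.drop_eq_nil_of_le (by omega)
    rw [h1]
    rfl

end Pool.Agent.H95.AED
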