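import Pool.Agent.H95.AED.TU
import Pool.Agent.H95.AED.LV

/-!
# AED TL: the chains of a colouring

From `Tq_spec` (module TU). TL 1, TL 2: cases of `Tq_spec`. TL 3, TL 4: induction on the length of `Tq w v`: if `Tq w v = a :: Tq v a`
then `G.Adj w v ∧ r w < r v` and `Upe G r v a`, so the induction hypothesis applies to `(v, a)`. TL 5: induction on `s`:
`lev w v (a :: T) (s+1) = lev v a T s` with `T = Tq v a`. TL 6: `Tq_spec` at the edge `lev s` with TL 5 (`drop s = _ :: drop (s+1)`,
LV 4). TL 7: `q (dd v w) = q (gam v a (Tq v a)) = q (dd v w')` and `InjQ` (hub `inl v`, slots `some w`, `some w'`).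
TL 8: from TL 5, TL 7 (`lev (s+1)` determines the head of `lev s` by LV 3 and the first element of the list by LV 4).
TL 9: strong induction on `Lr - r v`: `Tq w v = []` or `Tq w v = a :: Tq v a`, `r w < r v ≤ r a`; if `r a = r v` then
`Tq v a = []`, else the induction hypothesis.
-/

set_option autoImplicit false

open Finset

namespace Pool.Agent.H95.AED

variable {V : Type} [Fintype V] (G : SimpleGraph V) (r : V → ℕ) (L : ℕ) {K : ℕ} (q : Drt V → Fin K)

/-- TL 1 -/
theorem Tq_same {w v : V} (h : ¬ r w < r v) : Tq G r L q w v = [] := by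
  rcases Tq_spec G r L q w v with ⟨h1, _⟩ | ⟨a, h1, _⟩
  · exact h1
  · exact absurd h1 h

/-- TL 2 -/
theorem Tq_len (w v : V) : (Tq G r L q w v).length ≤ L + 1 := by
  rcases Tq_spec G r L q w v with ⟨h1, _⟩ | ⟨a, _, _, h1, _, h2⟩
  · rw [h1]
    exact Nat.zero_le _
  · rw [h2, List.length_cons]
    omega

/-- TL 4: a parent has a short chain -/
theorem Tq_tail {w v a : V} {t : List V} (h : Tq G r L q w v = a :: t) :
    r w < r v ∧ Upe G r v a ∧ t = Tq G r L q v a ∧ t.length ≤ L ∧ q (dd v w) = q (gam r v a t) := by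
  rcases Tq_spec G r L q w v with ⟨h1, _⟩ | ⟨b, h1, h2, h3, h4, h5⟩
  · rw [h1] at h
    exact absurd h (List.cons_ne_nil _ _).symm
  · rw [h5] at h
    obtain ⟨rfl, rfl⟩ := List.cons.inj h
    exact ⟨h1, h2, rfl, h3, h4⟩

/-- TL 3 -/
theorem Tq_chn {w v : V} (h : Upe G r w v) : Chn G r w v (Tq G r L q w v) := by
  obtain ⟨t, ht⟩ : ∃ t, t = Tq G r L q w v := ⟨_, rfl⟩
  rw [← ht]
  induction t generalizing w v with
  | nil => exact h
  | cons a t ih =>
    obtain ⟨h1, h2, h3, h4, h5⟩ := Tq_tail G r L q ht.symm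
    exact ⟨h.1, h1, ih h2 h3⟩

/-- TL 5 -/
theorem Tq_lev (w v : V) (s : ℕ) (hs : s ≤ (Tq G r L q w v).length) :
    Tq G r L q (lev w v (Tq G r L q w v) s).1 (lev w v (Tq G r L q w v) s).2 =
      (Tq G r L q w v).drop s := by
  induction s generalizing w v with
  | zero =>
    rw [lev_zero]
    rfl
  | succ s ih =>
    rcases Tq_spec G r L q w v with ⟨h1, _⟩ | ⟨b, h1, h2, h3, h4, h5⟩
    · rw [h1] at hs
      simp at hs
    · rw [h5] at hs ⊢
      rw [List.length_cons] at hs
      rw [lev_succ, List.drop_succ_cons]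
      exact ih v b (by omega)

/-- TL 6: the constraints of the chain hold -/
theorem Tq_con (w v : V) (p : Drt V × Drt V) (hp : p ∈ forC r w v (Tq G r L q w v)) :
    q p.1 = q p.2 := by
  obtain ⟨t, ht⟩ : ∃ t, t = Tq G r L q w v := ⟨_, rfl⟩
  rw [← ht] at hp
  induction t generalizing w v with
  | nil =>
    simp only [forC, Finset.notMem_empty] at hp
  | cons a t ih =>
    obtain ⟨h1, h2, h3, h4, h5⟩ := Tq_tail G r L q ht.symm
    simp only [forC, Finset.mem_insert] at hp
    rcases hp with rfl | hp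
    · show q (rootd r w v) = q (gam r v a t)
      unfold rootd
      rw [if_pos h1]
      exact h5
    · exact ih v a hp h3

/-- TL 7: an edge has at most one child -/
theorem Tq_child (hq : InjQ (Rel G) q) {w w' v a : V} {t t' : List V} (hw : G.Adj w v)
    (hw' : G.Adj w' v) (h : Tq G r L q w v = a :: t) (h' : Tq G r L q w' v = a :: t') : w = w' := by
  obtain ⟨_, _, h3, _, h5⟩ := Tq_tail G r L q h
  obtain ⟨_, _, h3', _, h5'⟩ := Tq_tail G r L q h'
  have h6 : t = t' := h3.trans h3'.symm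
  rw [← h6, ← h5] at h5'
  have h7 := hq (Sum.inl v) (some w') (some w) hw'.symm hw.symm h5'
  exact (Option.some.inj h7).symm

/-- TL 8: if two chains share an edge they share the edge below it -/
theorem lev_child (hq : InjQ (Rel G) q) {w v w' v' : V} (h : Upe G r w v) (h' : Upe G r w' v')
    {s s' : ℕ} (hs : s + 1 ≤ (Tq G r L q w v).length) (hs' : s' + 1 ≤ (Tq G r L q w' v').length)
    (he : lev w v (Tq G r L q w v) (s + 1) = lev w' v' (Tq G r L q w' v') (s' + 1)) :
    lev w v (Tq G r L q w v) s = lev w' v' (Tq G r L q w' v') s' := by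
  have a1 := lev_next w v (Tq G r L q w v) s (by omega)
  have a2 := lev_next w' v' (Tq G r L q w' v') s' (by omega)
  have b1 := drop_eq w v (Tq G r L q w v) s (by omega)
  have b2 := drop_eq w' v' (Tq G r L q w' v') s' (by omega)
  rw [← Tq_lev G r L q w v s (by omega)] at b1
  rw [← Tq_lev G r L q w' v' s' (by omega)] at b2
  have c1 := (chn_lev G r (Tq_chn G r L q h) s (by omega)).1.1
  have c2 := (chn_lev G r (Tq_chn G r L q h') s' (by omega)).1.1
  rw [he] at a1 b1
  have hv : (lev w v (Tq G r L q w v) s).2 = (lev w' v' (Tq G r L q w' v') s').2 := a1.symm.trans a2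
  obtain ⟨x, hx⟩ : ∃ x, x = lev w v (Tq G r L q w v) s := ⟨_, rfl⟩
  obtain ⟨y, hy⟩ : ∃ y, y = lev w' v' (Tq G r L q w' v') s' := ⟨_, rfl⟩
  rw [← hx] at b1 c1 hv
  rw [← hy] at b2 c2 hv
  rw [← hx, ← hy]
  rw [← hv] at b2 c2
  exact Prod.ext (Tq_child G r L q hq c1 c2 b1 b2) hv

/-- TL 9: few levels -/
theorem Tq_levels {N : ℕ} (hr : ∀ v, r v ≤ N) (w v : V) :
    (Tq G r L q w v).length ≤ N - r v + 1 := by
  obtain ⟨m, hm⟩ : ∃ m, m = N - r v := ⟨_, rfl⟩
  rw [← hm]
  induction m using Nat.strong_induction_on generalizing w v with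
  | _ m ih =>
    rcases Tq_spec G r L q w v with ⟨h1, _⟩ | ⟨b, h1, h2, h3, h4, h5⟩
    · rw [h1]
      exact Nat.zero_le _
    · rw [h5, List.length_cons]
      rcases Nat.lt_or_ge (r v) (r b) with h6 | h6
      · have h7 := hr b
        have := ih (N - r b) (by omega) v b rfl
        omega
      · rw [Tq_same G r L q (by omega : ¬ r v < r b), List.length_nil]
        omega

end Pool.Agent.H95.AED
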