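import Pool.Agent.H95.AED.FA
import Pool.Agent.H95.AED.NU
import Pool.Agent.H95.AED.CM
import Pool.Agent.H95.AED.TL

/-!
# AED FU: the family UPDOWN

`X` = triples `(v, a, w)` with `Upe v a`, `G.Adj w v`, `r w < r v`; `m = 2`, `e 0 = (v, a)`, `e 1 = (w, v)`, `lam 0 = range (L+1)`,
`lam 1 = Icc 1 L`, `cov 0 = true`, `cov 1 = false`, `ext = {1}`, `rho = 0`. `hdist`: `s(v, a) = s(w, v)` would give `a = w`, but
`r w < r v ≤ r a`. `HCov`: `(w, v)` is not at a level `≥ 1` of the chain of `(v, a)` or `(w, v)`: the first vertex of such an edge has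
`r`-value `≥ r a > r w` resp. `> r w` (LV 7; chains are `Chn` by TL 3). `M 0 = K`, `M 1 = k` (Hyp.deg', Hyp.up'). `θ = 1 + 1/L ≤ 2`,
`4 L m' ≤ 8 L (2L+3) ≤ K`. Bound (NU): `∑_s SB ≤ 300 (L+2)`, `SA` of `1` is `≤ 2θ·θ²/R ≤ 16/R` (NU 7, `l₀ = 1`),
`SA` of `0` is `≤ 5`; `BB ≤ 2 (K · 300 (L+2) · 16/R + k · 300 (L+2) · 5)/K = 12600 (L+2)/R ≤ 1/(40 L)` as `K/k = R ≥ 10^20 L²`.
-/

set_option autoImplicit false

open Finset

namespace Pool.Agent.H95.AED

/-- an up edge `(v, a)` and a lower edge `(w, v)` at the vertex `v` -/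
abbrev UX {V : Type} (G : SimpleGraph V) (r : V → ℕ) : Type :=
  {x : V × V × V // Upe G r x.1 x.2.1 ∧ G.Adj x.2.2 x.1 ∧ r x.2.2 < r x.1}

/-- the two edges -/
def ue {V : Type} {G : SimpleGraph V} {r : V → ℕ} (i : Fin 2) (x : UX G r) : V × V :=
  if i = 0 then (x.1.1, x.1.2.1) else (x.1.2.2, x.1.1)

theorem ue_upe {V : Type} {G : SimpleGraph V} {r : V → ℕ} (i : Fin 2) (x : UX G r) :
    Upe G r (ue i x).1 (ue i x).2 := by
  unfold ue
  split_ifs
  · exact x.2.1
  · exact ⟨x.2.2.1, x.2.2.2.le⟩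

theorem ue_dist0 {V : Type} {G : SimpleGraph V} {r : V → ℕ} (x : UX G r) :
    s((ue 0 x).1, (ue 0 x).2) ≠ s((ue 1 x).1, (ue 1 x).2) := by
  intro he
  have h1 : s(x.1.1, x.1.2.1) = s(x.1.2.2, x.1.1) := he
  have h2 := x.2.2.2
  have h3 := x.2.1.2
  rw [Sym2.eq_iff] at h1
  rcases h1 with ⟨h4, _⟩ | ⟨_, h4⟩
  · rw [← h4] at h2
    exact lt_irrefl _ h2
  · rw [h4] at h3
    omega

theorem ue_dist {V : Type} {G : SimpleGraph V} {r : V → ℕ} (i j : Fin 2) (x : UX G r)
    (hij : i ≠ j) : s((ue i x).1, (ue i x).2) ≠ s((ue j x).1, (ue j x).2) := by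
  fin_cases i <;> fin_cases j
  · exact absurd rfl hij
  · exact ue_dist0 x
  · exact (ue_dist0 x).symm
  · exact absurd rfl hij

open Classical in
theorem ue_count {V : Type} [Fintype V] {G : SimpleGraph V} {r : V → ℕ} [Fintype (UX G r)] {k K : ℕ}
    (hk : ∀ v, (univ.filter (fun a => Upe G r v a)).card ≤ k)
    (hK : ∀ v, (univ.filter (fun a => G.Adj v a)).card ≤ K) (i : Fin 2) (g : V × V) :
    ((univ.filter (fun x : UX G r => ue i x = g)).card : ℝ) ≤ if i = 0 then (K : ℝ) else (k : ℝ) := by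
  fin_cases i
  · have h : (univ.filter (fun x : UX G r => ue 0 x = g)).card ≤
        (univ.filter (fun a => G.Adj g.1 a)).card := by
      refine Finset.card_le_card_of_injOn (fun x => x.1.2.2) ?_ ?_
      · intro x hx
        rw [Finset.mem_coe, mem_filter] at hx
        rw [Finset.mem_coe, mem_filter]
        refine ⟨mem_univ _, ?_⟩
        have h1 : x.1.1 = g.1 := congrArg Prod.fst hx.2
        rw [← h1]
        exact x.2.2.1.symm
      · intro x hx y hy hxy
        rw [Finset.mem_coe, mem_filter] at hx hy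
        have h1 : ue 0 x = ue 0 y := hx.2.trans hy.2.symm
        have h2' := congrArg Prod.fst h1
        have h2 : x.1.1 = y.1.1 := h2'
        have h3' := congrArg Prod.snd h1
        have h3 : x.1.2.1 = y.1.2.1 := h3'
        exact Subtype.ext (Prod.ext h2 (Prod.ext h3 hxy))
    have h' : ((univ.filter (fun x : UX G r => ue 0 x = g)).card : ℝ) ≤ K := by
      exact_mod_cast h.trans (hK g.1)
    exact h'
  · have h : (univ.filter (fun x : UX G r => ue 1 x = g)).card ≤
        (univ.filter (fun a => Upe G r g.2 a)).card := by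
      refine Finset.card_le_card_of_injOn (fun x => x.1.2.1) ?_ ?_
      · intro x hx
        rw [Finset.mem_coe, mem_filter] at hx
        rw [Finset.mem_coe, mem_filter]
        refine ⟨mem_univ _, ?_⟩
        have h1 : x.1.1 = g.2 := congrArg Prod.snd hx.2
        rw [← h1]
        exact x.2.1
      · intro x hx y hy hxy
        rw [Finset.mem_coe, mem_filter] at hx hy
        have h1 : ue 1 x = ue 1 y := hx.2.trans hy.2.symm
        have h2' := congrArg Prod.snd h1
        have h2 : x.1.1 = y.1.1 := h2'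
        have h3' := congrArg Prod.fst h1
        have h3 : x.1.2.2 = y.1.2.2 := h3'
        exact Subtype.ext (Prod.ext h2 (Prod.ext hxy h3))
    have h' : ((univ.filter (fun x : UX G r => ue 1 x = g)).card : ℝ) ≤ k := by
      exact_mod_cast h.trans (hk g.2)
    exact h'

/-- FU -/
theorem fam_updown {V : Type} [Fintype V] (G : SimpleGraph V) (r : V → ℕ) {k K L : ℕ}
    (h : Hyp G r k K L) :
    Small (Rel G) L K (1 / (40 * (L : ℝ))) (fun q => ∀ v a w, Upe G r v a → G.Adj w v → r w < r v →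
      ¬ ((Tq G r L q v a).length ≤ L ∧ 1 ≤ (Tq G r L q w v).length ∧ (Tq G r L q w v).length ≤ L ∧
        q (gam r v a (Tq G r L q v a)) = q (gam r w v (Tq G r L q w v)))) := by
  classical
  obtain ⟨hkK, hK1, hR, hL3, hk1, hL1⟩ := h.num
  have hL3' : 10 ^ 20 * L ^ 3 ≤ K := by exact_mod_cast hL3
  have hL' := h.oneL
  have h1L : 1 / (L : ℝ) ≤ 1 := by
    rw [div_le_one (by linarith)]
    exact hL1
  have h1L0 : 0 < 1 / (L : ℝ) := by positivity
  have hθ : (1 : ℝ) ≤ 1 + 1 / (L : ℝ) := by linarith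
  have hH : (1 + 1 / (L : ℝ)) ^ (2 * L + 3) ≤ 150 := pow_small h.oneL le_rfl
  have hL2 : (1 : ℝ) ≤ (L : ℝ) ^ 2 := one_le_pow₀ hL1
  have hR8 : 2 * (1 + 1 / (L : ℝ)) ^ 2 ≤ (K : ℝ) / k := by
    have h1 : (1 + 1 / (L : ℝ)) ^ 2 ≤ 2 ^ 2 := pow_le_pow_left₀ (by linarith) (by linarith) 2
    nlinarith
  let c : Cfg G r L :=
    { X := UX G r
      fin := inferInstance
      m := 2
      e := fun i x => ue i x
      lam := fun i => if i = 0 then range (L + 1) else Icc 1 L
      cov := fun i => if i = 0 then true else false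
      ext := {1}
      rho := fun _ => 0
      hm := by omega
      hup := fun i x => ue_upe i x
      hdist := fun i j x hij => ue_dist i j x hij
      hrho := by
        intro i _ hc
        rw [mem_singleton] at hc
        exact absurd hc (by decide)
      hlam := by
        intro i l hl
        split_ifs at hl
        · rw [mem_range] at hl
          omega
        · rw [mem_Icc] at hl
          omega }
  have hK0 : (0 : ℝ) < K := by exact_mod_cast hK1
  have hTh : ∀ m', m' ≤ c.m * (2 * L + 3) → Th L K m' ≤ (1 + 1 / (L : ℝ)) ^ m' := by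
    intro m' hm'
    refine le_of_eq (Th_small ?_)
    have h0 : m' ≤ 2 * (2 * L + 3) := hm'
    have h1 : 2 * (2 * L + 3) ≤ 10 * L := by omega
    calc 4 * L * m' ≤ 4 * L * (10 * L) := Nat.mul_le_mul_left _ (h0.trans h1)
      _ = 40 * L ^ 2 := by ring
      _ ≤ 10 ^ 20 * L ^ 3 := Nat.mul_le_mul (by norm_num) (Nat.pow_le_pow_right hL' (by norm_num))
      _ ≤ K := hL3'
  have hcov : c.HCov K := by
    intro x t hv i hi
    obtain ⟨q, hq, ht, hocc⟩ := hv
    have hi1 : i = (1 : Fin 2) := by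
      by_contra hne
      have h0 : i = (0 : Fin 2) := by
        have hlt : (i : ℕ) < 2 := i.2
        have hne' : (i : ℕ) ≠ 1 := fun h2 => hne (Fin.ext h2)
        exact Fin.ext (by
          show (i : ℕ) = 0
          omega)
      rw [h0] at hi
      exact absurd hi (by simp [c])
    rw [hi1]
    intro j s hs1 hs2 he
    have hup : Upe G r (c.e j x).1 (c.e j x).2 := c.hup j x
    have hchn : Chn G r (c.e j x).1 (c.e j x).2 (t j) := by
      rw [ht j]
      exact Tq_chn G r L q hup
    have h1 := chn_above G r hchn s hs1 hs2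
    rw [he] at h1
    have h2 : (c.e (1 : Fin 2) x).1 = x.1.2.2 := rfl
    rw [h2] at h1
    have hj : j = (0 : Fin 2) ∨ j = (1 : Fin 2) := by
      have hlt : (j : ℕ) < 2 := j.2
      by_cases h0 : (j : ℕ) = 0
      · exact Or.inl (Fin.ext h0)
      · exact Or.inr (Fin.ext (by
          show (j : ℕ) = 1
          omega))
    rcases hj with rfl | rfl
    · have h3 : (c.e (0 : Fin 2) x).1 = x.1.1 := rfl
      rw [h3] at h1
      have h4 := x.2.2.2
      omega
    · rw [h2] at h1
      exact lt_irrefl _ h1.2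
  have hsm := fam c h.one hK1 h.up' h.deg' hθ hTh (fun i => if i = 0 then (K : ℝ) else (k : ℝ))
    (fun i g => ue_count h.up' h.deg' i g) hcov
  refine hsm.mono ?_ ?_
  · obtain ⟨R, hRd⟩ : ∃ R, R = (K : ℝ) / k := ⟨_, rfl⟩
    have hk0 : (0 : ℝ) < k := by linarith
    have hKR : (K : ℝ) = R * k := by rw [hRd]; field_simp
    have hR0 : 0 < R := by rw [hRd]; positivity
    have hc : c.ext.card = 1 := card_singleton _
    unfold Cfg.BB
    rw [hc, pow_one, ← hRd]
    rw [← hRd] at hR8 hR
    have hsum : ∀ f : Fin 2 → ℝ, ∑ i : Fin 2, f i = f 0 + f 1 := fun f => Fin.sum_univ_two f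
    have herase0 : (univ : Finset (Fin 2)).erase 0 = {1} := by decide
    have herase1 : (univ : Finset (Fin 2)).erase 1 = {0} := by decide
    have hS0 := SB_sum hθ hR8 (range (L + 1)) L hH
    have hS1 := SB_sum hθ hR8 (Icc 1 L) L hH
    have hA0 : SA (1 + 1 / (L : ℝ)) R true (range (L + 1)) ≤ 5 :=
      (SA_le hθ hR8 _ _).trans (by linarith)
    have hA1 : SA (1 + 1 / (L : ℝ)) R false (Icc 1 L) ≤ 16 / R := by
      have h1 := SA_tail hθ hR8 (Icc 1 L) 1 fun l hl => (mem_Icc.1 hl).1
      rw [pow_one] at h1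
      refine h1.trans ?_
      rw [← mul_div_assoc]
      refine div_le_div_of_nonneg_right ?_ hR0.le
      have h2 : (1 + 1 / (L : ℝ)) ^ 2 ≤ 2 ^ 2 := pow_le_pow_left₀ (by linarith) (by linarith) 2
      calc 2 * (1 + 1 / (L : ℝ)) * (1 + 1 / (L : ℝ)) ^ 2 ≤ 2 * 2 * 2 ^ 2 :=
            mul_le_mul (by linarith) h2 (by positivity) (by norm_num)
        _ = 16 := by norm_num
    have hA00 := SA_nonneg hθ hR0.le true (range (L + 1))
    have hA10 := SA_nonneg hθ hR0.le false (Icc 1 L)
    have hmain : ∑ i : Fin 2, (if i = 0 then (K : ℝ) else (k : ℝ)) *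
        (∑ s ∈ range (L + 2), SB (1 + 1 / (L : ℝ)) R
          (if i = 0 then range (L + 1) else Icc 1 L) s) *
        ∏ j ∈ (univ : Finset (Fin 2)).erase i,
          SA (1 + 1 / (L : ℝ)) R (if j = 0 then true else false)
            (if j = 0 then range (L + 1) else Icc 1 L) ≤
        K * (2 * (L + 2) * 150) * (16 / R) + k * (2 * (L + 2) * 150) * 5 := by
      rw [hsum, herase0, herase1, Finset.prod_singleton, Finset.prod_singleton]
      have e0 : ((0 : Fin 2) = 0) = True := by simp
      have e1 : ((1 : Fin 2) = 0) = False := by simp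
      simp only [e0, e1, if_true, if_false]
      refine add_le_add ?_ ?_
      · refine mul_le_mul ?_ hA1 hA10 (by positivity)
        exact mul_le_mul_of_nonneg_left hS0 hK0.le
      · refine mul_le_mul ?_ hA0 hA00 (by positivity)
        exact mul_le_mul_of_nonneg_left hS1 hk0.le
    have hmain2 : 2 * (K * (2 * ((L : ℝ) + 2) * 150) * (16 / R) + k * (2 * (L + 2) * 150) * 5) / K =
        12600 * (L + 2) / R := by
      rw [hKR]
      field_simp
      ring
    have h7 : 2 * (∑ i : Fin 2, (if i = 0 then (K : ℝ) else (k : ℝ)) *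
        (∑ s ∈ range (L + 2), SB (1 + 1 / (L : ℝ)) R
          (if i = 0 then range (L + 1) else Icc 1 L) s) *
        ∏ j ∈ (univ : Finset (Fin 2)).erase i,
          SA (1 + 1 / (L : ℝ)) R (if j = 0 then true else false)
            (if j = 0 then range (L + 1) else Icc 1 L)) / K ≤ 12600 * (L + 2) / R := by
      rw [← hmain2]
      refine div_le_div_of_nonneg_right ?_ hK0.le
      exact mul_le_mul_of_nonneg_left hmain (by norm_num)
    refine le_trans h7 ?_
    rw [div_le_div_iff₀ hR0 (by positivity)]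
    nlinarith
  · intro q _ hq v a w ha hw hwv hx
    refine hq ⟨(v, a, w), ha, hw, hwv⟩ ⟨?_, ?_⟩
    · intro i
      have hi : i = (0 : Fin 2) ∨ i = (1 : Fin 2) := by
        fin_cases i
        · left; rfl
        · right; rfl
      rcases hi with rfl | rfl
      · show (Tq G r L q v a).length ∈ range (L + 1)
        rw [mem_range]
        omega
      · show (Tq G r L q w v).length ∈ Icc 1 L
        rw [mem_Icc]
        exact ⟨hx.2.1, hx.2.2.1⟩
    · intro i hi
      have hi' : i = (1 : Fin 2) := by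
        have : i ∈ ({1} : Finset (Fin 2)) := hi
        rwa [mem_singleton] at this
      rw [hi']
      exact hx.2.2.2.symm

end Pool.Agent.H95.AED
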