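import Pool.Agent.H95.AED.MA
import Pool.Agent.H95.AEC.Final

/-!
# AED FINA: theorem A

`k = 0`: no edges (copy from `AEC/Final.lean`). `k ≥ 1`: `AEC.exists_rank` (injective ranking; `AEC.Up` and `Upe` agree as
`r` is injective and adjacent vertices are different), `L = Nat.log 2 k + 2`, `k ≤ 2^(L-1)` (`Nat.lt_pow_succ_log_self`), `L ≤ 3 k`
(`Nat.log 2 k < k`, or `Nat.log_lt_self`), so `10^20 (k + L) L² ≤ 10^20 · 4k L² ≤ 10^21 k L²`.
-/

set_option autoImplicit false

open Finset

namespace Pool.Agent.H95.AED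

/-- FINA -/
theorem finalA (V : Type) [Fintype V] [DecidableEq V] (G : SimpleGraph V) [DecidableRel G.Adj]
    (k N : ℕ) (hd : ∀ s : Finset V, s.Nonempty → ∃ v ∈ s, (s.filter (fun w => G.Adj v w)).card ≤ k)
    (hN : G.maxDegree ≤ N) (hk : 10 ^ 21 * k * (Nat.log 2 k + 2) ^ 2 ≤ N) :
    ∃ c : V → V → Fin (N + 1),
      (∀ u v : V, c u v = c v u) ∧
      (∀ u v w : V, G.Adj u v → G.Adj u w → v ≠ w → c u v ≠ c u w) ∧
      (∀ (u : V) (p : G.Walk u u), p.IsCycle →
          3 ≤ (p.darts.map (fun d => c d.toProd.1 d.toProd.2)).toFinset.card) := by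
  rcases Nat.eq_zero_or_pos k with hk0 | hk0
  · -- no edges
    subst hk0
    have hno : ∀ u v, ¬ G.Adj u v := by
      intro u v huv
      obtain ⟨w, hw, hc⟩ := hd {u, v} ⟨u, by simp⟩
      rw [Nat.le_zero, card_eq_zero, filter_eq_empty_iff] at hc
      simp only [mem_insert, mem_singleton] at hw hc
      rcases hw with rfl | rfl
      · exact hc (Or.inr rfl) huv
      · exact hc (Or.inl rfl) huv.symm
    refine ⟨fun _ _ => 0, fun _ _ => rfl, fun u v w h => absurd h (hno u v), ?_⟩
    intro u p hp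
    cases p with
    | nil => exact absurd hp (by simp)
    | cons h _ => exact absurd h (hno _ _)
  · obtain ⟨r, hr, hup⟩ := AEC.exists_rank G hd
    have hdeg : ∀ v, Nat.card {a // G.Adj v a} ≤ N := by
      intro v
      refine le_trans (le_of_eq ?_) (le_trans (G.degree_le_maxDegree v) hN)
      rw [← SimpleGraph.card_neighborSet_eq_degree, Nat.card_eq_fintype_card]
      rfl
    have hup' : ∀ v, Nat.card {a // Upe G r v a} ≤ k := by
      intro v
      have h1 : (fun a => Upe G r v a) = fun a => AEC.Up G r v a := by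
        funext a
        apply propext
        constructor
        · rintro ⟨h2, h3⟩
          refine ⟨h2, lt_of_le_of_ne h3 ?_⟩
          intro h4
          exact h2.ne (hr h4)
        · rintro ⟨h2, h3⟩
          exact ⟨h2, h3.le⟩
      have h5 := hup v
      rw [← h1] at h5
      exact h5
    have hlog : Nat.log 2 k < k := Nat.log_lt_self 2 (by omega)
    have hbig : 10 ^ 20 * (k + (Nat.log 2 k + 2)) * (Nat.log 2 k + 2) ^ 2 ≤ N := by
      refine le_trans (Nat.mul_le_mul_right _ ?_) hk
      omega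
    have H : Hyp G r k N (Nat.log 2 k + 2) := ⟨hup', hdeg, hk0, by omega, hbig⟩
    have hk2 : k ≤ 2 ^ (Nat.log 2 k + 2 - 1) := by
      have := Nat.lt_pow_succ_log_self (b := 2) (by norm_num) k
      have e : Nat.log 2 k + 2 - 1 = Nat.log 2 k + 1 := by omega
      rw [e]
      exact this.le
    obtain ⟨c, h1, h2, h3⟩ := mainA G r H hk2
    let e : Option (Fin N) ≃ Fin (N + 1) := (finSuccEquiv N).symm
    refine ⟨fun u v => e (c u v), fun u v => congrArg e (h1 u v), fun u v w hv hw hne he =>
      h2 u v w hv hw hne (e.injective he), ?_⟩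
    intro u p hp
    have h4 := h3 u p hp
    rw [AEC.toFinset_card_map_inj e e.injective (fun d : G.Dart => c d.toProd.1 d.toProd.2) p.darts]
    exact h4

end Pool.Agent.H95.AED
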