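import Pool.Agent.H95.AED.MA

/-!
# AED FINB: theorem B

`Hyp` with `K = N`, `L = l` (`Nat.card` of the subtype is the card of the filter; `G.maxDegree ≤ N` as in `AEC/Final.lean`). If `k = 0` then
`G` has no edges (an edge `u v` with `r u ≤ r v` gives a neighbour of `u` on a level `≥ r u`) and every colouring will do, if there is
a colour: `N ≥ 10^20 (0 + l) l² > 0`.
-/

set_option autoImplicit false

open Finset

namespace Pool.Agent.H95.AED

/-- FINB -/
theorem finalB (V : Type) [Fintype V] [DecidableEq V] (G : SimpleGraph V) [DecidableRel G.Adj]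
    (r : V → ℕ) (k l N : ℕ) (hl : 1 ≤ l) (hr : ∀ v, r v ≤ l)
    (hup : ∀ v, (univ.filter (fun u => G.Adj v u ∧ r v ≤ r u)).card ≤ k)
    (hN : G.maxDegree ≤ N) (hk : 10 ^ 20 * (k + l) * l ^ 2 ≤ N) :
    ∃ c : V → V → Fin N,
      (∀ u v : V, c u v = c v u) ∧
      (∀ u v w : V, G.Adj u v → G.Adj u w → v ≠ w → c u v ≠ c u w) ∧
      (∀ (u : V) (p : G.Walk u u), p.IsCycle →
          3 ≤ (p.darts.map (fun d => c d.toProd.1 d.toProd.2)).toFinset.card) := by
  have hNpos : 0 < N := by
    have h1 : 0 < 10 ^ 20 * (k + l) * l ^ 2 := by positivity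
    omega
  rcases Nat.eq_zero_or_pos k with hk0 | hk0
  · subst hk0
    have hno : ∀ u v, ¬ G.Adj u v := by
      intro u v huv
      rcases le_total (r u) (r v) with h1 | h1
      · have h2 := hup u
        rw [Nat.le_zero, card_eq_zero, filter_eq_empty_iff] at h2
        exact h2 (mem_univ v) ⟨huv, h1⟩
      · have h2 := hup v
        rw [Nat.le_zero, card_eq_zero, filter_eq_empty_iff] at h2
        exact h2 (mem_univ u) ⟨huv.symm, h1⟩
    refine ⟨fun _ _ => ⟨0, hNpos⟩, fun _ _ => rfl, fun u v w h => absurd h (hno u v), ?_⟩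
    intro u p hp
    cases p with
    | nil => exact absurd hp (by simp)
    | cons h _ => exact absurd h (hno _ _)
  · have hdeg : ∀ v, Nat.card {a // G.Adj v a} ≤ N := by
      intro v
      refine le_trans (le_of_eq ?_) (le_trans (G.degree_le_maxDegree v) hN)
      rw [← SimpleGraph.card_neighborSet_eq_degree, Nat.card_eq_fintype_card]
      rfl
    have hup' : ∀ v, Nat.card {a // Upe G r v a} ≤ k := by
      intro v
      refine le_trans (le_of_eq ?_) (hup v)
      unfold Upe
      rw [Nat.card_eq_fintype_card, Fintype.card_subtype]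
    have H : Hyp G r k N l := ⟨hup', hdeg, hk0, hl, hk⟩
    obtain ⟨c, h1, h2, h3⟩ := mainB G r H hr
    refine ⟨c, h1, h2, ?_⟩
    intro u p hp
    have h4 := h3 u p hp
    exact h4

end Pool.Agent.H95.AED
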