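import Pool.Agent.H95.AED.LB

/-!
# AED GC: the criterion for patterns over a relation between hubs and slots

Copy of `AEC/Codes.lean` (number of codes at most `K^|D| / K^|C|`) and `AEC/GCrit.lean` with the relation `A` between
hubs `H` and slots `S` instead of the adjacency of a graph, `q : H × S → Fin K`, `Pat A` instead of `DPat G`
(`P.D` instead of `P.S`), `Th L K |D| / K^|D|` instead of `(6/K)^|D|`, `1/(8L)` instead of `1/4`, and `lll_sharp`
(module LB) instead of `lll`.
-/

set_option autoImplicit false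

open Finset

namespace Pool.Agent.H95.AED

open Classical in
/-- (1): the number of codes of a pattern -/
theorem card_codes {H S : Type} [Fintype H] [Fintype S] {A : H → S → Prop} {K : ℕ} (hK : 0 < K) (P : Pat A)
    (c₀ : Fin K) :
    (Nat.card {γ : H × S → Fin K // (∀ x, x ∉ P.D → γ x = c₀) ∧ ∀ p ∈ P.C, γ p.1 = γ p.2} : ℝ) ≤
      (K : ℝ) ^ P.D.card / (K : ℝ) ^ P.C.card := by
  have hinj : Set.InjOn Prod.fst (P.C : Set ((H × S) × (H × S))) := by
    intro p hp p' hp' h
    exact P.inj p hp p' hp' h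
  have hIcard : (P.C.image Prod.fst).card = P.C.card := card_image_of_injOn hinj
  have hIS : P.C.image Prod.fst ⊆ P.D := by
    intro x hx
    obtain ⟨p, hp, rfl⟩ := mem_image.mp hx
    exact P.mem₁ p hp
  set I := P.C.image Prod.fst with hI
  let f : {γ : H × S → Fin K // (∀ x, x ∉ P.D → γ x = c₀) ∧ ∀ p ∈ P.C, γ p.1 = γ p.2} →
      ({x // x ∈ P.D \ I} → Fin K) := fun γ x => γ.1 x.1
  have hf : Function.Injective f := by
    intro γ γ' h
    have h1 : ∀ x, x ∈ P.D → x ∉ I → γ.1 x = γ'.1 x := by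
      intro x hx hx'
      exact congrFun h ⟨x, mem_sdiff.mpr ⟨hx, hx'⟩⟩
    have h2 : ∀ m x, P.rk x = m → x ∈ I → γ.1 x = γ'.1 x := by
      intro m
      induction m using Nat.strong_induction_on with
      | _ m ih =>
        intro x hm hx
        obtain ⟨p, hp, rfl⟩ := mem_image.mp hx
        rw [γ.2.2 p hp, γ'.2.2 p hp]
        by_cases h3 : p.2 ∈ I
        · obtain ⟨p', hp', h4⟩ := mem_image.mp h3
          have h5 := P.dec p hp p' hp' h4.symm
          exact ih (P.rk p.2) (by omega) p.2 rfl h3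
        · exact h1 p.2 (P.mem₂ p hp) h3
    apply Subtype.ext
    funext x
    by_cases hx : x ∈ P.D
    · by_cases hx' : x ∈ I
      · exact h2 _ x rfl hx'
      · exact h1 x hx hx'
    · rw [γ.2.1 x hx, γ'.2.1 x hx]
  have h3 : Nat.card {γ : H × S → Fin K // (∀ x, x ∉ P.D → γ x = c₀) ∧ ∀ p ∈ P.C, γ p.1 = γ p.2} ≤
      K ^ (P.D.card - P.C.card) := by
    refine le_trans (Nat.card_le_card_of_injective f hf) (le_of_eq ?_)
    rw [Nat.card_fun, Nat.card_eq_fintype_card, Nat.card_eq_fintype_card, Fintype.card_coe,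
      Fintype.card_fin, card_sdiff_of_subset hIS, hIcard]
  have h4 : P.C.card ≤ P.D.card := by
    rw [← hIcard]
    exact card_le_card hIS
  have hK' : (0 : ℝ) < K := by exact_mod_cast hK
  rw [le_div_iff₀ (by positivity)]
  have h5 : (K : ℝ) ^ P.D.card = (K : ℝ) ^ (P.D.card - P.C.card) * (K : ℝ) ^ P.C.card := by
    rw [← pow_add, Nat.sub_add_cancel h4]
  rw [h5]
  refine mul_le_mul_of_nonneg_right ?_ (by positivity)
  exact_mod_cast h3

section Aux

variable {H S : Type} [Fintype H] [Fintype S] {A : H → S → Prop} {K : ℕ}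

/-- codes of a pattern (colourings of the darts which satisfy the constraints and are injective at
each hub) -/
def IsCode (P : Pat A) (c₀ : Fin K) (γ : H × S → Fin K) : Prop :=
  (∀ x, x ∉ P.D → γ x = c₀) ∧ (∀ p ∈ P.C, γ p.1 = γ p.2) ∧
    ∀ x ∈ P.D, ∀ y ∈ P.D, x.1 = y.1 → γ x = γ y → x = y

open Classical in
/-- number of codes -/
noncomputable def nCode (P : Pat A) (c₀ : Fin K) : ℕ :=
  (univ.filter (fun γ : H × S → Fin K => IsCode P c₀ γ)).card

open Classical in
theorem nCode_le (hK : 0 < K) (P : Pat A) (c₀ : Fin K) :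
    (nCode P c₀ : ℝ) ≤ (K : ℝ) ^ P.D.card / (K : ℝ) ^ P.C.card := by
  refine le_trans ?_ (card_codes hK P c₀)
  have h : nCode P c₀ ≤
      Nat.card {γ : H × S → Fin K // (∀ x, x ∉ P.D → γ x = c₀) ∧ ∀ p ∈ P.C, γ p.1 = γ p.2} := by
    rw [Nat.card_eq_fintype_card, Fintype.card_subtype]
    unfold nCode
    apply Finset.card_le_card
    intro γ hγ
    rw [Finset.mem_filter] at hγ ⊢
    exact ⟨hγ.1, hγ.2.1, hγ.2.2.1⟩
  exact_mod_cast h

theorem nCode_wt (L : ℕ) (hK : 0 < K) (P : Pat A) (c₀ : Fin K) :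
    (nCode P c₀ : ℝ) * (Th L K P.D.card / (K : ℝ) ^ P.D.card) ≤ P.wt L K := by
  have hK' : (0 : ℝ) < K := by exact_mod_cast hK
  have h := nCode_le hK P c₀
  have hT := Th_nonneg L K P.D.card
  have h6 : (0 : ℝ) ≤ Th L K P.D.card / (K : ℝ) ^ P.D.card := by positivity
  refine (mul_le_mul_of_nonneg_right h h6).trans (le_of_eq ?_)
  unfold Pat.wt
  field_simp

open Classical in
/-- the number of codes with given colour of a given dart does not depend on the colour -/
theorem codes_swap (P : Pat A) (c₀ : Fin K) {y : H × S} (hy : y ∈ P.D) (c c' : Fin K) :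
    (univ.filter (fun γ : H × S → Fin K => IsCode P c₀ γ ∧ γ y = c)).card ≤
      (univ.filter (fun γ : H × S → Fin K => IsCode P c₀ γ ∧ γ y = c')).card := by
  apply Finset.card_le_card_of_injOn
    (fun γ x => if x ∈ P.D then Equiv.swap c c' (γ x) else c₀)
  · intro γ hγ
    simp only [Finset.coe_filter, Finset.mem_univ, true_and, Set.mem_ofPred_eq] at hγ ⊢
    obtain ⟨⟨h1, h2, h3⟩, h4⟩ := hγ
    refine ⟨⟨?_, ?_, ?_⟩, ?_⟩
    · intro x hx
      simp only [if_neg hx]
    · intro p hp
      simp only [if_pos (P.mem₁ p hp), if_pos (P.mem₂ p hp), h2 p hp]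
    · intro x hx z hz hxz he
      simp only [if_pos hx, if_pos hz] at he
      exact h3 x hx z hz hxz ((Equiv.swap c c').injective he)
    · simp only [if_pos hy, h4, Equiv.swap_apply_left]
  · intro γ hγ γ' hγ' he
    simp only [Finset.coe_filter, Finset.mem_univ, true_and, Set.mem_ofPred_eq] at hγ hγ'
    funext x
    by_cases hx : x ∈ P.D
    · have := congrFun he x
      simp only [if_pos hx] at this
      exact (Equiv.swap c c').injective this
    · rw [hγ.1.1 x hx, hγ'.1.1 x hx]

open Classical in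
theorem codes_colour (P : Pat A) (c₀ : Fin K) {y : H × S} (hy : y ∈ P.D) (c : Fin K) :
    K * (univ.filter (fun γ : H × S → Fin K => IsCode P c₀ γ ∧ γ y = c)).card = nCode P c₀ := by
  have h1 : nCode P c₀ = ∑ c' : Fin K,
      (univ.filter (fun γ : H × S → Fin K => IsCode P c₀ γ ∧ γ y = c')).card := by
    unfold nCode
    rw [Finset.card_eq_sum_card_fiberwise (f := fun γ => γ y) (t := univ)
      (fun γ _ => Finset.mem_coe.2 (Finset.mem_univ _))]
    refine Finset.sum_congr rfl (fun c' _ => ?_)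
    rw [Finset.filter_filter]
  rw [h1]
  have h2 : ∀ c' : Fin K, (univ.filter (fun γ : H × S → Fin K => IsCode P c₀ γ ∧ γ y = c')).card =
      (univ.filter (fun γ : H × S → Fin K => IsCode P c₀ γ ∧ γ y = c)).card :=
    fun c' => le_antisymm (codes_swap P c₀ hy c' c) (codes_swap P c₀ hy c c')
  rw [Finset.sum_congr rfl (fun c' _ => h2 c')]
  simp

end Aux

open Classical in
/-- GC -/
theorem gcrit_sharp {H S : Type} [Fintype H] [Fintype S] (A : H → S → Prop) {K L : ℕ} (hK : 0 < K)
    (hL : 1 ≤ L) (hdeg : ∀ h, (univ.filter (fun s => A h s)).card ≤ K) {ι : Type} [Fintype ι]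
    (P : ι → Pat A)
    (hsum : ∀ x : H × S, ∑ i with x ∈ (P i).D, (P i).wt L K ≤ 1 / (8 * (L : ℝ))) :
    ∃ q : H × S → Fin K, InjQ A q ∧ ∀ i, ∃ p ∈ (P i).C, q p.1 ≠ q p.2 := by
  have hK' : (0 : ℝ) < K := by exact_mod_cast hK
  let c₀ : Fin K := ⟨0, hK⟩
  have hpos : ∀ v : H, ∃ f : S → Fin K, ∀ u w, A v u → A v w → f u = f w → u = w := by
    intro v
    have hc : Fintype.card ↥(univ.filter (fun w => A v w)) ≤ Fintype.card (Fin K) := by
      rw [Fintype.card_coe, Fintype.card_fin]
      exact hdeg v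
    obtain ⟨e⟩ := Function.Embedding.nonempty_of_card_le hc
    refine ⟨fun u => if h : u ∈ univ.filter (fun w => A v w) then e ⟨u, h⟩ else c₀, ?_⟩
    intro u w hu hw he
    have hu' : u ∈ univ.filter (fun w => A v w) := by simp [hu]
    have hw' : w ∈ univ.filter (fun w => A v w) := by simp [hw]
    simp only [dif_pos hu', dif_pos hw'] at he
    exact congrArg Subtype.val (e.injective he)
  choose pos hposi using hpos
  let Cd : ι → Type := fun i => {γ : H × S → Fin K // IsCode (P i) c₀ γ}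
  let E : (Σ i : ι, Cd i) → Finset (H × Fin K × Fin K) := fun j =>
    (P j.1).D.image (fun x => (x.1, pos x.1 x.2, j.2.1 x))
  have hmem : ∀ (j : Σ i : ι, Cd i) (a : H × Fin K × Fin K), a ∈ E j ↔
      ∃ x ∈ (P j.1).D, (x.1, pos x.1 x.2, j.2.1 x) = a := by
    intro j a
    exact Finset.mem_image
  have hxy : ∀ (i : ι) (x y : H × S), x ∈ (P i).D → y ∈ (P i).D → x.1 = y.1 →
      pos x.1 x.2 = pos y.1 y.2 → x = y := by
    intro i x y hx hy h1 h2
    obtain ⟨x1, x2⟩ := x
    obtain ⟨y1, y2⟩ := y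
    simp only at h1 h2
    subst h1
    have := hposi x1 x2 y2 ((P i).adj _ hx) ((P i).adj _ hy) h2
    rw [this]
  have hcardE : ∀ j, (E j).card = (P j.1).D.card := by
    intro j
    refine Finset.card_image_of_injOn ?_
    intro x hx y hy he
    simp only [Prod.mk.injEq] at he
    exact hxy j.1 x y hx hy he.1 he.2.1
  have hcardCd : ∀ i, Fintype.card (Cd i) = nCode (P i) c₀ := by
    intro i
    exact Fintype.card_subtype _
  have hne : ∀ j, (E j).Nonempty := fun j => (P j.1).ne.image _
  have hself : ∀ j, ¬ AEC.Conf (E j) (E j) := by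
    rintro j ⟨a, ha, a', ha', h1, h2⟩
    rw [hmem] at ha ha'
    obtain ⟨x, hx, rfl⟩ := ha
    obtain ⟨y, hy, rfl⟩ := ha'
    apply h2
    simp only at h1 ⊢
    constructor
    · intro h3
      rw [hxy j.1 x y hx hy h1 h3]
    · intro h3
      rw [j.2.2.2.2 x hx y hy h1 h3]
  have hnn : ∀ j : Σ i : ι, Cd i, (0 : ℝ) ≤ Th L K (E j).card / (K : ℝ) ^ (E j).card :=
    fun j => div_nonneg (Th_nonneg _ _ _) (by positivity)
  have hdart : ∀ x : H × S, ∑ i with x ∈ (P i).D, (nCode (P i) c₀ : ℝ) * (Th L K (P i).D.card / (K : ℝ) ^ (P i).D.card)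
      ≤ 1 / (8 * (L : ℝ)) := fun x =>
    (Finset.sum_le_sum (fun i _ => nCode_wt L hK (P i) c₀)).trans (hsum x)
  have hs : ∀ h s, ∑ j with (∃ c, (h, s, c) ∈ E j), Th L K (E j).card / (K : ℝ) ^ (E j).card ≤ 1 / (8 * (L : ℝ)) := by
    intro h s
    by_cases hu : ∃ u, A h u ∧ pos h u = s
    · obtain ⟨u, hu1, hu2⟩ := hu
      refine le_trans ?_ (hdart (h, u))
      have h1 : ∑ j with (∃ c, (h, s, c) ∈ E j), Th L K (E j).card / (K : ℝ) ^ (E j).card ≤
          ∑ j with (h, u) ∈ (P j.1).D, Th L K (E j).card / (K : ℝ) ^ (E j).card := by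
        apply Finset.sum_le_sum_of_subset_of_nonneg
        · intro j hj
          rw [Finset.mem_filter] at hj ⊢
          refine ⟨Finset.mem_univ _, ?_⟩
          obtain ⟨_, c, hc⟩ := hj
          rw [hmem] at hc
          obtain ⟨x, hx, hxe⟩ := hc
          simp only [Prod.mk.injEq] at hxe
          obtain ⟨x1, x2⟩ := x
          simp only at hxe
          obtain ⟨rfl, h3, _⟩ := hxe
          have := hposi x1 x2 u ((P j.1).adj _ hx) hu1 (h3.trans hu2.symm)
          rw [← this]
          exact hx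
        · intro j _ _
          exact hnn j
      refine h1.trans (le_of_eq ?_)
      rw [Finset.sum_filter, Fintype.sum_sigma, Finset.sum_filter]
      refine Finset.sum_congr rfl (fun i _ => ?_)
      by_cases hi : (h, u) ∈ (P i).D
      · simp only [if_pos hi]
        have : ∀ γ : Cd i, Th L K (E ⟨i, γ⟩).card / (K : ℝ) ^ (E ⟨i, γ⟩).card = (Th L K (P i).D.card / (K : ℝ) ^ (P i).D.card) :=
          fun γ => by rw [hcardE ⟨i, γ⟩]
        rw [Finset.sum_congr rfl (fun γ _ => this γ), Finset.sum_const, Finset.card_univ,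
          hcardCd, nsmul_eq_mul]
      · simp only [if_neg hi, Finset.sum_const_zero]
    · rw [Finset.sum_eq_zero_iff_of_nonneg (fun j _ => hnn j) |>.2]
      · norm_num
      · intro j hj
        exfalso
        rw [Finset.mem_filter] at hj
        obtain ⟨_, c, hc⟩ := hj
        rw [hmem] at hc
        obtain ⟨x, hx, hxe⟩ := hc
        simp only [Prod.mk.injEq] at hxe
        obtain ⟨x1, x2⟩ := x
        simp only at hxe
        obtain ⟨rfl, h3, _⟩ := hxe
        exact hu ⟨x2, (P j.1).adj _ hx, h3⟩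
  have hc : ∀ h c, ∑ j with (∃ s, (h, s, c) ∈ E j), Th L K (E j).card / (K : ℝ) ^ (E j).card ≤ 1 / (8 * (L : ℝ)) := by
    intro h c
    have h1 : ∑ j with (∃ s, (h, s, c) ∈ E j), Th L K (E j).card / (K : ℝ) ^ (E j).card ≤
        ∑ j : Σ i : ι, Cd i, ∑ u with A h u,
          (if (h, u) ∈ (P j.1).D ∧ j.2.1 (h, u) = c then Th L K (P j.1).D.card / (K : ℝ) ^ (P j.1).D.card else 0) := by
      rw [Finset.sum_filter]
      refine Finset.sum_le_sum (fun j _ => ?_)
      have hnn2 : ∀ u ∈ univ.filter (fun u => A h u), (0 : ℝ) ≤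
          (if (h, u) ∈ (P j.1).D ∧ j.2.1 (h, u) = c then Th L K (P j.1).D.card / (K : ℝ) ^ (P j.1).D.card else 0) := by
        intro u _
        split_ifs
        · exact div_nonneg (Th_nonneg _ _ _) (by positivity)
        · exact le_rfl
      split_ifs with hj
      · obtain ⟨s, hsj⟩ := hj
        rw [hmem] at hsj
        obtain ⟨x, hx, hxe⟩ := hsj
        simp only [Prod.mk.injEq] at hxe
        obtain ⟨x1, x2⟩ := x
        simp only at hxe
        obtain ⟨rfl, _, h4⟩ := hxe
        have hmemx : x2 ∈ univ.filter (fun u => A x1 u) := by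
          simp only [Finset.mem_filter, Finset.mem_univ, true_and]
          exact (P j.1).adj _ hx
        refine le_trans ?_ (Finset.single_le_sum hnn2 hmemx)
        rw [if_pos ⟨hx, h4⟩, hcardE]
      · exact Finset.sum_nonneg hnn2
    refine h1.trans ?_
    rw [Finset.sum_comm]
    have h2 : ∀ u ∈ univ.filter (fun u => A h u), ∑ j : Σ i : ι, Cd i,
        (if (h, u) ∈ (P j.1).D ∧ j.2.1 (h, u) = c then Th L K (P j.1).D.card / (K : ℝ) ^ (P j.1).D.card else 0) ≤
        1 / (8 * (L : ℝ) * K) := by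
      intro u _
      have h3 : ∑ j : Σ i : ι, Cd i,
          (if (h, u) ∈ (P j.1).D ∧ j.2.1 (h, u) = c then Th L K (P j.1).D.card / (K : ℝ) ^ (P j.1).D.card else 0) =
          (∑ i with (h, u) ∈ (P i).D, (nCode (P i) c₀ : ℝ) * (Th L K (P i).D.card / (K : ℝ) ^ (P i).D.card)) / K := by
        rw [Fintype.sum_sigma, Finset.sum_filter, Finset.sum_div]
        refine Finset.sum_congr rfl (fun i _ => ?_)
        by_cases hi : (h, u) ∈ (P i).D
        · simp only [hi, true_and, if_true]
          rw [← codes_colour (P i) c₀ hi c, ← Finset.sum_filter, Finset.sum_const, nsmul_eq_mul]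
          have h5 : (univ.filter (fun γ : Cd i => γ.1 (h, u) = c)).card =
              (univ.filter (fun γ : H × S → Fin K => IsCode (P i) c₀ γ ∧ γ (h, u) = c)).card := by
            refine Finset.card_bij (fun γ _ => γ.1) ?_ ?_ ?_
            · intro γ hγ
              simp only [Finset.mem_filter, Finset.mem_univ, true_and] at hγ ⊢
              exact ⟨γ.2, hγ⟩
            · intro γ _ γ' _ he
              exact Subtype.ext he
            · intro γ hγ
              simp only [Finset.mem_filter, Finset.mem_univ, true_and] at hγ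
              exact ⟨⟨γ, hγ.1⟩, by simp [hγ.2], rfl⟩
          rw [h5]
          push_cast
          field_simp
        · simp only [hi, false_and, if_false, Finset.sum_const_zero, zero_div]
      rw [h3, div_le_iff₀ hK']
      refine (hdart (h, u)).trans (le_of_eq ?_)
      field_simp
    refine (Finset.sum_le_sum h2).trans ?_
    rw [Finset.sum_const, nsmul_eq_mul]
    have h6 : ((univ.filter (fun u => A h u)).card : ℝ) ≤ K := by exact_mod_cast hdeg h
    have h7 : (0 : ℝ) ≤ 1 / (8 * (L : ℝ) * K) := by positivity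
    refine (mul_le_mul_of_nonneg_right h6 h7).trans (le_of_eq ?_)
    field_simp
  obtain ⟨ρ, hρ⟩ := lll_sharp hL E hne hself hs hc
  refine ⟨fun x => ρ x.1 (pos x.1 x.2), ?_, ?_⟩
  · intro v u w hu hw he
    exact hposi v u w hu hw ((ρ v).injective he)
  · intro i
    by_contra hcon
    push Not at hcon
    let γ : H × S → Fin K := fun x => if x ∈ (P i).D then ρ x.1 (pos x.1 x.2) else c₀
    have hγ : IsCode (P i) c₀ γ := by
      refine ⟨?_, ?_, ?_⟩
      · intro x hx
        exact if_neg hx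
      · intro p hp
        show (if p.1 ∈ (P i).D then ρ p.1.1 (pos p.1.1 p.1.2) else c₀) =
          (if p.2 ∈ (P i).D then ρ p.2.1 (pos p.2.1 p.2.2) else c₀)
        rw [if_pos ((P i).mem₁ p hp), if_pos ((P i).mem₂ p hp)]
        exact hcon p hp
      · intro x hx y hy h1 h2
        have h3 : (if x ∈ (P i).D then ρ x.1 (pos x.1 x.2) else c₀) =
          (if y ∈ (P i).D then ρ y.1 (pos y.1 y.2) else c₀) := h2
        rw [if_pos hx, if_pos hy, h1] at h3
        refine hxy i x y hx hy h1 ?_
        rw [h1]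
        exact (ρ y.1).injective h3
    apply hρ ⟨i, ⟨γ, hγ⟩⟩
    intro a ha
    rw [hmem] at ha
    obtain ⟨x, hx, rfl⟩ := ha
    show ρ x.1 (pos x.1 x.2) = (if x ∈ (P i).D then ρ x.1 (pos x.1 x.2) else c₀)
    rw [if_pos hx]

end Pool.Agent.H95.AED
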