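import Pool.Agent.H95.AED.BT

/-!
# AED KY: the key darts are different

`x`, `t` valid. KY 1: `rootd` is injective on strictly rising oriented edges (`rootd w v = dd v w`). KY 2: let
`f = lev_j s`, `s < |t j|`, so `r f.1 < r f.2` and `rootd f = dd f.2 f.1` (a lower slot). By LV 11 the colour dart of
`g = lev_i s'` is `dd a b` for the next edge `(a, b)`, `r a ≤ r b`, if `s' < |t i|`; it cannot be `dd f.2 f.1` as `r f.1 < r f.2`. If
`s' = |t i|` it is `rootd g`, which is `de _ _` (hub of the other kind) or `dd g.2 g.1`; in the latter case `g = f`, so the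
lists `(t i).drop s' = []` and `(t j).drop s ≠ []` (TL 5) are both `Tq g`, contradiction.
KY 3: `gam (e i) = gam (e j)`: both lists empty: `rootd (e i) = rootd (e j)` gives the same unoriented edge, so `i = j` by
`hdist`; both non-empty: `dd v a`, the two edges have the same head `v` and the lists the same first element `a`, so
`Tq_child` (TL 7) gives `e i x = e j x`; one empty: `rootd (w, v) = dd v w` with `r w < r v` is not `dd v' a`, `r v' ≤ r a`.
-/

set_option autoImplicit false

open Finset

namespace Pool.Agent.H95.AED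

variable {V : Type} [Fintype V] {G : SimpleGraph V} {r : V → ℕ} {L : ℕ} (c : Cfg G r L) {K : ℕ}

/-- KY 1 -/
theorem rootd_inj {w v w' v' : V} (h : r w < r v) (h' : r w' < r v')
    (he : rootd r w v = rootd r w' v') : w = w' ∧ v = v' := by
  unfold rootd dd at he
  rw [if_pos h, if_pos h'] at he
  obtain ⟨h1, h2⟩ := Prod.mk.inj he
  exact ⟨Option.some.inj h2, Sum.inl.inj h1⟩

private theorem ky_de {w v a b : V} : de w v ≠ dd a b := by
  intro h
  exact absurd (Prod.mk.inj h).1 (by simp)

/-- KY 2 -/
theorem gam_ne_key {x : c.X} {t : Fin c.m → List V} (hv : c.Valid K x t) {i j : Fin c.m} {s s' : ℕ}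
    (hs : s < (t j).length) (hs' : s' ≤ (t i).length) :
    gam r (lev (c.e i x).1 (c.e i x).2 (t i) s').1 (lev (c.e i x).1 (c.e i x).2 (t i) s').2
      ((t i).drop s') ≠
    rootd r (lev (c.e j x).1 (c.e j x).2 (t j) s).1 (lev (c.e j x).1 (c.e j x).2 (t j) s).2 := by
  obtain ⟨q, hq, ht, hocc⟩ := hv
  have hci : Chn G r (c.e i x).1 (c.e i x).2 (t i) := by
    rw [ht i]
    exact Tq_chn G r L q (c.hup i x)
  have hcj : Chn G r (c.e j x).1 (c.e j x).2 (t j) := by
    rw [ht j]
    exact Tq_chn G r L q (c.hup j x)
  have hf := (chn_lev G r hcj s hs.le).2.1 hs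
  intro he
  rw [gam_lev r (c.e i x).1 (c.e i x).2 (t i) s' hs'] at he
  by_cases h1 : s' < (t i).length
  · rw [if_pos h1] at he
    have h2 := (chn_lev G r hci (s' + 1) h1).1.2
    unfold rootd at he
    rw [if_pos hf] at he
    obtain ⟨h3, h4⟩ := Prod.mk.inj he
    have h5 := Sum.inl.inj h3
    have h6 := Option.some.inj h4
    rw [h5, h6] at h2
    omega
  · rw [if_neg h1] at he
    by_cases h2 : r (lev (c.e i x).1 (c.e i x).2 (t i) s').1 <
        r (lev (c.e i x).1 (c.e i x).2 (t i) s').2
    · obtain ⟨h3, h4⟩ := rootd_inj h2 hf he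
      have h5 := Tq_lev G r L q (c.e i x).1 (c.e i x).2 s' (by rw [← ht i]; exact hs')
      have h6 := Tq_lev G r L q (c.e j x).1 (c.e j x).2 s (by rw [← ht j]; exact hs.le)
      rw [← ht i] at h5
      rw [← ht j] at h6
      rw [h3, h4, h6] at h5
      have h7 := congrArg List.length h5
      rw [List.length_drop, List.length_drop] at h7
      omega
    · unfold rootd at he
      rw [if_neg h2, if_pos hf] at he
      exact ky_de he

/-- KY 3 -/
theorem gam_inj {x : c.X} {t : Fin c.m → List V} (hv : c.Valid K x t) {i j : Fin c.m}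
    (h : gam r (c.e i x).1 (c.e i x).2 (t i) = gam r (c.e j x).1 (c.e j x).2 (t j)) : i = j := by
  obtain ⟨q, hq, ht, hocc⟩ := hv
  have hroot : ∀ {w v w' v' a : V}, Upe G r v' a → rootd r w v ≠ dd v' a := by
    intro w v w' v' a ha he
    unfold rootd at he
    by_cases h1 : r w < r v
    · rw [if_pos h1] at he
      obtain ⟨h3, h4⟩ := Prod.mk.inj he
      have h5 := Sum.inl.inj h3
      have h6 := Option.some.inj h4
      have h7 := ha.2
      rw [← h5, ← h6] at h7
      omega
    · rw [if_neg h1] at he
      exact ky_de he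
  by_contra hne
  refine c.hdist i j x hne ?_
  rcases hti : t i with _ | ⟨a, ti⟩
  · rcases htj : t j with _ | ⟨b, tj⟩
    · rw [hti, htj] at h
      simp only [gam] at h
      unfold rootd at h
      by_cases h1 : r (c.e i x).1 < r (c.e i x).2 <;> by_cases h2 : r (c.e j x).1 < r (c.e j x).2
      · rw [if_pos h1, if_pos h2] at h
        obtain ⟨h3, h4⟩ := Prod.mk.inj h
        rw [Sum.inl.inj h3, Option.some.inj h4]
      · rw [if_pos h1, if_neg h2] at h
        exact absurd h.symm ky_de
      · rw [if_neg h1, if_pos h2] at h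
        exact absurd h ky_de
      · rw [if_neg h1, if_neg h2] at h
        exact Sum.inr.inj (Prod.mk.inj h).1
    · rw [hti, htj] at h
      simp only [gam] at h
      have h1 := Tq_tail G r L q ((ht j).symm.trans htj)
      exact absurd h (hroot (w' := (c.e j x).1) h1.2.1)
  · rcases htj : t j with _ | ⟨b, tj⟩
    · rw [hti, htj] at h
      simp only [gam] at h
      have h1 := Tq_tail G r L q ((ht i).symm.trans hti)
      exact absurd h.symm (hroot (w' := (c.e j x).1) h1.2.1)
    · rw [hti, htj] at h
      simp only [gam] at h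
      obtain ⟨h3, h4⟩ := Prod.mk.inj h
      have h5 : (c.e i x).2 = (c.e j x).2 := Sum.inl.inj h3
      have h6 : a = b := Option.some.inj h4
      have h7 := (ht i).symm.trans hti
      have h8 := (ht j).symm.trans htj
      rw [h5, h6] at h7
      have h9 := (c.hup i x).1
      rw [h5] at h9
      have h10 := Tq_child G r L q hq h9 (c.hup j x).1 h7 h8
      rw [h10, h5]

end Pool.Agent.H95.AED
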