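import Pool.Agent.H95.AED.Def

/-!
# AED LA: sharper bound for random permutations

Proof. From `AEC.hold_phi`: `#{ρ avoiding J with F} * Phi F ≤ #{ρ avoiding J}`, `Phi F = ∏ h, K.descFactorial (mh F h)`,
`∑ h, mh F h = |F|` (`AEC.sum_mh`), `mh F h ≤ K` (`AEC.mh_le`). If `4 L |F| ≤ K`: for `m ≤ K`, `4 L m ≤ K`:
`K^m (4L-1)^m ≤ (4L)^m K.descFactorial m` (termwise: `K (4L-1) ≤ 4L (K - i)` for `i < m`), so
`K^|F| (4L-1)^|F| ≤ (4L)^|F| Phi F`. In the other case `K^m ≤ 3^m K.descFactorial m` (`AEC.pow_le_desc`).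
See the end of `AEC/LLL1.lean` (`hold_bound`) for the real division. (If `K = 0` then `F = ∅`.)
-/

set_option autoImplicit false

open Finset

namespace Pool.Agent.H95.AED

open Pool.Agent.H95.AEC (Conf Holds)

/-- bound for the ratio of `K^m` and the falling factorials -/
noncomputable def P0 (L K m : ℕ) : ℝ := if 4 * L * m ≤ K then (4 * L / (4 * L - 1)) ^ m else 3 ^ m

theorem four_sub {L : ℕ} (hL : 1 ≤ L) : (0 : ℝ) < 4 * L - 1 := by
  have h : (1 : ℝ) ≤ L := by exact_mod_cast hL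
  linarith

theorem pow_le_desc_sharp {K L : ℕ} (hL : 1 ≤ L) (m : ℕ) (h : 4 * L * m ≤ K) :
    (K : ℝ) ^ m ≤ (4 * L / (4 * L - 1)) ^ m * (K.descFactorial m : ℝ) := by
  induction m with
  | zero => simp
  | succ m ih =>
    have hLr : (1 : ℝ) ≤ L := by exact_mod_cast hL
    have h4 := four_sub hL
    have h1 : 4 * L * m ≤ K := le_trans (Nat.mul_le_mul_left _ (Nat.le_succ m)) h
    have hmK : m ≤ K := by nlinarith
    have h2 : (4 * L * m : ℝ) ≤ K := by exact_mod_cast h1
    have h3 : (K : ℝ) ≤ 4 * L / (4 * L - 1) * ((K - m : ℕ) : ℝ) := by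
      rw [Nat.cast_sub hmK, div_mul_eq_mul_div, le_div_iff₀ h4]
      nlinarith
    rw [pow_succ, pow_succ, Nat.descFactorial_succ, Nat.cast_mul]
    calc (K : ℝ) ^ m * K ≤ ((4 * L / (4 * L - 1)) ^ m * (K.descFactorial m : ℝ)) *
          (4 * L / (4 * L - 1) * ((K - m : ℕ) : ℝ)) :=
          mul_le_mul (ih h1) h3 (by positivity) (by positivity)
      _ = _ := by ring

/-- LA -/
theorem hold_sharp {H ι : Type} [Fintype H] [DecidableEq H] {K L : ℕ} (hL : 1 ≤ L)
    (E : ι → Finset (H × Fin K × Fin K)) (J : Finset ι) (F : Finset (H × Fin K × Fin K))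
    (hF : ¬ Conf F F) (hJ : ∀ j ∈ J, ¬ Conf F (E j)) :
    (Nat.card {ρ : H → Equiv.Perm (Fin K) // (∀ j ∈ J, ¬ Holds ρ (E j)) ∧ Holds ρ F} : ℝ) ≤
      P0 L K F.card / (K : ℝ) ^ F.card *
        Nat.card {ρ : H → Equiv.Perm (Fin K) // ∀ j ∈ J, ¬ Holds ρ (E j)} := by
  classical
  unfold P0
  by_cases hc : 4 * L * F.card ≤ K
  · rw [if_pos hc]
    have hLr : (1 : ℝ) ≤ L := by exact_mod_cast hL
    have h4 := four_sub hL
    have hKp : (0 : ℝ) < (K : ℝ) ^ F.card := by
      rcases Nat.eq_zero_or_pos K with h0 | h0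
      · have h0' : F.card = 0 := by
          by_contra hne
          have h7 : 1 ≤ F.card := Nat.one_le_iff_ne_zero.mpr hne
          have h8 : 4 * L * 1 ≤ 4 * L * F.card := Nat.mul_le_mul_left _ h7
          omega
        rw [h0', pow_zero]
        exact one_pos
      · have : (0 : ℝ) < K := by exact_mod_cast h0
        positivity
    have h2 : (K : ℝ) ^ F.card ≤ (4 * L / (4 * L - 1)) ^ F.card * (AEC.Phi F : ℝ) := by
      have hm : ∀ h : H, 4 * L * AEC.mh F h ≤ K := by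
        intro h
        refine le_trans (Nat.mul_le_mul_left _ ?_) hc
        rw [← AEC.sum_mh F]
        exact Finset.single_le_sum (f := fun h => AEC.mh F h) (fun _ _ => Nat.zero_le _)
          (Finset.mem_univ h)
      have h5 : (K : ℝ) ^ F.card = ∏ h : H, (K : ℝ) ^ AEC.mh F h := by
        rw [Finset.prod_pow_eq_pow_sum, AEC.sum_mh]
      have h6 : (4 * L / (4 * L - 1) : ℝ) ^ F.card =
          ∏ h : H, (4 * L / (4 * L - 1) : ℝ) ^ AEC.mh F h := by
        rw [Finset.prod_pow_eq_pow_sum, AEC.sum_mh]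
      rw [h5, h6]
      unfold AEC.Phi
      rw [Nat.cast_prod, ← Finset.prod_mul_distrib]
      exact Finset.prod_le_prod (fun h _ => by positivity) fun h _ =>
        pow_le_desc_sharp hL _ (hm h)
    rw [Nat.card_eq_fintype_card, Nat.card_eq_fintype_card, Fintype.card_subtype,
      Fintype.card_subtype]
    have h1 := AEC.hold_phi E J F hF hJ
    generalize ((univ : Finset (H → Equiv.Perm (Fin K))).filter
        fun ρ => (∀ j ∈ J, ¬ Holds ρ (E j)) ∧ Holds ρ F).card = A at h1 ⊢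
    generalize ((univ : Finset (H → Equiv.Perm (Fin K))).filter
        fun ρ => (∀ j ∈ J, ¬ Holds ρ (E j))).card = B at h1 ⊢
    have h1' : (A : ℝ) * AEC.Phi F ≤ B := by exact_mod_cast h1
    rw [div_mul_eq_mul_div, le_div_iff₀ hKp]
    calc (A : ℝ) * (K : ℝ) ^ F.card ≤ A * ((4 * L / (4 * L - 1)) ^ F.card * (AEC.Phi F : ℝ)) :=
          mul_le_mul_of_nonneg_left h2 (Nat.cast_nonneg _)
      _ = (4 * L / (4 * L - 1)) ^ F.card * ((A : ℝ) * AEC.Phi F) := by ring
      _ ≤ (4 * L / (4 * L - 1)) ^ F.card * B := by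
          refine mul_le_mul_of_nonneg_left h1' (by positivity)
  · rw [if_neg hc, ← div_pow]
    exact AEC.hold_bound E J F hF hJ

end Pool.Agent.H95.AED
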