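import Pool.Agent.H95.AED.LA
import Pool.Agent.H95.AEC.LLL2

/-!
# AED LB: lopsided local lemma with sharper weights

Copy of `AEC/LLL2.lean` with `x i = Th L K |E i| / K^|E i|` instead of `(6/K)^|E i|` and `1/(8L)` instead of `1/4`:
for an atom `a` the sum of `x j` over the events sharing the slot or the colour of `a` is `≤ 1/(4L)`, so the product
of the `1 - x j`, `j` in conflict with `E i`, is at least `(1 - 1/(4L))^|E i|`, and
`P0 L K m * (4L/(4L-1))^m ≤ Th L K m`: if `4Lm ≤ K` because `(4L/(4L-1))² ≤ 1 + 1/L` (`L ≥ 1`), otherwise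
because `3 * (4L/(4L-1)) ≤ 3 * 4/3 ≤ 6`. (`K > 0` is needed only to know `x i ≥ 0`, `x i ≤ 1/(8L) ≤ 1/8`.)
-/

set_option autoImplicit false

open Finset

namespace Pool.Agent.H95.AED

open Pool.Agent.H95.AEC (Conf Holds)

theorem Th_nonneg (L K m : ℕ) : 0 ≤ Th L K m := by
  unfold Th; split_ifs <;> positivity

theorem P0_mul_le {L : ℕ} (hL : 1 ≤ L) (K m : ℕ) :
    P0 L K m * (4 * L / (4 * L - 1)) ^ m ≤ Th L K m := by
  have hLr : (1 : ℝ) ≤ L := by exact_mod_cast hL
  have h4 := four_sub hL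
  have hq : (0 : ℝ) ≤ 4 * L / (4 * L - 1) := by positivity
  unfold P0 Th
  split_ifs with h
  · rw [← mul_pow]
    refine pow_le_pow_left₀ (by positivity) ?_ m
    rw [div_mul_div_comm, div_le_iff₀ (by positivity)]
    have h5 : (1 + 1 / (L : ℝ)) * ((4 * L - 1) * (4 * L - 1)) - 4 * L * (4 * L) =
        (8 * L * (L - 1) + (L - 1) + 2) / L - 0 := by
      field_simp
      ring
    have h6 : (0 : ℝ) ≤ (8 * L * (L - 1) + (L - 1) + 2) / L := by
      have : (0 : ℝ) ≤ L - 1 := by linarith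
      positivity
    linarith
  · rw [← mul_pow]
    refine pow_le_pow_left₀ (by positivity) ?_ m
    rw [mul_div_assoc', div_le_iff₀ h4]
    linarith

section main

open Classical

variable {H ι : Type} [Fintype H] {K : ℕ} (L : ℕ) (E : ι → Finset (H × Fin K × Fin K))

/-- the weight of an event -/
noncomputable def yy (i : ι) : ℝ := Th L K (E i).card / (K : ℝ) ^ (E i).card

theorem yy_nonneg (i : ι) : 0 ≤ yy L E i := by
  unfold yy
  have := Th_nonneg L K (E i).card
  positivity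

variable [Fintype ι]

theorem yy_le (hL : 1 ≤ L) (hne : ∀ i, (E i).Nonempty)
    (hs : ∀ h s, ∑ i with (∃ c, (h, s, c) ∈ E i), Th L K (E i).card / (K : ℝ) ^ (E i).card ≤
      1 / (8 * (L : ℝ))) (i : ι) :
    yy L E i ≤ 1 / 8 := by
  obtain ⟨⟨h, s, c⟩, ha⟩ := hne i
  have hLr : (1 : ℝ) ≤ L := by exact_mod_cast hL
  have h1 : yy L E i ≤ 1 / (8 * (L : ℝ)) := by
    refine le_trans ?_ (hs h s)
    exact Finset.single_le_sum (f := fun i => Th L K (E i).card / (K : ℝ) ^ (E i).card)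
      (fun j _ => yy_nonneg L E j) (Finset.mem_filter.2 ⟨Finset.mem_univ _, c, ha⟩)
  refine h1.trans ?_
  rw [div_le_div_iff₀ (by positivity) (by norm_num)]
  linarith

theorem sum_TT' (hs : ∀ h s, ∑ i with (∃ c, (h, s, c) ∈ E i),
      Th L K (E i).card / (K : ℝ) ^ (E i).card ≤ 1 / (8 * (L : ℝ)))
    (hc : ∀ h c, ∑ i with (∃ s, (h, s, c) ∈ E i), Th L K (E i).card / (K : ℝ) ^ (E i).card ≤
      1 / (8 * (L : ℝ)))
    (a : H × Fin K × Fin K) : ∑ j ∈ AEC.TT E a, yy L E j ≤ 1 / (4 * (L : ℝ)) := by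
  unfold AEC.TT yy
  rw [Finset.filter_or]
  have h1 := hs a.1 a.2.1
  have h2 := hc a.1 a.2.2
  have h3 := Finset.sum_union_inter
    (s₁ := univ.filter fun j => ∃ c', (a.1, a.2.1, c') ∈ E j)
    (s₂ := univ.filter fun j => ∃ s', (a.1, s', a.2.2) ∈ E j)
    (f := fun j => Th L K (E j).card / (K : ℝ) ^ (E j).card)
  have h4 : 0 ≤ ∑ j ∈ (univ.filter fun j => ∃ c', (a.1, a.2.1, c') ∈ E j) ∩
      (univ.filter fun j => ∃ s', (a.1, s', a.2.2) ∈ E j),
      Th L K (E j).card / (K : ℝ) ^ (E j).card :=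
    Finset.sum_nonneg fun j _ => yy_nonneg L E j
  have h5 : 1 / (4 * (L : ℝ)) = 1 / (8 * (L : ℝ)) + 1 / (8 * (L : ℝ)) := by
    rcases Nat.eq_zero_or_pos L with h0 | h0
    · subst h0; simp
    · have : (0 : ℝ) < L := by exact_mod_cast h0
      field_simp
      norm_num
  linarith

theorem prod_ge' (hL : 1 ≤ L) (hne : ∀ i, (E i).Nonempty)
    (hs : ∀ h s, ∑ i with (∃ c, (h, s, c) ∈ E i), Th L K (E i).card / (K : ℝ) ^ (E i).card ≤
      1 / (8 * (L : ℝ)))
    (hc : ∀ h c, ∑ i with (∃ s, (h, s, c) ∈ E i), Th L K (E i).card / (K : ℝ) ^ (E i).card ≤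
      1 / (8 * (L : ℝ)))
    (D : Finset (H × Fin K × Fin K)) :
    ∀ J : Finset ι, J ⊆ D.biUnion (AEC.TT E) →
      (1 - 1 / (4 * (L : ℝ))) ^ D.card ≤ ∏ j ∈ J, (1 - yy L E j) := by
  have hx1 : ∀ j, yy L E j ≤ 1 := fun j => (yy_le L E hL hne hs j).trans (by norm_num)
  have hLr : (1 : ℝ) ≤ L := by exact_mod_cast hL
  have hq : 0 < 1 - 1 / (4 * (L : ℝ)) := by
    have : 1 / (4 * (L : ℝ)) ≤ 1 / 4 := by
      rw [div_le_div_iff₀ (by positivity) (by norm_num)]
      linarith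
    linarith
  induction D using Finset.induction_on with
  | empty =>
    intro J hJ
    have : J = ∅ := by
      rw [Finset.biUnion_empty] at hJ
      exact Finset.subset_empty.1 hJ
    subst this
    simp
  | insert a D ha ih =>
    intro J hJ
    have h1 := Finset.prod_filter_mul_prod_filter_not J (fun j => j ∈ AEC.TT E a)
      (fun j => 1 - yy L E j)
    rw [← h1, Finset.card_insert_of_notMem ha, pow_succ']
    have h2 : (1 - 1 / (4 * (L : ℝ))) ≤ ∏ j ∈ J with j ∈ AEC.TT E a, (1 - yy L E j) := by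
      have h3 := (AEC.one_sub_sum_le (yy L E) (J.filter fun j => j ∈ AEC.TT E a)
        (fun j _ => yy_nonneg L E j) (fun j _ => hx1 j)).1
      have h4 : ∑ j ∈ J with j ∈ AEC.TT E a, yy L E j ≤ ∑ j ∈ AEC.TT E a, yy L E j :=
        Finset.sum_le_sum_of_subset_of_nonneg (fun j hj => (Finset.mem_filter.1 hj).2)
          (fun j _ _ => yy_nonneg L E j)
      have h5 := sum_TT' L E hs hc a
      linarith
    have h6 : (1 - 1 / (4 * (L : ℝ))) ^ D.card ≤
        ∏ j ∈ J with ¬ j ∈ AEC.TT E a, (1 - yy L E j) := by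
      refine ih _ ?_
      intro j hj
      rw [Finset.mem_filter] at hj
      have h7 := hJ hj.1
      rw [Finset.biUnion_insert, Finset.mem_union] at h7
      rcases h7 with h7 | h7
      · exact absurd h7 hj.2
      · exact h7
    exact mul_le_mul h2 h6 (pow_nonneg hq.le _) (by linarith)

theorem main_claim' (hL : 1 ≤ L) (hne : ∀ i, (E i).Nonempty) (hself : ∀ i, ¬ Conf (E i) (E i))
    (hs : ∀ h s, ∑ i with (∃ c, (h, s, c) ∈ E i), Th L K (E i).card / (K : ℝ) ^ (E i).card ≤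
      1 / (8 * (L : ℝ)))
    (hc : ∀ h c, ∑ i with (∃ s, (h, s, c) ∈ E i), Th L K (E i).card / (K : ℝ) ^ (E i).card ≤
      1 / (8 * (L : ℝ)))
    (n : ℕ) : ∀ J : Finset ι, J.card = n → ∀ i, AEC.AA E i J ≤ yy L E i * AEC.NN E J := by
  have hx1 : ∀ j, yy L E j ≤ 1 := fun j => (yy_le L E hL hne hs j).trans (by norm_num)
  induction n using Nat.strong_induction_on with
  | _ n ih =>
    intro J hJ i
    obtain ⟨J₁, hJ₁⟩ : ∃ J₁, J₁ = J.filter fun j => Conf (E i) (E j) := ⟨_, rfl⟩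
    obtain ⟨J₂, hJ₂⟩ : ∃ J₂, J₂ = J.filter fun j => ¬ Conf (E i) (E j) := ⟨_, rfl⟩
    have hJ₂J : J₂ ⊆ J := by rw [hJ₂]; exact Finset.filter_subset _ _
    have hJ₁J : J₁ ⊆ J := by rw [hJ₁]; exact Finset.filter_subset _ _
    have hun : J₂ ∪ J₁ = J := by
      rw [hJ₁, hJ₂, Finset.union_comm]; exact Finset.filter_union_filter_not_eq _ _
    have hdj : ∀ j ∈ J₁, j ∉ J₂ := by
      intro j h1 h2
      rw [hJ₁, Finset.mem_filter] at h1
      rw [hJ₂, Finset.mem_filter] at h2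
      exact h2.2 h1.2
    -- the bound from LA
    have hb : AEC.AA E i J₂ ≤ P0 L K (E i).card / (K : ℝ) ^ (E i).card * AEC.NN E J₂ := by
      have h2 := hold_sharp hL E J₂ (E i) (hself i) (fun j hj => by
        rw [hJ₂, Finset.mem_filter] at hj
        exact hj.2)
      exact h2
    -- adding the elements of J₁
    have hstep : ∀ J' : Finset ι, J' ⊆ J₁ →
        (∏ j ∈ J', (1 - yy L E j)) * AEC.NN E J₂ ≤ AEC.NN E (J₂ ∪ J') := by
      intro J'
      induction J' using Finset.induction_on with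
      | empty => intro _; simp
      | insert j J' hj ih' =>
        intro hsub
        have h1 := ih' ((Finset.subset_insert _ _).trans hsub)
        have hjJ₁ : j ∈ J₁ := hsub (Finset.mem_insert_self _ _)
        have hcard : (J₂ ∪ J').card < n := by
          rw [← hJ]
          refine Finset.card_lt_card ⟨?_, ?_⟩
          · intro x hx
            rw [Finset.mem_union] at hx
            rcases hx with hx | hx
            · exact hJ₂J hx
            · exact hJ₁J (hsub (Finset.mem_insert_of_mem hx))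
          · intro hcon
            have h2 := hcon (hJ₁J hjJ₁)
            rw [Finset.mem_union] at h2
            rcases h2 with h2 | h2
            · exact hdj j hjJ₁ h2
            · exact hj h2
        have h3 := ih _ hcard (J₂ ∪ J') rfl j
        rw [Finset.union_insert, AEC.NN_insert, Finset.prod_insert hj]
        have h4 := hx1 j
        have h5 := AEC.NN_nonneg E (J₂ ∪ J')
        calc (1 - yy L E j) * (∏ j ∈ J', (1 - yy L E j)) * AEC.NN E J₂
            = (1 - yy L E j) * ((∏ j ∈ J', (1 - yy L E j)) * AEC.NN E J₂) := by ring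
          _ ≤ (1 - yy L E j) * AEC.NN E (J₂ ∪ J') := mul_le_mul_of_nonneg_left h1 (by linarith)
          _ = AEC.NN E (J₂ ∪ J') - yy L E j * AEC.NN E (J₂ ∪ J') := by ring
          _ ≤ _ := by linarith
    have h1 := hstep J₁ (Finset.Subset.refl _)
    rw [hun] at h1
    have h2 := prod_ge' L E hL hne hs hc (E i) J₁ (by
      intro j hj
      rw [hJ₁, Finset.mem_filter] at hj
      obtain ⟨⟨h₁, s₁, c₁⟩, ha, ⟨h₂, s₂, c₂⟩, ha', hh, hcf⟩ := hj.2
      simp only at hh hcf
      subst hh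
      rw [Finset.mem_biUnion]
      refine ⟨_, ha, ?_⟩
      unfold AEC.TT
      rw [Finset.mem_filter]
      refine ⟨Finset.mem_univ _, ?_⟩
      by_cases h3 : s₁ = s₂
      · left; subst h3; exact ⟨c₂, ha'⟩
      · right
        have h4 : c₁ = c₂ := by
          by_contra h4
          exact hcf ⟨fun h => absurd h h3, fun h => absurd h h4⟩
        subst h4
        exact ⟨s₂, ha'⟩)
    have hLr : (1 : ℝ) ≤ L := by exact_mod_cast hL
    have h4L := four_sub hL
    have hqeq : (4 * (L : ℝ) / (4 * L - 1)) * (1 - 1 / (4 * (L : ℝ))) = 1 := by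
      field_simp
    have h3 : (1 - 1 / (4 * (L : ℝ))) ^ (E i).card * AEC.NN E J₂ ≤ AEC.NN E J :=
      (mul_le_mul_of_nonneg_right h2 (AEC.NN_nonneg E J₂)).trans h1
    have h4 : AEC.NN E J₂ ≤ (4 * (L : ℝ) / (4 * L - 1)) ^ (E i).card * AEC.NN E J := by
      have h5 : (4 * (L : ℝ) / (4 * L - 1)) ^ (E i).card * (1 - 1 / (4 * (L : ℝ))) ^ (E i).card
          = 1 := by
        rw [← mul_pow, hqeq, one_pow]
      calc AEC.NN E J₂ = ((4 * (L : ℝ) / (4 * L - 1)) ^ (E i).card *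
            (1 - 1 / (4 * (L : ℝ))) ^ (E i).card) * AEC.NN E J₂ := by rw [h5, one_mul]
        _ = (4 * (L : ℝ) / (4 * L - 1)) ^ (E i).card *
            ((1 - 1 / (4 * (L : ℝ))) ^ (E i).card * AEC.NN E J₂) := by ring
        _ ≤ _ := mul_le_mul_of_nonneg_left h3 (by positivity)
    have hP : 0 ≤ P0 L K (E i).card := by
      unfold P0; split_ifs <;> positivity
    calc AEC.AA E i J ≤ AEC.AA E i J₂ := AEC.AA_mono E i hJ₂J
      _ ≤ P0 L K (E i).card / (K : ℝ) ^ (E i).card * AEC.NN E J₂ := hb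
      _ ≤ P0 L K (E i).card / (K : ℝ) ^ (E i).card *
          ((4 * (L : ℝ) / (4 * L - 1)) ^ (E i).card * AEC.NN E J) :=
        mul_le_mul_of_nonneg_left h4 (by positivity)
      _ = (P0 L K (E i).card * (4 * (L : ℝ) / (4 * L - 1)) ^ (E i).card) /
          (K : ℝ) ^ (E i).card * AEC.NN E J := by ring
      _ ≤ yy L E i * AEC.NN E J := by
        unfold yy
        refine mul_le_mul_of_nonneg_right ?_ (AEC.NN_nonneg E J)
        exact div_le_div_of_nonneg_right (P0_mul_le hL K _) (by positivity)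

theorem NN_pos' (hL : 1 ≤ L) (hne : ∀ i, (E i).Nonempty) (hself : ∀ i, ¬ Conf (E i) (E i))
    (hs : ∀ h s, ∑ i with (∃ c, (h, s, c) ∈ E i), Th L K (E i).card / (K : ℝ) ^ (E i).card ≤
      1 / (8 * (L : ℝ)))
    (hc : ∀ h c, ∑ i with (∃ s, (h, s, c) ∈ E i), Th L K (E i).card / (K : ℝ) ^ (E i).card ≤
      1 / (8 * (L : ℝ)))
    (J : Finset ι) : 0 < AEC.NN E J := by
  induction J using Finset.induction_on with
  | empty =>
    rw [AEC.NN_eq]
    refine Nat.cast_pos.2 ?_
    rw [Finset.card_pos]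
    exact ⟨1, by simp⟩
  | insert j J hj ih =>
    rw [AEC.NN_insert]
    have h1 := main_claim' L E hL hne hself hs hc _ J rfl j
    have h2 := yy_le L E hL hne hs j
    nlinarith

end main

open Classical in
/-- LB -/
theorem lll_sharp {H ι : Type} [Fintype H] [Fintype ι] {K L : ℕ} (hL : 1 ≤ L)
    (E : ι → Finset (H × Fin K × Fin K))
    (hne : ∀ i, (E i).Nonempty) (hself : ∀ i, ¬ Conf (E i) (E i))
    (hs : ∀ h s, ∑ i with (∃ c, (h, s, c) ∈ E i), Th L K (E i).card / (K : ℝ) ^ (E i).card ≤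
      1 / (8 * (L : ℝ)))
    (hc : ∀ h c, ∑ i with (∃ s, (h, s, c) ∈ E i), Th L K (E i).card / (K : ℝ) ^ (E i).card ≤
      1 / (8 * (L : ℝ))) :
    ∃ ρ : H → Equiv.Perm (Fin K), ∀ i, ¬ Holds ρ (E i) := by
  have h1 := NN_pos' L E hL hne hself hs hc univ
  unfold AEC.NN at h1
  have h2 := Nat.cast_pos.1 h1
  obtain ⟨⟨ρ, hρ⟩⟩ := (Nat.card_pos_iff.1 h2).1
  exact ⟨ρ, fun i => hρ i (Finset.mem_univ i)⟩

end Pool.Agent.H95.AED
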