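import Pool.Agent.H95.AED.CM
import Pool.Agent.H95.AED.FU
import Pool.Agent.H95.AED.FP
import Pool.Agent.H95.AED.FS
import Pool.Agent.H95.AED.FF
import Pool.Agent.H95.AED.FI
import Pool.Agent.H95.AED.CY

/-!
# AED MA: the two main theorems with level function

MA 1: `Small.exists` (with `Hyp.slots`) for the conjunction of FU, FP, FS, `Small.all` over `n < card V` of FF and of FI
(`bnd_sum`: each `≤ 1/(40L)`), total `5/(40L) = 1/(8L)`. MA 2: the same with FU, FP, FF only. MA 3: `Loc` with the first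
alternative of `star`; colouring `ccol`; PR, CY. MA 4: `Tq_levels` (TL 9) with `N = L`: a chain of an edge `(w, v)` with `r w < r v` has
length `≤ L - r v + 1 ≤ L` as `r v ≥ 1`; other chains are empty (TL 1). So `ccol u v = some (...)` always; take
`c u v = (ccol u v).get _` or `c u v = if r u ≤ r v then q (gam u v (Tq u v)) else q (gam v u (Tq v u))`, with `some (c u v) = ccol u v`; the
number of colours on a cycle is the same (`AEC.toFinset_card_map_inj` in `AEC/Final.lean`). In CY the INF alternative is impossible.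
-/

set_option autoImplicit false

open Finset

namespace Pool.Agent.H95.AED

/-- MA 1 -/
theorem exists_qA {V : Type} [Fintype V] (G : SimpleGraph V) (r : V → ℕ) {k K L : ℕ}
    (h : Hyp G r k K L) (hk2 : k ≤ 2 ^ (L - 1)) :
    ∃ q : Drt V → Fin K, (Loc G r L q ∧ ∀ n, n < Fintype.card V → ∀ x : CX G n,
      ¬ ((∀ i, (tx G r L q x.1 i).length ≤ L) ∧
        ∀ i : Fin (2 * n + 4), gx G r L q x.1 i = gx G r L q x.1 ⟨i.val % 2, by omega⟩)) ∧
      ∀ n, n < Fintype.card V → ∀ x : CX G n,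
        ¬ ((∀ i : Fin (2 * n + 4), i.val % 2 = 0 → (tx G r L q x.1 i).length ≤ L ∧
            gx G r L q x.1 i = gx G r L q x.1 0) ∧
          ∀ i : Fin (2 * n + 4), i.val % 2 = 1 → (tx G r L q x.1 i).length = L + 1) := by
  classical
  obtain ⟨_, hK1, hR, _, hk1, hL1⟩ := h.num
  have hLpos : (0 : ℝ) < L := by linarith
  have s1 := fam_updown G r h
  have s2 := fam_upup G r h
  have s3 := fam_star G r h hk2
  have s4 := Small.all (N := Fintype.card V) (fun n _ => fam_fin G r h n)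
  have s5 := Small.all (N := Fintype.card V) (fun n _ => fam_inf G r h hk2 n)
  have b4 := bnd_sum h.oneL h.one hR (Fintype.card V)
  have s := (((s1.and s2).and s3).and s4).and s5
  have hB : 1 / (40 * (L : ℝ)) + 1 / (40 * (L : ℝ)) + 1 / (40 * (L : ℝ)) +
      ∑ n ∈ range (Fintype.card V), bnd L k K n + ∑ n ∈ range (Fintype.card V), bnd L k K n ≤
      1 / (8 * (L : ℝ)) := by
    have h1 : 1 / (8 * (L : ℝ)) = 5 * (1 / (40 * (L : ℝ))) := by
      field_simp
      norm_num
    rw [h1]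
    linarith
  obtain ⟨q, hq, hΦ⟩ := Small.exists (by omega) h.oneL h.slots (s.mono hB (fun _ _ h => h))
  obtain ⟨⟨⟨⟨h1, h2⟩, h3⟩, h4⟩, h5⟩ := hΦ
  exact ⟨q, ⟨⟨hq, h1, h2, Or.inl h3⟩, h4⟩, h5⟩

theorem len_le_of_levels {V : Type} [Fintype V] (G : SimpleGraph V) (r : V → ℕ) {K L : ℕ}
    (hr : ∀ v, r v ≤ L) (q : Drt V → Fin K) (w v : V) : (Tq G r L q w v).length ≤ L := by
  by_cases h1 : r w < r v
  · have h2 := Tq_levels G r L q hr w v
    have h3 := hr v
    omega
  · rw [Tq_same G r L q h1]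
    simp

/-- MA 2 -/
theorem exists_qB {V : Type} [Fintype V] (G : SimpleGraph V) (r : V → ℕ) {k K L : ℕ}
    (h : Hyp G r k K L) (hr : ∀ v, r v ≤ L) :
    ∃ q : Drt V → Fin K, (Loc G r L q ∧ ∀ n, n < Fintype.card V → ∀ x : CX G n,
      ¬ ((∀ i, (tx G r L q x.1 i).length ≤ L) ∧
        ∀ i : Fin (2 * n + 4), gx G r L q x.1 i = gx G r L q x.1 ⟨i.val % 2, by omega⟩)) ∧
      ∀ w v, (Tq G r L q w v).length ≤ L := by
  classical
  obtain ⟨_, hK1, hR, _, hk1, hL1⟩ := h.num
  have hLpos : (0 : ℝ) < L := by linarith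
  have s1 := fam_updown G r h
  have s2 := fam_upup G r h
  have s4 := Small.all (N := Fintype.card V) (fun n _ => fam_fin G r h n)
  have b4 := bnd_sum h.oneL h.one hR (Fintype.card V)
  have s := (s1.and s2).and s4
  have hB : 1 / (40 * (L : ℝ)) + 1 / (40 * (L : ℝ)) +
      ∑ n ∈ range (Fintype.card V), bnd L k K n ≤ 1 / (8 * (L : ℝ)) := by
    have h1 : 1 / (8 * (L : ℝ)) = 5 * (1 / (40 * (L : ℝ))) := by
      field_simp
      norm_num
    have h2 : 0 < 1 / (40 * (L : ℝ)) := by positivity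
    rw [h1]
    linarith
  obtain ⟨q, hq, hΦ⟩ := Small.exists (by omega) h.oneL h.slots (s.mono hB (fun _ _ h => h))
  obtain ⟨⟨h1, h2⟩, h4⟩ := hΦ
  have hlen := len_le_of_levels G r hr q
  exact ⟨q, ⟨⟨hq, h1, h2, Or.inr hlen⟩, h4⟩, hlen⟩

/-- MA 3 -/
theorem mainA {V : Type} [Fintype V] (G : SimpleGraph V) (r : V → ℕ) {k K L : ℕ}
    (h : Hyp G r k K L) (hk2 : k ≤ 2 ^ (L - 1)) :
    ∃ c : V → V → Option (Fin K), (∀ u v, c u v = c v u) ∧
      (∀ u v w, G.Adj u v → G.Adj u w → v ≠ w → c u v ≠ c u w) ∧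
      ∀ (u : V) (p : G.Walk u u), p.IsCycle →
        3 ≤ (p.darts.map (fun d => c d.toProd.1 d.toProd.2)).toFinset.card := by
  obtain ⟨q, ⟨hloc, hfin⟩, hinf⟩ := exists_qA G r h hk2
  refine ⟨ccol G r L q, ccol_symm G r L q, fun u v w hv hw hne =>
    ccol_proper G r L q hloc u v w hv hw hne, ?_⟩
  intro u p hp
  by_contra h3
  obtain ⟨n, hn, x, hx⟩ := cyc_occ G r L q hloc u p hp (not_le.mp h3)
  rcases hx with hx | hx
  · exact hfin n hn x hx
  · exact hinf n hn x hx

/-- MA 4 -/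
theorem mainB {V : Type} [Fintype V] (G : SimpleGraph V) (r : V → ℕ) {k K L : ℕ}
    (h : Hyp G r k K L) (hr : ∀ v, r v ≤ L) :
    ∃ c : V → V → Fin K, (∀ u v, c u v = c v u) ∧
      (∀ u v w, G.Adj u v → G.Adj u w → v ≠ w → c u v ≠ c u w) ∧
      ∀ (u : V) (p : G.Walk u u), p.IsCycle →
        3 ≤ (p.darts.map (fun d => c d.toProd.1 d.toProd.2)).toFinset.card := by
  classical
  obtain ⟨q, ⟨hloc, hfin⟩, hlen⟩ := exists_qB G r h hr
  have hsome : ∀ u v, ∃ a, ccol G r L q u v = some a := by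
    intro u v
    unfold ccol col
    split_ifs
    · exact ⟨_, rfl⟩
    · exact absurd (hlen u v) (by assumption)
    · exact ⟨_, rfl⟩
    · exact absurd (hlen v u) (by assumption)
  choose c hc using hsome
  refine ⟨c, ?_, ?_, ?_⟩
  · intro u v
    have h1 := ccol_symm G r L q u v
    rw [hc, hc] at h1
    exact Option.some.inj h1
  · intro u v w hv hw hne he
    apply ccol_proper G r L q hloc u v w hv hw hne
    rw [hc, hc, he]
  · intro u p hp
    by_contra h3
    have h4 : (p.darts.map (fun d => ccol G r L q d.toProd.1 d.toProd.2)).toFinset.card < 3 := by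
      have h5 : (p.darts.map (fun d => ccol G r L q d.toProd.1 d.toProd.2)).toFinset ⊆
          (p.darts.map (fun d => c d.toProd.1 d.toProd.2)).toFinset.image some := by
        intro a ha
        rw [List.mem_toFinset, List.mem_map] at ha
        obtain ⟨d, hd, rfl⟩ := ha
        rw [Finset.mem_image]
        refine ⟨c d.toProd.1 d.toProd.2, ?_, (hc _ _).symm⟩
        rw [List.mem_toFinset, List.mem_map]
        exact ⟨d, hd, rfl⟩
      have h6 := (Finset.card_le_card h5).trans Finset.card_image_le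
      omega
    obtain ⟨n, hn, x, hx⟩ := cyc_occ G r L q hloc u p hp h4
    rcases hx with hx | hx
    · exact hfin n hn x hx
    · have h7 := hx.2 ⟨1, by omega⟩ rfl
      have h8 : (tx G r L q x.1 ⟨1, by omega⟩).length ≤ L := hlen _ _
      omega

end Pool.Agent.H95.AED
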