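import Pool.Agent.H95.AED.TL

/-!
# AED PR: the colouring is proper

`Loc` collects the local statements. PR 1: `ccol u v = ccol v u` for adjacent `u, v`: if `r u = r v` then both chains are empty (TL 1) and
`rootd u v = de u v = de v u = rootd v u` (`Sym2.eq_swap`); otherwise only one of `r u ≤ r v`, `r v ≤ r u` holds.
PR 2: let `v` be the common vertex (`ccol v u`, `ccol v u'`, `u ≠ u'`). Each neighbour `u` of `v` is upper (`r v ≤ r u`,
colour `col v u`) or lower (`r u < r v`, colour `col u v`; use PR 1).
* upper/upper: if both colours are not `none`: `upup`. If both are `none`: both chains have length `L+1` (TL 2), contradiction to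
  `star` (in both alternatives).
* lower/lower `w, w'`: by `Tq_spec` (TU) / TL 4 each chain is `[]` (dart `dd v w`; `rootd` with `r w < r v`) or `a :: Tq v a` (dart
  `dd v a`). Both colours in `Fin K`: equal colours of `dd v w, dd v w'`: `InjQ`; `dd v a, dd v a'`: `InjQ` gives `a = a'` and then
  `Tq_child` (TL 7) `w = w'`; `dd v w, dd v a`: `InjQ` gives `w = a`, but `r w < r v ≤ r a`. Both `none`: lengths `L+1`, so
  `w, w'` have parents `a, a'` with chains of length `L`; if `a ≠ a'`: `star`; if `a = a'`: `Tq_child`.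
* upper `a` / lower `w`: colours in `Fin K` and equal, so `|Tq v a| ≤ L`, `|Tq w v| ≤ L`. If `Tq w v ≠ []`: `updown`. If `Tq w v = []`:
  its colour is `q (dd v w)`, and the second part of `Tq_spec` says that no upper neighbour `a` with `|Tq v a| ≤ L` has
  `q (dd v w) = q (gam v a (Tq v a))`. Both `none`: `|Tq v a| = L+1`, `Tq w v = a' :: Tq v a'` with `|Tq v a'| = L`, `a' ≠ a`
  (lengths differ): `star`.
-/

set_option autoImplicit false

open Finset

namespace Pool.Agent.H95.AED

/-- the local statements guaranteed by UPDOWN, UPUP, STAR (or no extra colour at all) -/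
structure Loc {V : Type} [Fintype V] (G : SimpleGraph V) (r : V → ℕ) (L : ℕ) {K : ℕ}
    (q : Drt V → Fin K) : Prop where
  inj : InjQ (Rel G) q
  updown : ∀ v a w, Upe G r v a → G.Adj w v → r w < r v →
      ¬ ((Tq G r L q v a).length ≤ L ∧ 1 ≤ (Tq G r L q w v).length ∧ (Tq G r L q w v).length ≤ L ∧
        q (gam r v a (Tq G r L q v a)) = q (gam r w v (Tq G r L q w v)))
  upup : ∀ v a a', Upe G r v a → Upe G r v a' → a ≠ a' →
      ¬ ((Tq G r L q v a).length ≤ L ∧ (Tq G r L q v a').length ≤ L ∧
        q (gam r v a (Tq G r L q v a)) = q (gam r v a' (Tq G r L q v a')))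
  star : (∀ v a a', Upe G r v a → Upe G r v a' → a ≠ a' →
      ¬ (L ≤ (Tq G r L q v a).length ∧ L ≤ (Tq G r L q v a').length)) ∨
    ∀ w v, (Tq G r L q w v).length ≤ L

variable {V : Type} [Fintype V] (G : SimpleGraph V) (r : V → ℕ) (L : ℕ) {K : ℕ} (q : Drt V → Fin K)

/-- PR 1 -/
theorem ccol_symm (u v : V) : ccol G r L q u v = ccol G r L q v u := by
  unfold ccol
  rcases lt_trichotomy (r u) (r v) with h | h | h
  · rw [if_pos h.le, if_neg (by omega)]
  · rw [if_pos h.le, if_pos h.ge]
    unfold col
    rw [Tq_same G r L q (by omega : ¬ r u < r v), Tq_same G r L q (by omega : ¬ r v < r u)]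
    simp only [gam, rootd, if_neg (by omega : ¬ r u < r v), if_neg (by omega : ¬ r v < r u), de,
      Sym2.eq_swap]
  · rw [if_neg (by omega), if_pos h.le]

section

variable {G r L q}

private theorem pr_some {w v : V} (h : (Tq G r L q w v).length ≤ L) :
    col G r L q w v = some (q (gam r w v (Tq G r L q w v))) :=
  if_pos h

private theorem pr_none {w v : V} (h : ¬ (Tq G r L q w v).length ≤ L) : col G r L q w v = none :=
  if_neg h

/-- the two cases for a lower edge -/
private theorem pr_low {w v : V} (h : r w < r v) :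
    ((Tq G r L q w v).length = 0 ∧ q (gam r w v (Tq G r L q w v)) = q (dd v w) ∧
      ∀ a, Upe G r v a → (Tq G r L q v a).length ≤ L →
        q (dd v w) ≠ q (gam r v a (Tq G r L q v a))) ∨
    ∃ a, Upe G r v a ∧ (Tq G r L q w v).length = (Tq G r L q v a).length + 1 ∧
      q (gam r w v (Tq G r L q w v)) = q (dd v a) ∧
      Tq G r L q w v = a :: Tq G r L q v a ∧ (Tq G r L q v a).length ≤ L := by
  rcases Tq_spec G r L q w v with ⟨h1, h2⟩ | ⟨a, h1, h2, h3, h4, h5⟩
  · left
    refine ⟨?_, ?_, fun a ha hl he => h2 ⟨h, a, ha, hl, he⟩⟩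
    · rw [h1]
      rfl
    · rw [h1]
      simp only [gam, rootd, if_pos h]
  · right
    refine ⟨a, h2, ?_, ?_, h5, h3⟩
    · rw [h5]
      rfl
    · rw [h5]
      rfl

private theorem pr_dd (hq : InjQ (Rel G) q) {v a b : V} (ha : G.Adj v a) (hb : G.Adj v b)
    (h : q (dd v a) = q (dd v b)) : a = b := by
  have := hq (Sum.inl v) (some a) (some b) ha hb h
  exact Option.some.inj this

private theorem pr_star (h : Loc G r L q) {v a a' : V} (ha : Upe G r v a) (ha' : Upe G r v a')
    (hne : a ≠ a') (h1 : L ≤ (Tq G r L q v a).length) (h2 : L ≤ (Tq G r L q v a').length)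
    (h3 : ∃ w v, L < (Tq G r L q w v).length) : False := by
  rcases h.star with hs | hs
  · exact hs v a a' ha ha' hne ⟨h1, h2⟩
  · obtain ⟨w, v, h4⟩ := h3
    have := hs w v
    omega

private theorem pr_uu (h : Loc G r L q) {v a a' : V} (ha : Upe G r v a)
    (ha' : Upe G r v a') (hne : a ≠ a') : col G r L q v a ≠ col G r L q v a' := by
  by_cases h1 : (Tq G r L q v a).length ≤ L <;> by_cases h2 : (Tq G r L q v a').length ≤ L
  · rw [pr_some h1, pr_some h2]
    exact fun he => h.upup v a a' ha ha' hne ⟨h1, h2, Option.some.inj he⟩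
  · rw [pr_some h1, pr_none h2]
    exact Option.some_ne_none _
  · rw [pr_none h1, pr_some h2]
    exact (Option.some_ne_none _).symm
  · exact (pr_star h ha ha' hne (by omega) (by omega) ⟨v, a, by omega⟩).elim

private theorem pr_ll (hl : Loc G r L q) {v w w' : V} (hw : G.Adj w v)
    (hw' : G.Adj w' v) (h : r w < r v) (h' : r w' < r v) (hne : w ≠ w') :
    col G r L q w v ≠ col G r L q w' v := by
  intro he
  have hq := hl.inj
  rcases pr_low (G := G) (L := L) (q := q) h with ⟨a1, a2, a3⟩ | ⟨a, a1, a2, a3, a4, a5⟩ <;>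
    rcases pr_low (G := G) (L := L) (q := q) h' with ⟨b1, b2, b3⟩ | ⟨b, b1, b2, b3, b4, b5⟩
  · rw [pr_some (by omega), pr_some (by omega), a2, b2] at he
    exact hne (pr_dd hq hw.symm hw'.symm (Option.some.inj he))
  · rw [pr_some (by omega)] at he
    by_cases hb : (Tq G r L q w' v).length ≤ L
    · rw [pr_some hb, a2, b3] at he
      have := pr_dd hq hw.symm b1.1 (Option.some.inj he)
      have hb2 := b1.2
      rw [← this] at hb2
      omega
    · rw [pr_none hb] at he
      exact Option.some_ne_none _ he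
  · rw [pr_some (w := w') (by omega)] at he
    by_cases hb : (Tq G r L q w v).length ≤ L
    · rw [pr_some hb, a3, b2] at he
      have := pr_dd hq a1.1 hw'.symm (Option.some.inj he)
      have ha2 := a1.2
      rw [this] at ha2
      omega
    · rw [pr_none hb] at he
      exact Option.some_ne_none _ he.symm
  · have hab : a = b := by
      by_cases h1 : (Tq G r L q w v).length ≤ L <;> by_cases h2 : (Tq G r L q w' v).length ≤ L
      · rw [pr_some h1, pr_some h2, a3, b3] at he
        exact pr_dd hq a1.1 b1.1 (Option.some.inj he)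
      · rw [pr_some h1, pr_none h2] at he
        exact absurd he (Option.some_ne_none _)
      · rw [pr_none h1, pr_some h2] at he
        exact absurd he.symm (Option.some_ne_none _)
      · by_contra hne'
        exact pr_star hl a1 b1 hne' (by omega) (by omega) ⟨w, v, by omega⟩
    subst hab
    exact hne (Tq_child G r L q hq hw hw' a4 b4)

private theorem pr_ul (hl : Loc G r L q) {v a w : V} (ha : Upe G r v a)
    (hw : G.Adj w v) (h : r w < r v) : col G r L q v a ≠ col G r L q w v := by
  intro he
  by_cases h1 : (Tq G r L q v a).length ≤ L <;> by_cases h2 : (Tq G r L q w v).length ≤ L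
  · rw [pr_some h1, pr_some h2] at he
    have he' := Option.some.inj he
    rcases pr_low (G := G) (L := L) (q := q) h with ⟨a1, a2, a3⟩ | ⟨b, a1, a2, a3, a4, a5⟩
    · rw [a2] at he'
      exact a3 a ha h1 he'.symm
    · exact hl.updown v a w ha hw h ⟨h1, by omega, h2, he'⟩
  · rw [pr_some h1, pr_none h2] at he
    exact Option.some_ne_none _ he
  · rw [pr_none h1, pr_some h2] at he
    exact Option.some_ne_none _ he.symm
  · rcases pr_low (G := G) (L := L) (q := q) h with ⟨a1, a2, a3⟩ | ⟨b, a1, a2, a3, a4, a5⟩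
    · omega
    · by_cases hab : a = b
      · subst hab
        omega
      · exact pr_star hl ha a1 hab (by omega) (by omega) ⟨w, v, by omega⟩

end

/-- PR 2 -/
theorem ccol_proper (h : Loc G r L q) (v u u' : V) (hu : G.Adj v u) (hu' : G.Adj v u')
    (hne : u ≠ u') : ccol G r L q v u ≠ ccol G r L q v u' := by
  have hup : ∀ a, r v ≤ r a → ccol G r L q v a = col G r L q v a := fun a ha => if_pos ha
  have hlo : ∀ a, ¬ r v ≤ r a → ccol G r L q v a = col G r L q a v := fun a ha => if_neg ha
  by_cases h1 : r v ≤ r u <;> by_cases h2 : r v ≤ r u'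
  · rw [hup _ h1, hup _ h2]
    exact pr_uu h ⟨hu, h1⟩ ⟨hu', h2⟩ hne
  · rw [hup _ h1, hlo _ h2]
    exact pr_ul h ⟨hu, h1⟩ hu'.symm (not_le.1 h2)
  · rw [hlo _ h1, hup _ h2]
    exact (pr_ul h ⟨hu', h2⟩ hu.symm (not_le.1 h1)).symm
  · rw [hlo _ h1, hlo _ h2]
    exact pr_ll h hu.symm hu'.symm (not_le.1 h1) (not_le.1 h2) hne

end Pool.Agent.H95.AED
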