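import Mathlib

/-!
# AED S1: a product-sum identity (Mathlib only)

`∏_j ∑_{y ∈ O j} f' j y = ∑_{τ ∈ piFinset O} ∏_j f' j (τ j)` (`Finset.prod_univ_sum`) for `f' j y = f j y` if `j ≠ i` and
`f' i y = if P y then f i y else 0`; split the factor `i` off the products (`Finset.mul_prod_erase`); the right side is
the filtered sum.
-/

set_option autoImplicit false

open Finset

namespace Pool.Agent.H95.AED

open Classical in
/-- S1 -/
theorem sum_pi_filter {m : ℕ} {Y : Type} (O : Fin m → Finset Y) (f : Fin m → Y → ℝ) (i : Fin m)
    (P : Y → Prop) :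
    ∑ τ ∈ (Fintype.piFinset O).filter (fun τ => P (τ i)), ∏ j, f j (τ j) =
      (∑ y ∈ (O i).filter P, f i y) * ∏ j ∈ univ.erase i, ∑ y ∈ O j, f j y := by
  have h1 : (Fintype.piFinset O).filter (fun τ => P (τ i)) =
      Fintype.piFinset (Function.update O i ((O i).filter P)) := by
    ext τ
    simp only [mem_filter, Fintype.mem_piFinset]
    constructor
    · rintro ⟨h, hP⟩ j
      by_cases hj : j = i
      · subst hj
        rw [Function.update_self]
        exact mem_filter.mpr ⟨h j, hP⟩
      · rw [Function.update_of_ne hj]
        exact h j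
    · intro h
      have hi := h i
      rw [Function.update_self, mem_filter] at hi
      refine ⟨fun j => ?_, hi.2⟩
      by_cases hj : j = i
      · subst hj
        exact hi.1
      · have := h j
        rwa [Function.update_of_ne hj] at this
  rw [h1, ← Finset.prod_univ_sum, ← Finset.mul_prod_erase univ _ (mem_univ i)]
  congr 1
  · rw [Function.update_self]
  · refine Finset.prod_congr rfl fun j hj => ?_
    rw [Function.update_of_ne (Finset.ne_of_mem_erase hj)]

end Pool.Agent.H95.AED
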