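import Pool.Agent.H95.AED.UP

/-!
# AED S2: the codes of one base edge

`R = K/k`. S2 1: the sum over `none` is `1` (or nothing); the sets `{some t : t ∈ upl v l}`, `l ∈ lam`: at most `k^l` elements of
weight `θ^(1+2l)/K^l`, and `k^l θ^(1+2l)/K^l = θ^(1+2l)/R^l`. (Sum over a union / biUnion of finsets of a nonnegative function is at most
the sum of the sums.) S2 2: sum over `l`; for fixed `l` the set is contained in
`rol g s l` (UP 6, empty if `s > l`), at most `K^s k^(l-s)` elements (UP 5) of weight `θ^(1+2l)/K^l`.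
-/

set_option autoImplicit false

open Finset

namespace Pool.Agent.H95.AED

variable {V : Type} [Fintype V] (G : SimpleGraph V) (r : V → ℕ)

open Classical in
/-- possible codes of a base edge with head `v` -/
noncomputable def OO (v : V) (cv : Bool) (lam : Finset ℕ) : Finset (Option (List V)) :=
  (if cv = true then {none} else ∅) ∪ lam.biUnion (fun l => (upl G r v l).image some)

theorem fw_nonneg {θ : ℝ} (hθ : 1 ≤ θ) (K : ℕ) (y : Option (List V)) : 0 ≤ fw θ K y := by
  cases y with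
  | none => exact zero_le_one
  | some t =>
    unfold fw
    positivity

private theorem sum_union_le' {α : Type} [DecidableEq α] (A B : Finset α) (f : α → ℝ)
    (hf : ∀ x, 0 ≤ f x) : ∑ x ∈ A ∪ B, f x ≤ ∑ x ∈ A, f x + ∑ x ∈ B, f x := by
  rw [← Finset.sum_union_inter]
  exact le_add_of_nonneg_right (Finset.sum_nonneg fun x _ => hf x)

private theorem sum_biUnion_le' {α : Type} [DecidableEq α] (lam : Finset ℕ) (B : ℕ → Finset α)
    (f : α → ℝ) (hf : ∀ x, 0 ≤ f x) : ∑ x ∈ lam.biUnion B, f x ≤ ∑ l ∈ lam, ∑ x ∈ B l, f x := by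
  induction lam using Finset.induction_on with
  | empty => simp
  | insert l lam hl ih =>
    rw [Finset.biUnion_insert, Finset.sum_insert hl]
    refine (sum_union_le' _ _ f hf).trans ?_
    linarith

open Classical in
/-- S2 1 -/
theorem sum_OO {k K : ℕ} (hk1 : 1 ≤ k) (hK1 : 1 ≤ K)
    (hk : ∀ v, (univ.filter (fun a => Upe G r v a)).card ≤ k) {θ : ℝ} (hθ : 1 ≤ θ) (v : V) (cv : Bool)
    (lam : Finset ℕ) : ∑ y ∈ OO G r v cv lam, fw θ K y ≤ SA θ ((K : ℝ) / k) cv lam := by
  have hk0 : (0 : ℝ) < k := by exact_mod_cast hk1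
  have hK0 : (0 : ℝ) < K := by exact_mod_cast hK1
  unfold OO SA
  refine (sum_union_le' _ _ _ (fw_nonneg hθ K)).trans (add_le_add ?_ ?_)
  · split_ifs
    · rw [Finset.sum_singleton]
      exact le_refl _
    · simp
  · refine (sum_biUnion_le' _ _ _ (fw_nonneg hθ K)).trans (Finset.sum_le_sum fun l _ => ?_)
    have h1 : ∑ y ∈ (upl G r v l).image some, fw θ K y ≤
        ∑ y ∈ (upl G r v l).image some, θ ^ (1 + 2 * l) / (K : ℝ) ^ l := by
      refine Finset.sum_le_sum fun y hy => ?_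
      obtain ⟨t, ht, rfl⟩ := Finset.mem_image.1 hy
      have h2 := upl_len G r ht
      rw [← h2]
      exact le_refl _
    refine h1.trans ?_
    rw [Finset.sum_const, nsmul_eq_mul]
    have h3 : (((upl G r v l).image some).card : ℝ) ≤ (k : ℝ) ^ l := by
      exact_mod_cast Finset.card_image_le.trans (upl_card G r hk v l)
    refine (mul_le_mul_of_nonneg_right h3 (by positivity)).trans (le_of_eq ?_)
    rw [div_pow]
    field_simp

open Classical in
/-- S2 2 -/
theorem sum_rol {k K : ℕ} (hk1 : 1 ≤ k) (hK1 : 1 ≤ K)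
    (hk : ∀ v, (univ.filter (fun a => Upe G r v a)).card ≤ k)
    (hK : ∀ v, (univ.filter (fun a => G.Adj v a)).card ≤ K) {θ : ℝ} (hθ : 1 ≤ θ) (g : V × V) (s : ℕ)
    (lam : Finset ℕ) (W : Finset ((V × V) × List V))
    (hW : ∀ y ∈ W, Chn G r y.1.1 y.1.2 y.2 ∧ y.2.length ∈ lam ∧ s ≤ y.2.length ∧
      lev y.1.1 y.1.2 y.2 s = g) :
    ∑ y ∈ W, fw θ K (some y.2) ≤ SB θ ((K : ℝ) / k) lam s := by
  have hk0 : (0 : ℝ) < k := by exact_mod_cast hk1
  have hK0 : (0 : ℝ) < K := by exact_mod_cast hK1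
  unfold SB
  rw [← Finset.sum_fiberwise_of_maps_to (s := W) (t := lam.filter (fun l => s ≤ l))
    (g := fun y => y.2.length)
    (fun y hy => Finset.mem_filter.2 ⟨(hW y hy).2.1, (hW y hy).2.2.1⟩)]
  refine Finset.sum_le_sum fun l hl => ?_
  have hsl : s ≤ l := (Finset.mem_filter.1 hl).2
  have h1 : ∑ y ∈ W.filter (fun y => y.2.length = l), fw θ K (some y.2) ≤
      ∑ y ∈ W.filter (fun y => y.2.length = l), θ ^ (1 + 2 * l) / (K : ℝ) ^ l := by
    refine Finset.sum_le_sum fun y hy => ?_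
    have h2 := (Finset.mem_filter.1 hy).2
    rw [← h2]
    exact le_refl _
  refine h1.trans ?_
  rw [Finset.sum_const, nsmul_eq_mul]
  have h3 : ((W.filter (fun y => y.2.length = l)).card : ℝ) ≤ (K : ℝ) ^ s * (k : ℝ) ^ (l - s) := by
    have h4 : W.filter (fun y => y.2.length = l) ⊆ rol G r g s l := by
      intro y hy
      obtain ⟨hy1, hy2⟩ := Finset.mem_filter.1 hy
      obtain ⟨c1, c2, c3, c4⟩ := hW y hy1
      have h5 := mem_rol G r c1 c3 c4
      rw [hy2] at h5
      exact h5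
    exact_mod_cast (Finset.card_le_card h4).trans (rol_card G r hk hK g s l hsl)
  refine (mul_le_mul_of_nonneg_right h3 (by positivity)).trans (le_of_eq ?_)
  have e1 : (K : ℝ) ^ l = (K : ℝ) ^ s * (K : ℝ) ^ (l - s) := by
    rw [← pow_add, Nat.add_sub_cancel' hsl]
  rw [div_pow, e1]
  field_simp

end Pool.Agent.H95.AED
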