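import Pool.Agent.H95.AED.S1
import Pool.Agent.H95.AED.S2

/-!
# AED S3: the sum over all codes with the edge `g` at level `s` of the chain `i`

For fixed `x` use S1 with `O j = OO (e j x).2 (cov j) (lam j)`, `f j = fw θ K`, and
`P y = ∃ t, y = some t ∧ s ≤ t.length ∧ Chn (e i x) t ∧ lev (e i x) t s = g`; the product of the other sums is
at most `∏ SA` (S2 1; `Finset.prod_le_prod`, the sums are nonnegative). It remains
`∑_x ∑_{y ∈ O i, P y} fw y ≤ M i * SB`. The pairs `(x, y)`; map `(x, some t) ↦ (e i x, t)` into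
`W = {(e, t) : Chn e t, t.length ∈ lam i, s ≤ t.length, lev e t s = g}` (a finite set: image of the pairs);
every fibre has at most `M i` elements (`#{x | e i x = e} ≤ M i`); weights depend only on `t`; S2 2.
(`Finset.sum_sigma'`, `Finset.sum_fiberwise_of_maps_to`.)
-/

set_option autoImplicit false

open Finset

namespace Pool.Agent.H95.AED

attribute [instance] Cfg.fin

open Classical in
/-- S3 -/
theorem sum_codes {V : Type} [Fintype V] {G : SimpleGraph V} {r : V → ℕ} {L : ℕ} (c : Cfg G r L)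
    {k K : ℕ} (hk1 : 1 ≤ k) (hK1 : 1 ≤ K)
    (hk : ∀ v, (univ.filter (fun a => Upe G r v a)).card ≤ k)
    (hK : ∀ v, (univ.filter (fun a => G.Adj v a)).card ≤ K) {θ : ℝ} (hθ : 1 ≤ θ) (M : Fin c.m → ℝ)
    (hM : ∀ i g, ((univ.filter (fun x => c.e i x = g)).card : ℝ) ≤ M i) (i : Fin c.m) (s : ℕ)
    (g : V × V) :
    ∑ x : c.X, ∑ τ ∈ (Fintype.piFinset (fun j => OO G r (c.e j x).2 (c.cov j) (c.lam j))).filter
        (fun τ => ∃ t, τ i = some t ∧ s ≤ t.length ∧ Chn G r (c.e i x).1 (c.e i x).2 t ∧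
          lev (c.e i x).1 (c.e i x).2 t s = g), ∏ j, fw θ K (τ j) ≤
      M i * SB θ ((K : ℝ) / k) (c.lam i) s *
        ∏ j ∈ univ.erase i, SA θ ((K : ℝ) / k) (c.cov j) (c.lam j) := by
  have hM0 : 0 ≤ M i := le_trans (by positivity) (hM i g)
  have hR0 : (0 : ℝ) ≤ (K : ℝ) / k := by positivity
  let A : c.X → Finset (Option (List V)) := fun x =>
    (OO G r (c.e i x).2 (c.cov i) (c.lam i)).filter
      (fun y => ∃ t, y = some t ∧ s ≤ t.length ∧ Chn G r (c.e i x).1 (c.e i x).2 t ∧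
          lev (c.e i x).1 (c.e i x).2 t s = g)
  have hstep : ∀ x : c.X,
      ∑ τ ∈ (Fintype.piFinset (fun j => OO G r (c.e j x).2 (c.cov j) (c.lam j))).filter
        (fun τ => ∃ t, τ i = some t ∧ s ≤ t.length ∧ Chn G r (c.e i x).1 (c.e i x).2 t ∧
          lev (c.e i x).1 (c.e i x).2 t s = g), ∏ j, fw θ K (τ j) ≤
      (∑ y ∈ A x, fw θ K y) *
        ∏ j ∈ univ.erase i, SA θ ((K : ℝ) / k) (c.cov j) (c.lam j) := by
    intro x
    have h1 := sum_pi_filter (fun j => OO G r (c.e j x).2 (c.cov j) (c.lam j))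
      (fun _ => fw θ K) i
      (fun y => ∃ t, y = some t ∧ s ≤ t.length ∧ Chn G r (c.e i x).1 (c.e i x).2 t ∧
          lev (c.e i x).1 (c.e i x).2 t s = g)
    refine le_trans (le_of_eq (Finset.sum_congr ?_ fun _ _ => rfl)) (h1.le.trans ?_)
    · ext τ
      simp only [mem_filter]
    refine mul_le_mul (le_of_eq (Finset.sum_congr ?_ fun _ _ => rfl)) ?_
      (Finset.prod_nonneg fun j _ => Finset.sum_nonneg fun y _ => fw_nonneg (V := V) hθ K y)
      (Finset.sum_nonneg fun y _ => fw_nonneg (V := V) hθ K y)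
    · ext y
      simp only [A, mem_filter]
    exact Finset.prod_le_prod (fun j _ => Finset.sum_nonneg fun y _ => fw_nonneg (V := V) hθ K y)
      (fun j _ => sum_OO G r hk1 hK1 hk hθ _ _ _)
  refine (Finset.sum_le_sum fun x _ => hstep x).trans ?_
  rw [← Finset.sum_mul]
  have hSA0 : ∀ j, 0 ≤ SA θ ((K : ℝ) / k) (c.cov j) (c.lam j) := by
    intro j
    unfold SA
    refine add_nonneg (by split_ifs <;> norm_num) (Finset.sum_nonneg fun l _ => by positivity)
  refine mul_le_mul_of_nonneg_right ?_ (Finset.prod_nonneg fun j _ => hSA0 j)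
  -- the sum over the pairs
  have hmemA : ∀ x y, y ∈ A x → ∃ t, y = some t ∧ t.length ∈ c.lam i ∧ s ≤ t.length ∧
      Chn G r (c.e i x).1 (c.e i x).2 t ∧ lev (c.e i x).1 (c.e i x).2 t s = g := by
    intro x y hy
    obtain ⟨h1, t, rfl, h2, h3, h4⟩ := Finset.mem_filter.1 hy
    refine ⟨t, rfl, ?_, h2, h3, h4⟩
    unfold OO at h1
    rcases Finset.mem_union.1 h1 with h5 | h5
    · split_ifs at h5
      · exact absurd (Finset.mem_singleton.1 h5) (by simp)
      · exact absurd h5 (Finset.notMem_empty _)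
    · obtain ⟨l, hl, h6⟩ := Finset.mem_biUnion.1 h5
      obtain ⟨t', ht', h7⟩ := Finset.mem_image.1 h6
      have h8 : t' = t := Option.some.inj h7
      subst h8
      rw [upl_len G r ht']
      exact hl
  let φ : (Σ _ : c.X, Option (List V)) → (V × V) × List V := fun z =>
    (c.e i z.1, z.2.getD [])
  let Z : Finset (Σ _ : c.X, Option (List V)) := univ.sigma A
  have h2 : ∑ x : c.X, ∑ y ∈ A x, fw θ K y = ∑ z ∈ Z, fw θ K z.2 :=
    Finset.sum_sigma' univ A (fun _ y => fw θ K y)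
  rw [h2, ← Finset.sum_fiberwise_of_maps_to (s := Z) (t := Z.image φ) (g := φ)
    (fun z hz => Finset.mem_image_of_mem φ hz)]
  have h3 : ∀ w ∈ Z.image φ, ∑ z ∈ Z.filter (fun z => φ z = w), fw θ K z.2 ≤
      M i * fw θ K (some w.2) := by
    intro w _
    have h4 : ∀ z ∈ Z.filter (fun z => φ z = w), z.2 = some w.2 := by
      intro z hz
      obtain ⟨hz1, hz2⟩ := Finset.mem_filter.1 hz
      obtain ⟨t, ht, _⟩ := hmemA z.1 z.2 (Finset.mem_sigma.1 hz1).2
      rw [← hz2, ht]
      show some t = some (z.2.getD [])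
      rw [ht]
      rfl
    rw [Finset.sum_congr rfl (fun z hz => by rw [h4 z hz]), Finset.sum_const, nsmul_eq_mul]
    refine mul_le_mul_of_nonneg_right ?_ (fw_nonneg (V := V) hθ K _)
    refine le_trans ?_ (hM i w.1)
    have h5 : (Z.filter (fun z => φ z = w)).card ≤
        (univ.filter (fun x => c.e i x = w.1)).card := by
      refine Finset.card_le_card_of_injOn (fun z => z.1) ?_ ?_
      · intro z hz
        rw [Finset.mem_coe] at hz
        rw [Finset.mem_coe, Finset.mem_filter]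
        refine ⟨mem_univ _, ?_⟩
        rw [← (Finset.mem_filter.1 hz).2]
      · intro z hz z' hz' he
        rw [Finset.mem_coe] at hz hz'
        have h6 := h4 z hz
        have h7 := h4 z' hz'
        obtain ⟨a, b⟩ := z
        obtain ⟨a', b'⟩ := z'
        have h8 : a = a' := he
        have h9 : b = some w.2 := h6
        have h10 : b' = some w.2 := h7
        rw [h8, h9, h10]
    exact_mod_cast h5
  refine (Finset.sum_le_sum h3).trans ?_
  rw [← Finset.mul_sum]
  refine mul_le_mul_of_nonneg_left ?_ hM0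
  refine sum_rol G r hk1 hK1 hk hK hθ g s (c.lam i) (Z.image φ) ?_
  intro w hw
  obtain ⟨z, hz, rfl⟩ := Finset.mem_image.1 hw
  obtain ⟨t, ht, h4, h5, h6, h7⟩ := hmemA z.1 z.2 (Finset.mem_sigma.1 hz).2
  have h8 : φ z = (c.e i z.1, t) := by
    show (c.e i z.1, z.2.getD []) = (c.e i z.1, t)
    rw [ht]
    rfl
  rw [h8]
  exact ⟨h6, h4, h5, h7⟩

end Pool.Agent.H95.AED
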