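import Pool.Agent.H95.AED.Def

/-!
# AED TU: the unfolding lemma of the recursion

Let `M = univ.sup r`. (1) `TT n w v = []` if `¬ r w < r v`. (2) Fuel: if `M - r v < n` then `TT n w v = TT (n+1) w v`:
induction on `n`; `TT (n+1) w v` and `TT (n+2) w v` are the same `dite` because for every `a` with `Upe v a` either
`r v = r a`, and then `TT n v a = [] = TT (n+1) v a` by (1), or `r v < r a ≤ M`, and then `M - r a < n` by
`M - r v < n + 1` and `r a ≤ M`. (Use that two `dite`s over `∃ a, P a` and `∃ a, P' a` with `P = P'` as functions (`funext`)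
and equal results coincide: rewrite the function `fun a => Upe v a ∧ ...`; it helps to state for fixed `v`
`∀ a, Upe G r v a → TT n v a = TT (n+1) v a` and to prove the two values equal by `by_cases` and
`Classical.choose` congruence: first show the predicates equal by `funext`, then `subst`/`rw`/`simp only`.)
(3) So `Tq w v = TT (M+1) w v = TT (M+2) w v`, and unfolding once gives the statement with `Tq v a = TT (M+1) v a`.
-/

set_option autoImplicit false

open Finset

namespace Pool.Agent.H95.AED

variable {V : Type} [Fintype V] (G : SimpleGraph V) (r : V → ℕ) (L : ℕ) {K : ℕ} (q : Drt V → Fin K)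

section

variable {G r L q}

private theorem tu_one {n : ℕ} {w v : V} (h : ¬ r w < r v) : TT G r L q n w v = [] := by
  cases n with
  | zero => rfl
  | succ n =>
    rw [TT, dif_neg]
    exact fun h' => h h'.1

/-- two unfoldings with the same chains above `v` coincide -/
private theorem tu_congr {n m : ℕ} {w v : V}
    (h : ∀ a, Upe G r v a → TT G r L q n v a = TT G r L q m v a) :
    TT G r L q (n + 1) w v = TT G r L q (m + 1) w v := by
  have hP : (fun a => Upe G r v a ∧ (TT G r L q n v a).length ≤ L ∧
        q (dd v w) = q (gam r v a (TT G r L q n v a))) =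
      fun a => Upe G r v a ∧ (TT G r L q m v a).length ≤ L ∧
        q (dd v w) = q (gam r v a (TT G r L q m v a)) := by
    funext a
    refine propext ⟨fun hh => ?_, fun hh => ?_⟩
    · rw [← h a hh.1]
      exact hh
    · rw [h a hh.1]
      exact hh
  have key : ∀ (P P' : V → Prop) (f f' : V → List V), P = P' →
      (∀ a, P a → f a = f' a) →
      (∀ (h1 : r w < r v ∧ ∃ a, P a) (h2 : r w < r v ∧ ∃ a, P' a),
        h1.2.choose :: f h1.2.choose = h2.2.choose :: f' h2.2.choose) := by
    intro P P' f f' hPP hff h1 h2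
    subst hPP
    rw [hff _ h1.2.choose_spec]
  rw [TT, TT]
  by_cases h1 : r w < r v ∧ ∃ a, Upe G r v a ∧ (TT G r L q n v a).length ≤ L ∧
        q (dd v w) = q (gam r v a (TT G r L q n v a))
  · have h2 : r w < r v ∧ ∃ a, Upe G r v a ∧ (TT G r L q m v a).length ≤ L ∧
        q (dd v w) = q (gam r v a (TT G r L q m v a)) := by
      obtain ⟨h3, a, ha⟩ := h1
      refine ⟨h3, a, ?_⟩
      have := congrFun hP a
      beta_reduce at this
      rw [← this]
      exact ha
    rw [dif_pos h1, dif_pos h2]
    exact key _ _ (TT G r L q n v) (TT G r L q m v) hP (fun a ha => h a ha.1) h1 h2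
  · have h2 : ¬ (r w < r v ∧ ∃ a, Upe G r v a ∧ (TT G r L q m v a).length ≤ L ∧
        q (dd v w) = q (gam r v a (TT G r L q m v a))) := by
      rintro ⟨h3, a, ha⟩
      refine h1 ⟨h3, a, ?_⟩
      have := congrFun hP a
      beta_reduce at this
      rw [this]
      exact ha
    rw [dif_neg h1, dif_neg h2]

/-- enough fuel -/
private theorem tu_fuel {M : ℕ} (hM : ∀ v, r v ≤ M) (n : ℕ) : ∀ w v : V, M - r v < n →
    TT G r L q n w v = TT G r L q (n + 1) w v := by
  induction n with
  | zero =>
    intro w v h
    omega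
  | succ n ih =>
    intro w v h
    refine tu_congr fun a ha => ?_
    rcases Nat.lt_or_ge (r v) (r a) with h1 | h1
    · refine ih v a ?_
      have := hM a
      omega
    · rw [tu_one (by omega), tu_one (by omega)]

end

/-- TU -/
theorem Tq_spec (w v : V) :
    (Tq G r L q w v = [] ∧ ¬ (r w < r v ∧ ∃ a, Upe G r v a ∧ (Tq G r L q v a).length ≤ L ∧
        q (dd v w) = q (gam r v a (Tq G r L q v a)))) ∨
      ∃ a, r w < r v ∧ Upe G r v a ∧ (Tq G r L q v a).length ≤ L ∧
        q (dd v w) = q (gam r v a (Tq G r L q v a)) ∧ Tq G r L q w v = a :: Tq G r L q v a := by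
  have hM : ∀ v, r v ≤ univ.sup r := fun v => Finset.le_sup (mem_univ v)
  have h1 : Tq G r L q w v = TT G r L q (univ.sup r + 1 + 1) w v := by
    unfold Tq
    exact tu_fuel hM _ w v (by have := hM v; omega)
  rw [h1, TT]
  by_cases h : r w < r v ∧ ∃ a, Upe G r v a ∧ (TT G r L q (univ.sup r + 1) v a).length ≤ L ∧
        q (dd v w) = q (gam r v a (TT G r L q (univ.sup r + 1) v a))
  · right
    rw [dif_pos h]
    have h2 := h.2.choose_spec
    exact ⟨h.2.choose, h.1, h2.1, h2.2.1, h2.2.2, rfl⟩
  · left
    rw [dif_neg h]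
    exact ⟨rfl, h⟩

end Pool.Agent.H95.AED
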