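import Pool.Agent.H95.AED.LV

/-!
# AED UP: counting chains

Induction on `l` (UP 1, UP 2, UP 3: `card_biUnion_le`, `card_image_le`, the set of `a` with `Upe v a` has at most `k` elements)
resp. on `s` (UP 4 - UP 6). UP 3: `Chn w v (a :: t)` gives `Chn v a t`, so `Upe v a` (first edge of a chain, cases on `t`).
UP 6: `lev w v t 0 = (w, v) = g`; `lev w v (a :: t) (s+1) = lev v a t s = g`, so `((v, a), t) ∈ rol g s |t|` by induction.
-/

set_option autoImplicit false

open Finset

namespace Pool.Agent.H95.AED

variable {V : Type} [Fintype V] (G : SimpleGraph V) (r : V → ℕ)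

/-- UP 1 -/
theorem upl_len {v : V} {l : ℕ} {t : List V} (h : t ∈ upl G r v l) : t.length = l := by
  classical
  induction l generalizing v t with
  | zero =>
    unfold upl at h
    rw [Finset.mem_singleton] at h
    rw [h]
    rfl
  | succ l ih =>
    unfold upl at h
    rw [Finset.mem_biUnion] at h
    obtain ⟨a, _, h⟩ := h
    obtain ⟨t', ht', rfl⟩ := Finset.mem_image.1 h
    rw [List.length_cons, ih ht']

open Classical in
/-- UP 2 -/
theorem upl_card {k : ℕ} (hk : ∀ v, (univ.filter (fun a => Upe G r v a)).card ≤ k) (v : V) (l : ℕ) :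
    (upl G r v l).card ≤ k ^ l := by
  induction l generalizing v with
  | zero =>
    unfold upl
    simp
  | succ l ih =>
    unfold upl
    refine Finset.card_biUnion_le.trans ?_
    have h1 : ∀ a ∈ univ.filter (fun a => Upe G r v a),
        ((upl G r a l).image (List.cons a)).card ≤ k ^ l := fun a _ =>
      Finset.card_image_le.trans (ih a)
    refine (Finset.sum_le_sum h1).trans ?_
    rw [Finset.sum_const, smul_eq_mul, pow_succ, mul_comm]
    exact Nat.mul_le_mul_left _ (hk v)

/-- UP 3 -/
theorem mem_upl {w v : V} {t : List V} (h : Chn G r w v t) : t ∈ upl G r v t.length := by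
  classical
  induction t generalizing w v with
  | nil =>
    unfold upl
    rw [List.length_nil]
    exact Finset.mem_singleton_self _
  | cons a t ih =>
    rw [List.length_cons]
    unfold upl
    rw [Finset.mem_biUnion]
    have h1 : Chn G r v a t := h.2.2
    have h2 : Upe G r v a := by
      cases t with
      | nil => exact h1
      | cons b t => exact ⟨h1.1, h1.2.1.le⟩
    exact ⟨a, Finset.mem_filter.2 ⟨Finset.mem_univ _, h2⟩, Finset.mem_image_of_mem _ (ih h1)⟩

/-- UP 4 -/
theorem rol_len {g : V × V} {s l : ℕ} {y : (V × V) × List V} (h : y ∈ rol G r g s l) :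
    y.2.length = l := by
  classical
  induction s generalizing l y with
  | zero =>
    unfold rol at h
    obtain ⟨t, ht, rfl⟩ := Finset.mem_image.1 h
    exact upl_len G r ht
  | succ s ih =>
    cases l with
    | zero =>
      unfold rol at h
      exact absurd h (Finset.notMem_empty _)
    | succ l =>
      unfold rol at h
      rw [Finset.mem_biUnion] at h
      obtain ⟨z, hz, h⟩ := h
      obtain ⟨w, _, rfl⟩ := Finset.mem_image.1 h
      simp only [List.length_cons]
      rw [ih hz]

open Classical in
/-- UP 5 -/
theorem rol_card {k K : ℕ} (hk : ∀ v, (univ.filter (fun a => Upe G r v a)).card ≤ k)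
    (hK : ∀ v, (univ.filter (fun a => G.Adj v a)).card ≤ K) (g : V × V) (s l : ℕ) (hs : s ≤ l) :
    (rol G r g s l).card ≤ K ^ s * k ^ (l - s) := by
  induction s generalizing l with
  | zero =>
    unfold rol
    rw [pow_zero, one_mul, Nat.sub_zero]
    exact Finset.card_image_le.trans (upl_card G r hk _ _)
  | succ s ih =>
    cases l with
    | zero => omega
    | succ l =>
      unfold rol
      refine Finset.card_biUnion_le.trans ?_
      have h1 : ∀ y ∈ rol G r g s l, ((univ.filter (fun w => G.Adj w y.1.1 ∧ r w < r y.1.1)).image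
          (fun w => (((w, y.1.1), y.1.2 :: y.2) : (V × V) × List V))).card ≤ K := by
        intro y _
        refine Finset.card_image_le.trans (le_trans (Finset.card_le_card ?_) (hK y.1.1))
        intro w hw
        rw [Finset.mem_filter] at hw ⊢
        exact ⟨hw.1, hw.2.1.symm⟩
      refine (Finset.sum_le_sum h1).trans ?_
      rw [Finset.sum_const, smul_eq_mul, Nat.succ_sub_succ]
      calc _ ≤ (K ^ s * k ^ (l - s)) * K := Nat.mul_le_mul_right _ (ih l (by omega))
        _ = _ := by ring

/-- UP 6 -/
theorem mem_rol {w v : V} {t : List V} (h : Chn G r w v t) {s : ℕ} (hs : s ≤ t.length) {g : V × V}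
    (hg : lev w v t s = g) : ((w, v), t) ∈ rol G r g s t.length := by
  classical
  induction s generalizing w v t with
  | zero =>
    rw [lev_zero] at hg
    subst hg
    unfold rol
    exact Finset.mem_image_of_mem _ (mem_upl G r h)
  | succ s ih =>
    cases t with
    | nil => simp at hs
    | cons a t =>
      rw [lev_succ] at hg
      rw [List.length_cons]
      unfold rol
      rw [Finset.mem_biUnion]
      refine ⟨((v, a), t), ih h.2.2 (by simpa using hs) hg, ?_⟩
      exact Finset.mem_image.2 ⟨w, Finset.mem_filter.2 ⟨Finset.mem_univ _, h.1, h.2.1⟩, rfl⟩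

end Pool.Agent.H95.AED
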